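import Pool.Agent.R731.HS.Main

/-!
# The model metric is a Kähler metric and `Gam` is its Levi-Civita connection
-/

set_option autoImplicit false

namespace Pool.Agent.R731.HS

open Matrix Complex
open scoped ContDiff Topology ComplexOrder Matrix.Norms.Elementwise

attribute [-instance] instTopologicalSpaceMatrix
attribute [-instance] Matrix.instUniformSpace

/-- On `Om ε m`: `met` is a Riemannian metric and `Gam` are the Christoffel symbols of its
Levi-Civita connection; the metric is Hermitian with respect to multiplication by `i`, and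
multiplication by `i` is parallel. -/
structure KaehlerModel (m : ℕ) (ε : ℝ) : Prop where
  leviCivita : LeviCivita (Gam ε) (met ε) (Om ε m)
  hermitian : ∀ Z ∈ Om ε m, ∀ X Y, met ε Z (I • X) (I • Y) = met ε Z X Y
  parallel : ∀ Z X Y : Matrix (Fin m) (Fin 2) ℂ, Gam ε Z X (I • Y) = I • Gam ε Z X Y

lemma kaehlerModel (m : ℕ) {ε : ℝ} (hε : ε = 1 ∨ ε = -1) : KaehlerModel m ε where
  leviCivita :=
    { symm := fun Z _ X Y => Hc_symm ε Z X Y
      pos := fun Z hZ X hX => met_pos hε hZ X hX
      torsionFree := Gc_symm ε
      metric := fun Z hZ X Y W => by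
        have hH := (HD_Hc ε Z (Om_det hZ)).differentiableAt
        have h1 := (hH.hasFDerivAt.clm_apply (hasFDerivAt_const Y Z)).clm_apply
          (hasFDerivAt_const W Z)
        have h2 := h1.fderiv
        have h3 : fderiv ℝ (fun Z' => met ε Z' Y W) Z = _ := h2
        rw [h3]
        have h4 := Hc_LC ε Z (Om_det hZ) X Y W
        rw [met_eq, met_eq, Gam_eq, Gam_eq, ← h4]
        simp }
  hermitian := fun Z _ X Y => by
    simp only [met, conjTranspose_smul, Matrix.mul_smul, Matrix.smul_mul, trace_smul, smul_eq_mul,
      Complex.star_def, conj_I, ← mul_assoc]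
    rw [mul_neg, I_mul_I, neg_neg, one_mul]
  parallel := fun Z X Y => by
    simp only [Gam, Matrix.mul_smul, Matrix.smul_mul]
    rw [← smul_add, smul_comm, smul_neg]

/-- the quaternionic structure: unit elements, at the point `Z`. The corresponding almost complex
structure is `X ↦ X q`. -/
structure IsQuat {m : ℕ} (ε : ℝ) (Z : Matrix (Fin m) (Fin 2) ℂ) (q : Matrix (Fin 2) (Fin 2) ℂ) :
    Prop where
  trace_eq : trace q = 0
  sq : q * q = -1
  skew : q * Dz ε Z + Dz ε Z * qᴴ = 0

end Pool.Agent.R731.HS
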