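import Mathlib

/-!
# The Gauss equation for hypersurfaces in one chart
-/

set_option autoImplicit false

namespace Pool.Agent.R731.HS

open scoped ContDiff Topology

section defs

variable {V W : Type*} [NormedAddCommGroup V] [NormedSpace ℝ V]
  [NormedAddCommGroup W] [NormedSpace ℝ W]

/-- covariant derivative of the vector field `s` along `φ` in the direction `u`, for the
connection with Christoffel map `Γ`. -/
noncomputable def nb (Γ : V → V → V → V) (φ : W → V) (u : W) (s : W → V) (x : W) : V :=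
  fderiv ℝ s x u + Γ (φ x) (fderiv ℝ φ x u) (s x)

/-- tangential part, with respect to the unit normal `N`. -/
noncomputable def tang (h : V → V → V → ℝ) (φ N : W → V) (x : W) (v : V) : V :=
  v - h (φ x) v (N x) • N x

/-- the shape operator, with values in the ambient space: `A u = - ∇_u N`. -/
noncomputable def shape (Γ : V → V → V → V) (φ N : W → V) (x : W) (u : W) : V :=
  - nb Γ φ u N x

/-- the Levi-Civita connection of the hypersurface (tangential part of the ambient one). -/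
noncomputable def tb (Γ : V → V → V → V) (h : V → V → V → ℝ) (φ N : W → V) (u : W) (s : W → V)
    (x : W) : V :=
  tang h φ N x (nb Γ φ u s x)

/-- the curvature tensor of the hypersurface `R(∂_u, ∂_v) ∂_w`, as an ambient vector. -/
noncomputable def curvM (Γ : V → V → V → V) (h : V → V → V → ℝ) (φ N : W → V) (u v w : W)
    (x : W) : V :=
  tb Γ h φ N u (tb Γ h φ N v fun y => fderiv ℝ φ y w) x -
    tb Γ h φ N v (tb Γ h φ N u fun y => fderiv ℝ φ y w) x

/-- A piece of hypersurface with a unit normal: a smooth immersion `φ` of an open set `U` into `Ω`,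
with a smooth unit normal field `N` along `φ` (with respect to the metric `h`). The dimension of
the source `W` has to be one less than the dimension of `V`. -/
structure HypSurf (h : V → V → V → ℝ) (Ω : Set V) (U : Set W) (φ N : W → V) : Prop where
  isOpen : IsOpen U
  smooth : ContDiffOn ℝ ∞ φ U
  smooth_normal : ContDiffOn ℝ ∞ N U
  maps : ∀ x ∈ U, φ x ∈ Ω
  immersion : ∀ x ∈ U, Function.Injective (fderiv ℝ φ x)
  unit : ∀ x ∈ U, h (φ x) (N x) (N x) = 1
  normal : ∀ x ∈ U, ∀ u, h (φ x) (fderiv ℝ φ x u) (N x) = 0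

/-- `η u = h (dφ u, ξ)` -/
noncomputable def etaForm (h : V → V → V → ℝ) (φ : W → V) (ξ : V) (x u : W) : ℝ :=
  h (φ x) (fderiv ℝ φ x u) ξ

/-- `η v • B u - η u • B v` -/
noncomputable def nullTerm (η : W → ℝ) (B : W → V) (u v : W) : V := η v • B u - η u • B v

/-- The `(κ,μ,ν)` nullity identity
`R(u,v)ξ = κ(η v dφ u - η u dφ v) + μ(η v A u - η u A v) + ν(η v ϕ A u - η u ϕ A v)` at the
point `x`, for all tangent `u`, `v`; here `ξ` is a tangent vector (as an ambient vector),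
and `J` an endomorphism of the ambient tangent space, `ϕ` its tangential part. -/
def NullAt (Γ : V → V → V → V) (h : V → V → V → ℝ) (φ N : W → V) (J : V → V) (ξ : V)
    (κ μ ν : ℝ) (x : W) : Prop :=
  ∀ u v z : W, fderiv ℝ φ x z = ξ →
    curvM Γ h φ N u v z x =
      κ • nullTerm (etaForm h φ ξ x) (fun u => fderiv ℝ φ x u) u v +
      μ • nullTerm (etaForm h φ ξ x) (shape Γ φ N x) u v +
      ν • nullTerm (etaForm h φ ξ x) (fun u => tang h φ N x (J (shape Γ φ N x u))) u v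

/-- `h` is a Riemannian metric on `Ω` and `Γ` is the Christoffel map of its Levi-Civita
connection. -/
structure LeviCivita (Γ : V → V → V → V) (h : V → V → V → ℝ) (Ω : Set V) : Prop where
  symm : ∀ p ∈ Ω, ∀ X Y, h p X Y = h p Y X
  pos : ∀ p ∈ Ω, ∀ X, X ≠ 0 → 0 < h p X X
  torsionFree : ∀ p X Y, Γ p X Y = Γ p Y X
  metric : ∀ p ∈ Ω, ∀ X Y Z,
    fderiv ℝ (fun p' => h p' Y Z) p X = h p (Γ p X Y) Z + h p Y (Γ p X Z)

end defs

lemma two_le_infty : (2 : WithTop ℕ∞) ≤ (∞ : WithTop ℕ∞) := by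
  exact WithTop.coe_le_coe.2 (le_top : (2 : ℕ∞) ≤ ⊤)

section gauss

variable {V W : Type*} [NormedAddCommGroup V] [NormedSpace ℝ V]
  [NormedAddCommGroup W] [NormedSpace ℝ W]

/-- ambient curvature -/
noncomputable def rbar (G : V → V →L[ℝ] V →L[ℝ] V) (p X Y Z : V) : V :=
  fderiv ℝ G p X Y Z - fderiv ℝ G p Y X Z + G p X (G p Y Z) - G p Y (G p X Z)

variable (G : V → V →L[ℝ] V →L[ℝ] V) (φ : W → V)

/-- covariant derivative with a CLM valued Christoffel map -/
noncomputable def nbG (u : W) (s : W → V) (x : W) : V :=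
  fderiv ℝ s x u + G (φ x) (fderiv ℝ φ x u) (s x)

lemma nbG_differentiableAt (v : W) (s : W → V) (x : W) (hs : ContDiffAt ℝ 2 s x)
    (hφ : ContDiffAt ℝ 2 φ x) (hG : DifferentiableAt ℝ G (φ x)) :
    HasFDerivAt (nbG G φ v s) (((fderiv ℝ (fderiv ℝ s) x).flip v) +
      ((G (φ x) (fderiv ℝ φ x v)).comp (fderiv ℝ s x) +
        (((G (φ x)).comp ((fderiv ℝ (fderiv ℝ φ) x).flip v) +
          (((fderiv ℝ G (φ x)).comp (fderiv ℝ φ x)).flip (fderiv ℝ φ x v)))).flip (s x))) x := by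
  have hs1 : DifferentiableAt ℝ s x := hs.differentiableAt (by norm_num)
  have hφ1 : DifferentiableAt ℝ φ x := hφ.differentiableAt (by norm_num)
  have hs2 : DifferentiableAt ℝ (fderiv ℝ s) x :=
    (hs.fderiv_right (m := 1) (by norm_num)).differentiableAt (by norm_num)
  have hφ2 : DifferentiableAt ℝ (fderiv ℝ φ) x :=
    (hφ.fderiv_right (m := 1) (by norm_num)).differentiableAt (by norm_num)
  have h1 := hs2.hasFDerivAt.clm_apply (hasFDerivAt_const v x)
  have h2 := hφ2.hasFDerivAt.clm_apply (hasFDerivAt_const v x)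
  have h3 : HasFDerivAt (fun y => G (φ y)) ((fderiv ℝ G (φ x)).comp (fderiv ℝ φ x)) x :=
    HasFDerivAt.comp (g := G) (f := φ) x hG.hasFDerivAt hφ1.hasFDerivAt
  have h4 := (h3.clm_apply h2).clm_apply hs1.hasFDerivAt
  have h5 := h1.add h4
  refine h5.congr_fderiv ?_
  ext u
  simp

lemma nbG_comm (u v : W) (s : W → V) (x : W) (hs : ContDiffAt ℝ 2 s x)
    (hφ : ContDiffAt ℝ 2 φ x) (hG : DifferentiableAt ℝ G (φ x)) :
    nbG G φ u (nbG G φ v s) x - nbG G φ v (nbG G φ u s) x =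
      rbar G (φ x) (fderiv ℝ φ x u) (fderiv ℝ φ x v) (s x) := by
  have e1 := (nbG_differentiableAt G φ v s x hs hφ hG).fderiv
  have e2 := (nbG_differentiableAt G φ u s x hs hφ hG).fderiv
  have s1 : fderiv ℝ (fderiv ℝ s) x u v = fderiv ℝ (fderiv ℝ s) x v u :=
    (hs.isSymmSndFDerivAt (by simp)).eq u v
  have s2 : fderiv ℝ (fderiv ℝ φ) x u v = fderiv ℝ (fderiv ℝ φ) x v u :=
    (hφ.isSymmSndFDerivAt (by simp)).eq u v
  have d1 : nbG G φ u (nbG G φ v s) x = fderiv ℝ (nbG G φ v s) x u +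
    G (φ x) (fderiv ℝ φ x u) (nbG G φ v s x) := rfl
  have d2 : nbG G φ v (nbG G φ u s) x = fderiv ℝ (nbG G φ u s) x v +
    G (φ x) (fderiv ℝ φ x v) (nbG G φ u s x) := rfl
  rw [d1, d2, e1, e2]
  simp only [nbG, rbar, add_apply, ContinuousLinearMap.flip_apply,
    ContinuousLinearMap.comp_apply, map_add, s1, s2]
  abel

lemma metric_deriv (H : V → V →L[ℝ] V →L[ℝ] ℝ) (u : W) (s t : W → V) (x : W)
    (hs : DifferentiableAt ℝ s x) (ht : DifferentiableAt ℝ t x) (hφ : DifferentiableAt ℝ φ x)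
    (hH : DifferentiableAt ℝ H (φ x))
    (hLC : ∀ X Y Z, fderiv ℝ H (φ x) X Y Z = H (φ x) (G (φ x) X Y) Z + H (φ x) Y (G (φ x) X Z)) :
    DifferentiableAt ℝ (fun y => H (φ y) (s y) (t y)) x ∧
    fderiv ℝ (fun y => H (φ y) (s y) (t y)) x u =
      H (φ x) (nbG G φ u s x) (t x) + H (φ x) (s x) (nbG G φ u t x) := by
  have h3 : HasFDerivAt (fun y => H (φ y)) ((fderiv ℝ H (φ x)).comp (fderiv ℝ φ x)) x :=
    HasFDerivAt.comp (g := H) (f := φ) x hH.hasFDerivAt hφ.hasFDerivAt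
  have h4 := (h3.clm_apply hs.hasFDerivAt).clm_apply ht.hasFDerivAt
  refine ⟨h4.differentiableAt, ?_⟩
  have h5 := h4.fderiv
  rw [h5]
  simp only [nbG, add_apply, ContinuousLinearMap.flip_apply,
    ContinuousLinearMap.comp_apply, map_add, hLC]
  ring

/-- all the hypotheses on a hypersurface in a Riemannian chart, at the points of an open set. -/
structure Data (Γ : V → V → V → V) (h : V → V → V → ℝ) (G : V → V →L[ℝ] V →L[ℝ] V)
    (H : V → V →L[ℝ] V →L[ℝ] ℝ) (Ω : Set V) (U : Set W) (φ N : W → V) : Prop where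
  Γ_eq : ∀ p X Y, Γ p X Y = G p X Y
  h_eq : ∀ p X Y, h p X Y = H p X Y
  G_diff : ∀ p ∈ Ω, DifferentiableAt ℝ G p
  H_diff : ∀ p ∈ Ω, DifferentiableAt ℝ H p
  G_symm : ∀ p X Y, G p X Y = G p Y X
  H_symm : ∀ p ∈ Ω, ∀ X Y, H p X Y = H p Y X
  LC : ∀ p ∈ Ω, ∀ X Y Z, fderiv ℝ H p X Y Z = H p (G p X Y) Z + H p Y (G p X Z)
  U_open : IsOpen U
  φ_smooth : ContDiffOn ℝ ∞ φ U
  N_smooth : ContDiffOn ℝ ∞ N U
  maps : ∀ x ∈ U, φ x ∈ Ω
  unit : ∀ x ∈ U, h (φ x) (N x) (N x) = 1
  normal : ∀ x ∈ U, ∀ u, h (φ x) (fderiv ℝ φ x u) (N x) = 0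

variable {G φ}
variable {Γ : V → V → V → V} {h : V → V → V → ℝ}
    {H : V → V →L[ℝ] V →L[ℝ] ℝ} {Ω : Set V} {U : Set W} {N : W → V}

namespace Data

variable (D : Data Γ h G H Ω U φ N)
include D

lemma nb_eq : nb Γ φ = nbG G φ := by
  funext u s x
  simp only [nb, nbG, D.Γ_eq]

lemma φ_at {x : W} (hx : x ∈ U) : ContDiffAt ℝ ∞ φ x := D.φ_smooth.contDiffAt (D.U_open.mem_nhds hx)

lemma N_at {x : W} (hx : x ∈ U) : ContDiffAt ℝ ∞ N x := D.N_smooth.contDiffAt (D.U_open.mem_nhds hx)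

lemma dφ_at {x : W} (hx : x ∈ U) (w : W) : ContDiffAt ℝ ∞ (fun y => fderiv ℝ φ y w) x :=
  ((D.φ_at hx).fderiv_right (m := ∞) (by simp)).clm_apply contDiffAt_const

lemma nbN_normal {x : W} (hx : x ∈ U) (u : W) : H (φ x) (nbG G φ u N x) (N x) = 0 := by
  have hN : DifferentiableAt ℝ N x := (D.N_at hx).differentiableAt (by simp)
  have hφ : DifferentiableAt ℝ φ x := (D.φ_at hx).differentiableAt (by simp)
  have h1 := (metric_deriv G φ H u N N x hN hN hφ (D.H_diff _ (D.maps x hx))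
    (D.LC _ (D.maps x hx))).2
  have h2 : (fun y => H (φ y) (N y) (N y)) =ᶠ[𝓝 x] fun _ => (1 : ℝ) := by
    filter_upwards [D.U_open.mem_nhds hx] with y hy
    rw [← D.h_eq]
    exact D.unit y hy
  rw [h2.fderiv_eq, D.H_symm _ (D.maps x hx) (N x)] at h1
  simp at h1
  linarith

lemma second {x : W} (hx : x ∈ U) (v w : W) :
    H (φ x) (nbG G φ v (fun y => fderiv ℝ φ y w) x) (N x) =
      - H (φ x) (fderiv ℝ φ x w) (nbG G φ v N x) := by
  have hN : DifferentiableAt ℝ N x := (D.N_at hx).differentiableAt (by simp)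
  have hφ : DifferentiableAt ℝ φ x := (D.φ_at hx).differentiableAt (by simp)
  have hd : DifferentiableAt ℝ (fun y => fderiv ℝ φ y w) x :=
    (D.dφ_at hx w).differentiableAt (by simp)
  have h1 := (metric_deriv G φ H v (fun y => fderiv ℝ φ y w) N x hd hN hφ
    (D.H_diff _ (D.maps x hx)) (D.LC _ (D.maps x hx))).2
  have h2 : (fun y => H (φ y) (fderiv ℝ φ y w) (N y)) =ᶠ[𝓝 x] fun _ => (0 : ℝ) := by
    filter_upwards [D.U_open.mem_nhds hx] with y hy
    rw [← D.h_eq]
    exact D.normal y hy w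
  rw [h2.fderiv_eq] at h1
  simp at h1
  linarith

lemma shape_symm {x : W} (hx : x ∈ U) (v w : W) :
    h (φ x) (fderiv ℝ φ x w) (shape Γ φ N x v) = h (φ x) (fderiv ℝ φ x v) (shape Γ φ N x w) := by
  have h1 := D.second hx v w
  have h2 := D.second hx w v
  have h3 : nbG G φ v (fun y => fderiv ℝ φ y w) x = nbG G φ w (fun y => fderiv ℝ φ y v) x := by
    have hφ2 : DifferentiableAt ℝ (fderiv ℝ φ) x :=
      ((D.φ_at hx).fderiv_right (m := 1) (by norm_num; exact two_le_infty)).differentiableAt (by norm_num)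
    have a1 : ∀ w : W, fderiv ℝ (fun y => fderiv ℝ φ y w) x = (fderiv ℝ (fderiv ℝ φ) x).flip w := by
      intro w
      have := (hφ2.hasFDerivAt.clm_apply (hasFDerivAt_const w x)).fderiv
      rw [this]
      ext u
      simp
    have s2 : fderiv ℝ (fderiv ℝ φ) x v w = fderiv ℝ (fderiv ℝ φ) x w v :=
      ((D.φ_at hx).isSymmSndFDerivAt (by simpa using two_le_infty)).eq v w
    simp only [nbG, a1, ContinuousLinearMap.flip_apply, s2]
    rw [D.G_symm]
  rw [h3] at h1
  simp only [shape, D.nb_eq, D.h_eq, map_neg]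
  linarith

lemma shape_tangent {x : W} (hx : x ∈ U) (u : W) :
    h (φ x) (shape Γ φ N x u) (N x) = 0 := by
  simp only [shape, D.nb_eq, D.h_eq, map_neg, neg_apply, D.nbN_normal hx u, neg_zero]

lemma tb_eq (u v : W) {x : W} (hx : x ∈ U) (s : W → V) (hs : ContDiffAt ℝ 2 s x)  :
    tb Γ h φ N u (tb Γ h φ N v s) x =
      tang h φ N x (nbG G φ u (nbG G φ v s) x) -
        H (φ x) (nbG G φ v s x) (N x) • nbG G φ u N x := by
  have hN : DifferentiableAt ℝ N x := (D.N_at hx).differentiableAt (by simp)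
  have hφ : DifferentiableAt ℝ φ x := (D.φ_at hx).differentiableAt (by simp)
  have hf : DifferentiableAt ℝ (nbG G φ v s) x :=
    (nbG_differentiableAt G φ v s x hs ((D.φ_at hx).of_le two_le_infty)
      (D.G_diff _ (D.maps x hx))).differentiableAt
  have hb := (metric_deriv G φ H u (nbG G φ v s) N x hf hN hφ (D.H_diff _ (D.maps x hx))
    (D.LC _ (D.maps x hx))).1
  have e1 : tb Γ h φ N v s = fun y => nbG G φ v s y - H (φ y) (nbG G φ v s y) (N y) • N y := by
    funext y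
    simp only [tb, tang, D.nb_eq, D.h_eq]
  have e2 : fderiv ℝ (fun y => nbG G φ v s y - H (φ y) (nbG G φ v s y) (N y) • N y) x u =
      fderiv ℝ (nbG G φ v s) x u - (H (φ x) (nbG G φ v s x) (N x) • fderiv ℝ N x u +
        fderiv ℝ (fun y => H (φ y) (nbG G φ v s y) (N y)) x u • N x) := by
    have : fderiv ℝ (fun y => nbG G φ v s y - H (φ y) (nbG G φ v s y) (N y) • N y) x = _ :=
      (hf.hasFDerivAt.sub (hb.hasFDerivAt.smul hN.hasFDerivAt)).fderiv
    rw [this]
    simp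
  have e3 : H (φ x) (N x) (N x) = 1 := by rw [← D.h_eq]; exact D.unit x hx
  have e4 := D.nbN_normal hx u
  rw [tb, e1]
  set b := H (φ x) (nbG G φ v s x) (N x) with hb'
  have e5 : nb Γ φ u (fun y => nbG G φ v s y - H (φ y) (nbG G φ v s y) (N y) • N y) x =
      nbG G φ u (nbG G φ v s) x - b • nbG G φ u N x -
        fderiv ℝ (fun y => H (φ y) (nbG G φ v s y) (N y)) x u • N x := by
    rw [D.nb_eq]
    simp only [nbG]
    simp only [nbG] at e2 hb'
    rw [e2]
    simp only [map_sub, map_smul, ← hb']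
    module
  rw [e5]
  simp only [tang, D.h_eq, map_sub, map_smul, sub_apply, smul_apply, e3, e4, smul_eq_mul]
  module

/-- **Gauss equation** -/
theorem gauss {x : W} (hx : x ∈ U) (u v w : W) :
    curvM Γ h φ N u v w x =
      tang h φ N x (rbar G (φ x) (fderiv ℝ φ x u) (fderiv ℝ φ x v) (fderiv ℝ φ x w)) +
        h (φ x) (fderiv ℝ φ x w) (shape Γ φ N x v) • shape Γ φ N x u -
        h (φ x) (fderiv ℝ φ x w) (shape Γ φ N x u) • shape Γ φ N x v := by
  have hs : ContDiffAt ℝ 2 (fun y => fderiv ℝ φ y w) x := (D.dφ_at hx w).of_le two_le_infty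
  have h1 := nbG_comm G φ u v (fun y => fderiv ℝ φ y w) x hs ((D.φ_at hx).of_le two_le_infty)
    (D.G_diff _ (D.maps x hx))
  rw [curvM, D.tb_eq u v hx _ hs, D.tb_eq v u hx _ hs, D.second hx, D.second hx, ← h1]
  simp only [tang, shape, D.nb_eq, D.h_eq, map_sub, map_neg, sub_apply]
  module

end Data

end gauss

end Pool.Agent.R731.HS
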