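import Mathlib

/-!
# Pointwise algebra of semi-parallel hypersurfaces of complex space forms
-/

set_option autoImplicit false

namespace Pool.Agent.R731.HSP

open Module

variable {W : Type*} [AddCommGroup W] [Module ℝ W] [FiniteDimensional ℝ W]

lemma exists_eigenbasis (B : W →ₗ[ℝ] W →ₗ[ℝ] ℝ) (hs : ∀ u v, B u v = B v u)
    (hp : ∀ u, u ≠ 0 → 0 < B u u) (A : W →ₗ[ℝ] W) (hA : ∀ u v, B (A u) v = B u (A v)) :
    ∃ (e : Basis (Fin (finrank ℝ W)) ℝ W) (l : Fin (finrank ℝ W) → ℝ),
      (∀ i, A (e i) = l i • e i) ∧ ∀ i j, B (e i) (e j) = if i = j then 1 else 0 := by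
  let core : InnerProductSpace.Core ℝ W :=
    { inner := fun u v => B u v
      conj_inner_symm := fun u v => by simp [hs u v]
      re_inner_nonneg := fun u => by
        by_cases h : u = 0
        · simp [h]
        · exact (hp u h).le
      add_left := fun u v w => by simp
      smul_left := fun u v r => by simp
      definite := fun u h => by
        by_contra h0
        exact (hp u h0).ne' h }
  letI i1 : NormedAddCommGroup W := core.toNormedAddCommGroup
  letI i2 : InnerProductSpace ℝ W := InnerProductSpace.ofCore core.toCore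
  have hsym : A.IsSymmetric := hA
  let b := hsym.eigenvectorBasis rfl
  refine ⟨b.toBasis, hsym.eigenvalues rfl, ?_, ?_⟩
  · intro i
    have h := hsym.apply_eigenvectorBasis rfl i
    rw [OrthonormalBasis.coe_toBasis]
    calc A (b i) = _ := h
      _ = hsym.eigenvalues rfl i • b i := by simp [b]
  · intro i j
    have h := b.orthonormal
    rw [orthonormal_iff_ite] at h
    have h2 := h i j
    rw [OrthonormalBasis.coe_toBasis]
    exact h2

lemma exists_orth {k : ℕ} (f : Fin k → W →ₗ[ℝ] ℝ) (hk : k < finrank ℝ W) :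
    ∃ Z : W, Z ≠ 0 ∧ ∀ i, f i Z = 0 := by
  have h1 : finrank ℝ (Fin k → ℝ) < finrank ℝ W := by simpa using hk
  have h2 := LinearMap.ker_ne_bot_of_finrank_lt (f := LinearMap.pi f) h1
  obtain ⟨Z, hZ, hZ0⟩ := (Submodule.ne_bot_iff _).1 h2
  refine ⟨Z, hZ0, fun i => ?_⟩
  have := congrFun (LinearMap.mem_ker.1 hZ) i
  simpa using this

/-- the algebraic data of a hypersurface of a complex space form at a point -/
structure AlgData (c : ℝ) (B : W →ₗ[ℝ] W →ₗ[ℝ] ℝ) (A P : W →ₗ[ℝ] W) (w : W) : Prop where
  symm : ∀ u v, B u v = B v u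
  pos : ∀ u, u ≠ 0 → 0 < B u u
  A_symm : ∀ u v, B (A u) v = B u (A v)
  P_skew : ∀ u v, B (P u) v = -B u (P v)
  P_sq : ∀ u, P (P u) = -u + B u w • w
  P_w : P w = 0
  w_unit : B w w = 1

/-- the curvature operator -/
def algR (c : ℝ) (B : W →ₗ[ℝ] W →ₗ[ℝ] ℝ) (A P : W →ₗ[ℝ] W) (u v z : W) : W :=
  c • (B v z • u - B u z • v + B (P v) z • P u - B (P u) z • P v - (2 * B (P u) v) • P z) +
    B (A v) z • A u - B (A u) z • A v

variable {c : ℝ} {B : W →ₗ[ℝ] W →ₗ[ℝ] ℝ} {A P : W →ₗ[ℝ] W} {w : W}

namespace AlgData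

variable (D : AlgData c B A P w)
include D

lemma eq_zero_of_self {u : W} (h : B u u = 0) : u = 0 := by
  by_contra h0
  exact (D.pos u h0).ne' h

lemma eq_zero_of_forall {u : W} (h : ∀ v, B u v = 0) : u = 0 := D.eq_zero_of_self (h u)

lemma PP (u v : W) : B (P u) (P v) = B u v - B u w * B v w := by
  rw [D.P_skew, D.P_sq, map_add, map_neg, map_smul, smul_eq_mul]
  ring

lemma skew_self (u : W) : B (P u) u = 0 := by
  have h1 := D.P_skew u u
  have h2 := D.symm (P u) u
  linarith

/-- the basic relation for a pair of eigenvectors with different eigenvalues -/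
lemma pair (hR : ∀ u v z, algR c B A P u v (A z) = A (algR c B A P u v z)) {x y : W} {a b : ℝ}
    (hx : A x = a • x) (hy : A y = b • y) (hab : a ≠ b) (Z U : W) :
    (c + a * b) * (B U x * B Z y - B Z x * B U y) +
      c * (B U (P x) * B Z (P y) - B Z (P x) * B U (P y) - 2 * B (P x) y * B (P Z) U) = 0 := by
  have h1 := hR Z U x
  have h2 : B (algR c B A P Z U x) y = 0 := by
    have h3 : a * B (algR c B A P Z U x) y = b * B (algR c B A P Z U x) y := by
      have h4 : algR c B A P Z U (A x) = a • algR c B A P Z U x := by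
        rw [hx]
        simp only [algR, map_smul, smul_eq_mul]
        module
      rw [h4] at h1
      have h5 := congrArg (fun q => B q y) h1
      simp only [map_smul, LinearMap.smul_apply, smul_eq_mul] at h5
      rw [D.A_symm, hy, map_smul, smul_eq_mul] at h5
      exact h5
    have h6 : (a - b) * B (algR c B A P Z U x) y = 0 := by linarith
    rcases mul_eq_zero.1 h6 with h | h
    · exact absurd (sub_eq_zero.1 h) hab
    · exact h
  simp only [algR, map_add, map_sub, map_smul, LinearMap.add_apply, LinearMap.sub_apply,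
    LinearMap.smul_apply, smul_eq_mul] at h2
  rw [D.A_symm U x, D.A_symm Z y, D.A_symm Z x, D.A_symm U y, hx, hy] at h2
  simp only [map_smul, smul_eq_mul] at h2
  rw [D.P_skew U x, D.P_skew Z y, D.P_skew Z x, D.P_skew U y] at h2
  linear_combination h2

lemma s_zero (hdim : 5 ≤ finrank ℝ W) (hc : c ≠ 0)
    (hR : ∀ u v z, algR c B A P u v (A z) = A (algR c B A P u v z)) {x y : W} {a b : ℝ}
    (hx : A x = a • x) (hy : A y = b • y) (hab : a ≠ b)
    (hxx : B x x = 1) (hyy : B y y = 1) (hxy : B x y = 0) : B (P x) y = 0 := by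
  by_contra hs
  have E := D.pair hR hx hy hab
  -- kernel lemma
  have key : ∀ Z : W, B x Z = 0 → B y Z = 0 → B (P x) Z = 0 → B (P y) Z = 0 → P Z = 0 := by
    intro Z h1 h2 h3 h4
    apply D.eq_zero_of_forall
    intro U
    have h5 := E Z U
    rw [D.symm Z y, D.symm Z x, D.symm Z (P x), D.symm Z (P y), h1, h2, h3, h4] at h5
    have h6 : (c * B (P x) y) * B (P Z) U = 0 := by linarith
    rcases mul_eq_zero.1 h6 with h | h
    · exact absurd h (mul_ne_zero hc hs)
    · exact h
  obtain ⟨Z, hZ0, hZ⟩ := exists_orth (k := 4) ![B x, B y, B (P x), B (P y)] (by omega)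
  have z0 : B x Z = 0 := hZ 0
  have z1 : B y Z = 0 := hZ 1
  have z2 : B (P x) Z = 0 := hZ 2
  have z3 : B (P y) Z = 0 := hZ 3
  have hPZ := key Z z0 z1 z2 z3
  have hZw : Z = B Z w • w := by
    have := D.P_sq Z
    rw [hPZ, map_zero] at this
    have h' : Z = Z + (-Z + B Z w • w) := by rw [← this, add_zero]
    rw [h']
    have h'' : Z + (-Z + B Z w • w) = B Z w • w := by abel
    rw [h'']
    congr 2
    rw [← h'', ← h']
  have hZw0 : B Z w ≠ 0 := by
    intro h
    rw [h, zero_smul] at hZw
    exact hZ0 hZw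
  have hxw : B x w = 0 := by
    have h1 := z0
    rw [hZw, map_smul, smul_eq_mul] at h1
    exact (mul_eq_zero.1 h1).resolve_left hZw0
  have hyw : B y w = 0 := by
    have h1 := z1
    rw [hZw, map_smul, smul_eq_mul] at h1
    exact (mul_eq_zero.1 h1).resolve_left hZw0
  have hPxPx : B (P x) (P x) = 1 := by rw [D.PP, hxx, hxw]; ring
  have hxPy : B x (P y) = -B (P x) y := by
    have := D.P_skew x y
    linarith
  have hxPx : B x (P x) = 0 := by rw [D.symm]; exact D.skew_self x
  have hPxx : B (P x) x = 0 := D.skew_self x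
  have hPxPy : B (P x) (P y) = 0 := by rw [D.PP, hxy, hxw]; ring
  have e1 := E x (P x)
  rw [hPxx, hxx, hPxPx, hxPy, hxPx, hPxPy, hxy] at e1
  have e2 := E x y
  rw [D.symm y x, hxy, hxx, hyy, D.symm y (P x), hxPy, hxPx] at e2
  have hK : c + a * b = -3 * c := by
    have : B (P x) y * ((c + a * b) + 3 * c) = 0 := by linear_combination -e1
    rcases mul_eq_zero.1 this with h | h
    · exact absurd h hs
    · linarith
  rw [hK] at e2
  have hs2 : B (P x) y * B (P x) y = 1 := by
    have : c * (B (P x) y * B (P x) y - 1) = 0 := by linear_combination (-1 / 3) * e2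
    rcases mul_eq_zero.1 this with h | h
    · exact absurd h hc
    · linarith
  have hy' : y = B (P x) y • P x := by
    rw [← sub_eq_zero]
    apply D.eq_zero_of_self
    simp only [map_sub, map_smul, LinearMap.sub_apply, LinearMap.smul_apply, smul_eq_mul, hyy,
      hPxPx, D.symm y (P x)]
    linear_combination -hs2
  have hPy' : P y = -(B (P x) y • x) := by
    have h1 : P y = B (P x) y • P (P x) := by
      conv_lhs => rw [hy']
      rw [map_smul]
    rw [h1, D.P_sq, hxw, zero_smul, add_zero, smul_neg]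
  obtain ⟨Z', hZ0', hZ'⟩ := exists_orth (k := 3) ![B x, B (P x), B w] (by omega)
  have y0 : B x Z' = 0 := hZ' 0
  have y1 : B (P x) Z' = 0 := hZ' 1
  have y2 : B w Z' = 0 := hZ' 2
  have y3 : B y Z' = 0 := by
    rw [hy', map_smul, LinearMap.smul_apply, y1, smul_zero]
  have y4 : B (P y) Z' = 0 := by
    rw [hPy', map_neg, map_smul, LinearMap.neg_apply, LinearMap.smul_apply, y0, smul_zero,
      neg_zero]
  have hPZ' := key Z' y0 y3 y1 y4
  have h7 := D.P_sq Z'
  rw [hPZ', map_zero, D.symm, y2, zero_smul, add_zero] at h7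
  exact hZ0' (neg_eq_zero.1 h7.symm)

/-- the pointwise conclusion -/
theorem main (hdim : 5 ≤ finrank ℝ W) (hc : c ≠ 0)
    (hR : ∀ u v z, algR c B A P u v (A z) = A (algR c B A P u v z)) :
    ∃ l m : ℝ, A w = m • w ∧ (∀ u, B u w = 0 → A u = l • u) ∧ (l = m ∨ l * m = -c) := by
  obtain ⟨e, l, hl, he⟩ := exists_eigenbasis B D.symm D.pos A D.A_symm
  have heself : ∀ i, B (e i) (e i) = 1 := fun i => by rw [he]; simp
  have hene : ∀ i j, i ≠ j → B (e i) (e j) = 0 := fun i j h => by rw [he]; simp [h]
  -- vanishing test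
  have test : ∀ v : W, (∀ k, B v (e k) = 0) → v = 0 := by
    intro v hv
    apply D.eq_zero_of_forall
    intro u
    have : B v = 0 := e.ext (fun k => by simpa using hv k)
    rw [this]; rfl
  have hs0 : ∀ i j, l i ≠ l j → B (P (e i)) (e j) = 0 := by
    intro i j hij
    have hne : i ≠ j := fun h => hij (by rw [h])
    exact D.s_zero hdim hc hR (hl i) (hl j) hij (heself i) (heself j) (hene i j hne)
  have hAP : ∀ i, A (P (e i)) = l i • P (e i) := by
    intro i
    rw [← sub_eq_zero]
    apply test
    intro k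
    rw [map_sub, map_smul, LinearMap.sub_apply, LinearMap.smul_apply, D.A_symm, hl k, map_smul,
      smul_eq_mul, smul_eq_mul]
    by_cases h : l i = l k
    · rw [h]; ring
    · rw [hs0 i k h]; ring
  have hpair : ∀ i j, l i ≠ l j → l i * l j = -c ∧ (B (e i) w ^ 2 = 1 ∨ B (e j) w ^ 2 = 1) := by
    intro i j hij
    have hne : i ≠ j := fun h => hij (by rw [h])
    have E := D.pair hR (hl i) (hl j) hij
    have hs := hs0 i j hij
    have hPP0 : B (P (e i)) (P (e j)) = 0 := by
      have h1 : l i * B (P (e i)) (P (e j)) = l j * B (P (e i)) (P (e j)) := by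
        have h2 := D.A_symm (P (e i)) (P (e j))
        rw [hAP, hAP, map_smul, map_smul, LinearMap.smul_apply, smul_eq_mul, smul_eq_mul] at h2
        exact h2
      have h3 : (l i - l j) * B (P (e i)) (P (e j)) = 0 := by linarith
      rcases mul_eq_zero.1 h3 with h | h
      · exact absurd (sub_eq_zero.1 h) hij
      · exact h
    have hK : c + l i * l j = 0 := by
      have h1 := E (e j) (e i)
      rw [heself, heself, hene j i hne.symm, hs] at h1
      have h2 : B (e i) (P (e i)) = 0 := by rw [D.symm]; exact D.skew_self _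
      have h3 : B (e j) (P (e i)) = 0 := by rw [D.symm]; exact hs
      rw [h2, h3] at h1
      linarith
    refine ⟨by linarith, ?_⟩
    have h1 := E (P (e j)) (P (e i))
    rw [hK, hs, D.symm (P (e j)) (P (e i)), hPP0, D.PP, D.PP, heself, heself] at h1
    have h2 : (1 - B (e i) w * B (e i) w) * (1 - B (e j) w * B (e j) w) = 0 := by
      have : c * ((1 - B (e i) w * B (e i) w) * (1 - B (e j) w * B (e j) w)) = 0 := by linarith
      rcases mul_eq_zero.1 this with h | h
      · exact absurd h hc
      · exact h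
    rcases mul_eq_zero.1 h2 with h | h
    · left; linarith
    · right; linarith
  by_cases hall : ∀ i j, l i = l j
  · -- umbilic
    have hpos : 0 < finrank ℝ W := by omega
    refine ⟨l ⟨0, hpos⟩, l ⟨0, hpos⟩, ?_, ?_, Or.inl rfl⟩
    · rw [← sub_eq_zero]
      apply test
      intro k
      rw [map_sub, map_smul, LinearMap.sub_apply, LinearMap.smul_apply, D.A_symm, hl k, map_smul,
        smul_eq_mul, smul_eq_mul, hall k ⟨0, hpos⟩]
      ring
    · intro u _
      rw [← sub_eq_zero]
      apply test
      intro k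
      rw [map_sub, map_smul, LinearMap.sub_apply, LinearMap.smul_apply, D.A_symm, hl k, map_smul,
        smul_eq_mul, smul_eq_mul, hall k ⟨0, hpos⟩]
      ring
  · push Not at hall
    have hex : ∃ i j, l i ≠ l j ∧ B (e i) w ^ 2 = 1 := by
      obtain ⟨i, j, hij⟩ := hall
      rcases (hpair i j hij).2 with h | h
      · exact ⟨i, j, hij, h⟩
      · exact ⟨j, i, hij.symm, h⟩
    obtain ⟨i0, j0, hij, h1⟩ := hex
    set a := B (e i0) w with ha
    have hw : w = a • e i0 := by
      rw [← sub_eq_zero]
      apply D.eq_zero_of_self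
      simp only [map_sub, map_smul, LinearMap.sub_apply, LinearMap.smul_apply, smul_eq_mul,
        D.w_unit, heself, D.symm w (e i0), ← ha]
      linear_combination -h1
    have ha0 : a ≠ 0 := by
      intro h0
      rw [h0] at h1
      norm_num at h1
    have hk0 : ∀ k, k ≠ i0 → B (e k) w = 0 := by
      intro k hk
      rw [hw, map_smul, hene k i0 hk, smul_zero]
    have hkl : ∀ k, k ≠ i0 → l k = l j0 := by
      intro k hk
      by_contra hne
      have hj0 : j0 ≠ i0 := fun h => hij (by rw [h])
      rcases (hpair k j0 hne).2 with h | h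
      · rw [hk0 k hk] at h; norm_num at h
      · rw [hk0 j0 hj0] at h; norm_num at h
    refine ⟨l j0, l i0, ?_, ?_, Or.inr ?_⟩
    · conv_lhs => rw [hw]
      conv_rhs => rw [hw]
      rw [map_smul, hl i0, smul_comm]
    · intro u hu
      have hu0 : B u (e i0) = 0 := by
        rw [hw, map_smul, smul_eq_mul] at hu
        exact (mul_eq_zero.1 hu).resolve_left ha0
      rw [← sub_eq_zero]
      apply test
      intro k
      rw [map_sub, map_smul, LinearMap.sub_apply, LinearMap.smul_apply, D.A_symm, hl k, map_smul,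
        smul_eq_mul, smul_eq_mul]
      by_cases hk : k = i0
      · rw [hk, hu0]; ring
      · rw [hkl k hk]; ring
    · have := (hpair i0 j0 hij).1
      linarith

end AlgData

end Pool.Agent.R731.HSP
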