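import Pool.Agent.R731.HS.Facts

/-!
# The identity with two different structure vectors
-/

set_option autoImplicit false

namespace Pool.Agent.R731.HS

open Matrix Complex
open scoped ContDiff Topology ComplexOrder Matrix.Norms.Elementwise

attribute [-instance] instTopologicalSpaceMatrix
attribute [-instance] Matrix.instUniformSpace

section gen

variable {V W : Type*} [NormedAddCommGroup V] [NormedSpace ℝ V]
  [NormedAddCommGroup W] [NormedSpace ℝ W]

/-- The tangent vector `Z` (as an ambient vector) lies in the `(κ,μ,ν)`-nullity space of the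
structure `J` at `x`: with `ξ = -J N`, `η = h(·, ξ)` and `ϕ` the tangential part of `J`,
`R(u,v)Z = κ(η v dφ u - η u dφ v) + μ(η v A u - η u A v) + ν(η v ϕ A u - η u ϕ A v)`
for all tangent `u`, `v`. -/
def NullVec (Γ : V → V → V → V) (h : V → V → V → ℝ) (φ N : W → V) (J : V → V) (Z : V)
    (κ μ ν : ℝ) (x : W) : Prop :=
  ∀ u v z : W, fderiv ℝ φ x z = Z →
    curvM Γ h φ N u v z x =
      κ • nullTerm (etaForm h φ (-(J (N x))) x) (fun u => fderiv ℝ φ x u) u v +
      μ • nullTerm (etaForm h φ (-(J (N x))) x) (shape Γ φ N x) u v +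
      ν • nullTerm (etaForm h φ (-(J (N x))) x) (fun u => tang h φ N x (J (shape Γ φ N x u))) u v

end gen

variable {m : ℕ}

theorem main2 (hm : 3 ≤ m) {ε : ℝ} (hε : ε = 1 ∨ ε = -1)
    {U : Set (EuclideanSpace ℝ (Fin (4 * m - 1)))}
    {φ N : EuclideanSpace ℝ (Fin (4 * m - 1)) → Matrix (Fin m) (Fin 2) ℂ}
    (hyp : HypSurf (met ε) (Om ε m) U φ N) {x : EuclideanSpace ℝ (Fin (4 * m - 1))} (hx : x ∈ U)
    (q q' : Matrix (Fin 2) (Fin 2) ℂ) (hq : q * q = -1)
    (hskew : q * Dz ε (φ x) + Dz ε (φ x) * qᴴ = 0)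
    (κ μ ν : ℝ) :
    ¬ NullVec (Gam ε) (met ε) φ N (fun X => X * q') (-(N x * q)) κ μ ν x := by
  intro hnull
  have D := hyp.data
  have hp : φ x ∈ Om ε m := hyp.maps x hx
  have hdet := Om_det hp
  set p := φ x with hpdef
  set n := N x with hndef
  set ξ : Matrix (Fin m) (Fin 2) ℂ := -(n * q) with hξ
  have hunit : Hc ε p n n = 1 := hyp.unit x hx
  have hn0 : n ≠ 0 := by
    intro h0
    rw [h0] at hunit
    simp at hunit
  have hξq : ξ * q = n := by
    rw [hξ, Matrix.neg_mul, Matrix.mul_assoc, hq]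
    simp
  have hξ0 : ξ ≠ 0 := by
    intro h0
    rw [h0, Matrix.zero_mul] at hξq
    exact hn0 hξq.symm
  -- ξ is tangent
  have hξn : Hc ε p ξ n = 0 := by
    have h1 : Hc ε p ξ n = (trace (q * Dz ε p * nᴴ * Ez ε p * n)).re := by
      simp only [Hc, TH_apply]
      have : Dz ε p * ξᴴ * Ez ε p * n = q * Dz ε p * nᴴ * Ez ε p * n := by
        have h2 : Dz ε p * qᴴ = -(q * Dz ε p) := by
          rw [eq_neg_iff_add_eq_zero, add_comm]; exact hskew
        rw [hξ, conjTranspose_neg, conjTranspose_mul, Matrix.mul_neg, ← Matrix.mul_assoc, h2]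
        simp only [Matrix.neg_mul, neg_neg]
      rw [this]
    have h2 : Hc ε p n ξ = -(trace (q * Dz ε p * nᴴ * Ez ε p * n)).re := by
      simp only [Hc, TH_apply]
      rw [hξ, Matrix.mul_neg, trace_neg, neg_re]
      have := Matrix.trace_mul_comm q (Dz ε p * nᴴ * Ez ε p * n)
      simp only [Matrix.mul_assoc] at this ⊢
      rw [this]
    have h3 := Hc_symm ε p ξ n
    linarith
  have hTinj : Function.Injective ((fderiv ℝ φ x : EuclideanSpace ℝ (Fin (4 * m - 1)) →L[ℝ]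
      Matrix (Fin m) (Fin 2) ℂ) : EuclideanSpace ℝ (Fin (4 * m - 1)) →ₗ[ℝ]
      Matrix (Fin m) (Fin 2) ℂ) := hyp.immersion x hx
  have htan : ∀ v : Matrix (Fin m) (Fin 2) ℂ, Hc ε p v n = 0 → ∃ u, fderiv ℝ φ x u = v := by
    intro v hv
    have hdim : Module.finrank ℝ (EuclideanSpace ℝ (Fin (4 * m - 1))) + 1 =
        Module.finrank ℝ (Matrix (Fin m) (Fin 2) ℂ) := by
      rw [finrank_mat, finrank_euclideanSpace, Fintype.card_fin]
      omega
    exact tangent_exists hdim _ hTinj (((Hc ε p).flip n : _ →L[ℝ] ℝ) : _ →ₗ[ℝ] ℝ)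
      (fun u => hyp.normal x hx u) n hunit v hv
  obtain ⟨z, hz⟩ := htan ξ hξn
  -- the vector a
  obtain ⟨a, ha0, ha⟩ := exists_kernel hm (nᴴ * Ez ε p)
  set α : ℂ := star a ⬝ᵥ (Ez ε p *ᵥ a) with hα
  have hαpos : 0 < α := (Ez_posDef hε hp).dotProduct_mulVec_pos ha0
  have hαre : 0 < α.re := (Complex.lt_def.1 hαpos).1
  have hαim : α.im = 0 := ((Complex.lt_def.1 hαpos).2).symm
  have hαr : α = (α.re : ℂ) := by
    apply Complex.ext <;> simp [hαim]
  have hε0 : ε ≠ 0 := by rcases hε with h | h <;> rw [h] <;> norm_num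
  -- the functional
  let L : (Fin 2 → ℂ) →ₗ[ℝ] ℝ :=
    { toFun := fun r => Hc ε p (vecMulVec a r) (shape (Gam ε) φ N x z)
      map_add' := fun r s => by
        have : vecMulVec a (r + s) = vecMulVec a r + vecMulVec a s := by
          ext i j; simp [vecMulVec_apply, mul_add]
        rw [this, map_add, _root_.add_apply]
      map_smul' := fun c r => by
        have : vecMulVec a (c • r) = c • vecMulVec a r := by
          ext i j; simp [vecMulVec_apply]; ring
        rw [this, map_smul, _root_.smul_apply, RingHom.id_apply] }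
  have hDinv : IsUnit (Dz ε p).det := isUnit_iff_ne_zero.2 (Dz_posDef hp).det_pos.ne'
  have hM0 : ξ * Dz ε p ≠ 0 := by
    intro h0
    apply hξ0
    have : ξ * Dz ε p * (Dz ε p)⁻¹ = ξ := by
      rw [Matrix.mul_assoc, Matrix.mul_nonsing_inv _ hDinv, Matrix.mul_one]
    rw [← this, h0, Matrix.zero_mul]
  refine core (ξ * Dz ε p) n hM0 hn0 L ?_
  intro r s hr hs
  have hr' : Hc ε p (vecMulVec a r) (shape (Gam ε) φ N x z) = 0 := hr
  have hs' : Hc ε p (vecMulVec a s) (shape (Gam ε) φ N x z) = 0 := hs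
  have kX : ∀ r : Fin 2 → ℂ, (vecMulVec a r)ᴴ * Ez ε p * n = 0 := by
    intro r
    have h1 := vecMulVec_mul_kernel (nᴴ * Ez ε p) a r ha
    have h2 := congrArg conjTranspose h1
    rw [conjTranspose_mul, conjTranspose_mul, conjTranspose_conjTranspose, Ez_herm,
      ← Matrix.mul_assoc, conjTranspose_zero] at h2
    exact h2
  have kξg : ∀ (q : Matrix (Fin 2) (Fin 2) ℂ) (r : Fin 2 → ℂ),
      (vecMulVec a r)ᴴ * Ez ε p * (-(n * q)) = 0 := by
    intro q r
    rw [Matrix.mul_neg, ← Matrix.mul_assoc, kX, Matrix.zero_mul, neg_zero]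
  have kξ : ∀ r : Fin 2 → ℂ, (vecMulVec a r)ᴴ * Ez ε p * ξ = 0 := kξg q
  have hXn : ∀ r : Fin 2 → ℂ, Hc ε p (vecMulVec a r) n = 0 := by
    intro r
    simp only [Hc, TH_apply]
    rw [Matrix.mul_assoc, Matrix.mul_assoc, ← Matrix.mul_assoc _ (Ez ε p) n, kX, Matrix.mul_zero]
    simp
  have hXξ : ∀ r : Fin 2 → ℂ, Hc ε p (vecMulVec a r) (-(n * q')) = 0 := by
    intro r
    simp only [Hc, TH_apply]
    rw [Matrix.mul_assoc, Matrix.mul_assoc, ← Matrix.mul_assoc _ (Ez ε p) (-(n * q')), kξg,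
      Matrix.mul_zero]
    simp
  obtain ⟨u, hu⟩ := htan _ (hXn r)
  obtain ⟨v, hv⟩ := htan _ (hXn s)
  have h1 := hnull u v z hz
  simp only [nullTerm, etaForm] at h1
  rw [met_eq, met_eq, hu, hv, hXξ, hXξ] at h1
  simp only [zero_smul, sub_zero, smul_zero, add_zero] at h1
  have h2 := D.gauss hx u v z
  rw [D.shape_symm hx v z, D.shape_symm hx u z, hu, hv, hz, met_eq, met_eq, hr', hs'] at h2
  simp only [zero_smul, sub_zero, add_zero] at h2
  rw [h1] at h2
  -- tang = 0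
  set R := rbar (Gc ε) p (vecMulVec a r) (vecMulVec a s) ξ with hR
  have h3 : R = Hc ε p R n • n := by
    have : (0 : Matrix (Fin m) (Fin 2) ℂ) = R - Hc ε p R n • n := h2
    exact (sub_eq_zero.1 this.symm)
  have h4 : R = ((ε : ℂ) * α) • (ξ * Dz ε p * (vecMulVec (star s) r - vecMulVec (star r) s)) := by
    rw [hR, rbar_eq ε p hdet]
    have e1 : vecMulVec a r * Dz ε p * (vecMulVec a s)ᴴ * Ez ε p * ξ = 0 := by
      have := kξ s
      rw [Matrix.mul_assoc, Matrix.mul_assoc, ← Matrix.mul_assoc _ (Ez ε p) ξ, this,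
        Matrix.mul_zero]
    have e2 : vecMulVec a s * Dz ε p * (vecMulVec a r)ᴴ * Ez ε p * ξ = 0 := by
      have := kξ r
      rw [Matrix.mul_assoc, Matrix.mul_assoc, ← Matrix.mul_assoc _ (Ez ε p) ξ, this,
        Matrix.mul_zero]
    have e3 : ξ * Dz ε p * (vecMulVec a s)ᴴ * Ez ε p * vecMulVec a r =
        α • (ξ * Dz ε p * vecMulVec (star s) r) := by
      rw [Matrix.mul_assoc, Matrix.mul_assoc, ← Matrix.mul_assoc _ (Ez ε p) _, rank_one_pair,
        Matrix.mul_smul]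
    have e4 : ξ * Dz ε p * (vecMulVec a r)ᴴ * Ez ε p * vecMulVec a s =
        α • (ξ * Dz ε p * vecMulVec (star r) s) := by
      rw [Matrix.mul_assoc, Matrix.mul_assoc, ← Matrix.mul_assoc _ (Ez ε p) _, rank_one_pair,
        Matrix.mul_smul]
    rw [e1, e2, e3, e4, zero_add, zero_add, Matrix.mul_sub, smul_sub, mul_smul, mul_smul]
  refine ⟨-(Hc ε p R n) / (ε * α.re), fun i k => ?_⟩
  have h5 : ((ε : ℂ) * α) * (((ξ * Dz ε p) *ᵥ star s) i * r k - ((ξ * Dz ε p) *ᵥ star r) i * s k) =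
      (Hc ε p R n : ℂ) * n i k := by
    have e1 := congrFun (congrFun h3 i) k
    have e2 := congrFun (congrFun h4 i) k
    have e3 : ∀ r s : Fin 2 → ℂ, (ξ * Dz ε p * vecMulVec (star s) r) i k =
        ((ξ * Dz ε p) *ᵥ star s) i * r k := by
      intro r s
      rw [Matrix.mul_apply]
      simp only [vecMulVec_apply, Matrix.mulVec, dotProduct, Finset.sum_mul, mul_assoc]
    rw [Matrix.smul_apply, Matrix.mul_sub, Matrix.sub_apply, e3, e3, smul_eq_mul] at e2
    rw [← e2, e1, Matrix.smul_apply, Complex.real_smul]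
  rw [hαr] at h5
  have hne : (ε : ℂ) * (α.re : ℂ) ≠ 0 := by
    apply mul_ne_zero
    · exact_mod_cast hε0
    · exact_mod_cast hαre.ne'
  push_cast
  rw [div_mul_eq_mul_div, eq_div_iff hne]
  linear_combination -h5

end Pool.Agent.R731.HS
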