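import Pool.Agent.R731.HS.Gauss

/-!
# The complex two-plane Grassmannians in affine coordinates
-/

set_option autoImplicit false

namespace Pool.Agent.R731.HS

open Matrix Complex
open scoped ContDiff Topology ComplexOrder Matrix.Norms.Elementwise

attribute [-instance] instTopologicalSpaceMatrix
attribute [-instance] Matrix.instUniformSpace

section HD

variable {V F : Type*} [NormedAddCommGroup V] [NormedSpace ℝ V]
  [NormedAddCommGroup F] [NormedSpace ℝ F]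

/-- `f` is differentiable at `p` with derivative given by the function `f'`. -/
def HD (f : V → F) (p : V) (f' : V → F) : Prop :=
  ∃ L : V →L[ℝ] F, HasFDerivAt f L p ∧ ∀ u, L u = f' u

lemma HD.differentiableAt {f : V → F} {p : V} {f' : V → F} (h : HD f p f') :
    DifferentiableAt ℝ f p := by
  obtain ⟨L, hL, _⟩ := h
  exact hL.differentiableAt

lemma HD.fderiv {f : V → F} {p : V} {f' : V → F} (h : HD f p f') (u : V) :
    fderiv ℝ f p u = f' u := by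
  obtain ⟨L, hL, h'⟩ := h
  rw [hL.fderiv, h']

lemma HD.of_differentiableAt {f : V → F} {p : V} (h : DifferentiableAt ℝ f p) :
    HD f p (fun u => _root_.fderiv ℝ f p u) := ⟨_, h.hasFDerivAt, fun _ => rfl⟩

lemma HD.congr {f : V → F} {p : V} {f' g' : V → F} (h : HD f p f') (h' : ∀ u, f' u = g' u) :
    HD f p g' := by
  obtain ⟨L, hL, h1⟩ := h
  exact ⟨L, hL, fun u => (h1 u).trans (h' u)⟩

lemma HD.congr_of_eventuallyEq {f g : V → F} {p : V} {f' : V → F} (h : HD f p f')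
    (h' : g =ᶠ[𝓝 p] f) : HD g p f' := by
  obtain ⟨L, hL, h1⟩ := h
  exact ⟨L, hL.congr_of_eventuallyEq h', h1⟩

lemma HD.const (c : F) (p : V) : HD (fun _ : V => c) p (fun _ => 0) :=
  ⟨0, hasFDerivAt_const c p, fun _ => rfl⟩

lemma HD.id (p : V) : HD (fun x : V => x) p (fun u => u) :=
  ⟨ContinuousLinearMap.id ℝ V, hasFDerivAt_id p, fun _ => rfl⟩

lemma HD.add {f g : V → F} {p : V} {f' g' : V → F} (hf : HD f p f') (hg : HD g p g') :
    HD (fun x => f x + g x) p (fun u => f' u + g' u) := by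
  obtain ⟨L, hL, h1⟩ := hf
  obtain ⟨M, hM, h2⟩ := hg
  exact ⟨L + M, hL.add hM, fun u => by rw [_root_.add_apply, h1, h2]⟩

lemma HD.sub {f g : V → F} {p : V} {f' g' : V → F} (hf : HD f p f') (hg : HD g p g') :
    HD (fun x => f x - g x) p (fun u => f' u - g' u) := by
  obtain ⟨L, hL, h1⟩ := hf
  obtain ⟨M, hM, h2⟩ := hg
  exact ⟨L - M, hL.sub hM, fun u => by rw [_root_.sub_apply, h1, h2]⟩

lemma HD.neg {f : V → F} {p : V} {f' : V → F} (hf : HD f p f') :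
    HD (fun x => - f x) p (fun u => - f' u) := by
  obtain ⟨L, hL, h1⟩ := hf
  exact ⟨-L, hL.neg, fun u => by rw [_root_.neg_apply, h1]⟩

lemma HD.linear [FiniteDimensional ℝ F] {F' : Type*} [NormedAddCommGroup F'] [NormedSpace ℝ F']
    (T : F →ₗ[ℝ] F') {f : V → F}
    {p : V} {f' : V → F} (hf : HD f p f') : HD (fun x => T (f x)) p (fun u => T (f' u)) := by
  obtain ⟨L, hL, h1⟩ := hf
  refine ⟨(LinearMap.toContinuousLinearMap T).comp L,
    (LinearMap.toContinuousLinearMap T).hasFDerivAt.comp p hL, fun u => ?_⟩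
  simp [h1]

lemma HD.bilinear {E₁ E₂ F' : Type*} [NormedAddCommGroup E₁] [NormedSpace ℝ E₁]
    [NormedAddCommGroup E₂] [NormedSpace ℝ E₂] [FiniteDimensional ℝ E₁] [FiniteDimensional ℝ E₂]
    [NormedAddCommGroup F'] [NormedSpace ℝ F'] (B : E₁ →ₗ[ℝ] E₂ →ₗ[ℝ] F')
    {f : V → E₁} {g : V → E₂} {p : V} {f' : V → E₁} {g' : V → E₂}
    (hf : HD f p f') (hg : HD g p g') :
    HD (fun x => B (f x) (g x)) p (fun u => B (f' u) (g p) + B (f p) (g' u)) := by
  obtain ⟨L, hL, h1⟩ := hf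
  obtain ⟨M, hM, h2⟩ := hg
  have := (B.toContinuousBilinearMap).hasFDerivAt_of_bilinear hL hM
  refine ⟨_, this, fun u => ?_⟩
  simp [h1, h2, add_comm]

variable {a b c : Type*} [Fintype a] [Fintype b] [Fintype c]

lemma HD.mmul {f : V → Matrix a b ℂ} {g : V → Matrix b c ℂ} {p : V} {f' : V → Matrix a b ℂ}
    {g' : V → Matrix b c ℂ} (hf : HD f p f') (hg : HD g p g') :
    HD (fun x => f x * g x) p (fun u => f' u * g p + f p * g' u) := by
  let B : Matrix a b ℂ →ₗ[ℝ] Matrix b c ℂ →ₗ[ℝ] Matrix a c ℂ :=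
    LinearMap.mk₂ ℝ (fun A B => A * B) (fun _ _ _ => Matrix.add_mul _ _ _)
      (fun _ _ _ => Matrix.smul_mul _ _ _) (fun _ _ _ => Matrix.mul_add _ _ _)
      (fun _ _ _ => Matrix.mul_smul _ _ _)
  exact HD.bilinear B hf hg

lemma HD.conjT {f : V → Matrix a b ℂ} {p : V} {f' : V → Matrix a b ℂ} (hf : HD f p f') :
    HD (fun x => (f x)ᴴ) p (fun u => (f' u)ᴴ) := by
  let T : Matrix a b ℂ →ₗ[ℝ] Matrix b a ℂ :=
    { toFun := fun A => Aᴴ
      map_add' := fun _ _ => conjTranspose_add _ _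
      map_smul' := fun r A => by
        ext i j
        simp [conjTranspose_apply] }
  exact HD.linear T hf

lemma HD.csmul {f : V → Matrix a b ℂ} {p : V} {f' : V → Matrix a b ℂ} (z : ℂ) (hf : HD f p f') :
    HD (fun x => z • f x) p (fun u => z • f' u) := by
  let T : Matrix a b ℂ →ₗ[ℝ] Matrix a b ℂ :=
    { toFun := fun A => z • A
      map_add' := fun _ _ => smul_add _ _ _
      map_smul' := fun r A => by
        simp only [RingHom.id_apply]
        rw [smul_comm] }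
  exact HD.linear T hf

end HD

variable {m : ℕ}

/-- `1 + ε Z* Z` -/
noncomputable def Mz (ε : ℝ) (Z : Matrix (Fin m) (Fin 2) ℂ) : Matrix (Fin 2) (Fin 2) ℂ :=
  1 + (ε : ℂ) • (Zᴴ * Z)

/-- `(1 + ε Z* Z)⁻¹` -/
noncomputable def Dz (ε : ℝ) (Z : Matrix (Fin m) (Fin 2) ℂ) : Matrix (Fin 2) (Fin 2) ℂ :=
  (1 + (ε : ℂ) • (Zᴴ * Z))⁻¹

/-- `(1 + ε Z Z*)⁻¹` -/
noncomputable def Ez (ε : ℝ) (Z : Matrix (Fin m) (Fin 2) ℂ) : Matrix (Fin m) (Fin m) ℂ :=
  (1 + (ε : ℂ) • (Z * Zᴴ))⁻¹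

/-- the metric `Re tr (D X* E Y)` -/
noncomputable def met (ε : ℝ) (Z X Y : Matrix (Fin m) (Fin 2) ℂ) : ℝ :=
  (trace (Dz ε Z * Xᴴ * Ez ε Z * Y)).re

/-- the Christoffel map -/
noncomputable def Gam (ε : ℝ) (Z X Y : Matrix (Fin m) (Fin 2) ℂ) : Matrix (Fin m) (Fin 2) ℂ :=
  -((ε : ℂ) • (X * (Dz ε Z * Zᴴ) * Y + Y * (Dz ε Z * Zᴴ) * X))

lemma Mz_herm (ε : ℝ) (Z : Matrix (Fin m) (Fin 2) ℂ) : (Mz ε Z)ᴴ = Mz ε Z := by
  simp [Mz, conjTranspose_add, conjTranspose_smul, conjTranspose_mul]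

lemma Dz_herm (ε : ℝ) (Z : Matrix (Fin m) (Fin 2) ℂ) : (Dz ε Z)ᴴ = Dz ε Z := by
  have : (Mz ε Z).IsHermitian := Mz_herm ε Z
  exact this.inv

lemma Ez_herm (ε : ℝ) (Z : Matrix (Fin m) (Fin 2) ℂ) : (Ez ε Z)ᴴ = Ez ε Z := by
  have : (1 + (ε : ℂ) • (Z * Zᴴ)).IsHermitian := by
    simp [Matrix.IsHermitian, conjTranspose_add, conjTranspose_smul, conjTranspose_mul]
  exact this.inv

lemma HD_Mz (ε : ℝ) (p : Matrix (Fin m) (Fin 2) ℂ) :
    HD (Mz ε) p (fun X => (ε : ℂ) • (Xᴴ * p + pᴴ * X)) := by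
  have h1 : HD (fun Z : Matrix (Fin m) (Fin 2) ℂ => Zᴴ * Z) p (fun X => Xᴴ * p + pᴴ * X) :=
    HD.mmul (HD.conjT (HD.id p)) (HD.id p)
  have h2 := (HD.const (1 : Matrix (Fin 2) (Fin 2) ℂ) p).add (h1.csmul (ε : ℂ))
  exact h2.congr (fun u => by simp)

lemma Dz_differentiableAt (ε : ℝ) (p : Matrix (Fin m) (Fin 2) ℂ) (hp : (Mz ε p).det ≠ 0) :
    DifferentiableAt ℝ (Dz ε) p := by
  have h1 : DifferentiableAt ℝ (Mz ε) p := (HD_Mz ε p).differentiableAt
  have hent : ∀ i j, DifferentiableAt ℝ (fun Z : Matrix (Fin m) (Fin 2) ℂ => Mz ε Z i j) p := by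
    intro i j
    have h2 := (differentiableAt_pi.1 h1) i
    exact (differentiableAt_pi.1 h2) j
  have hdet : DifferentiableAt ℝ (fun Z : Matrix (Fin m) (Fin 2) ℂ => (Mz ε Z).det) p := by
    simp only [Matrix.det_fin_two]
    exact ((hent 0 0).mul (hent 1 1)).sub ((hent 0 1).mul (hent 1 0))
  have hinv := hdet.inv hp
  have hform : Dz ε = fun Z : Matrix (Fin m) (Fin 2) ℂ =>
      ((Mz ε Z).det)⁻¹ • !![Mz ε Z 1 1, -Mz ε Z 0 1; -Mz ε Z 1 0, Mz ε Z 0 0] := by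
    funext Z
    show (Mz ε Z)⁻¹ = _
    rw [Matrix.inv_def, Matrix.adjugate_fin_two, Ring.inverse_eq_inv']
  rw [hform]
  apply differentiableAt_pi.2
  intro i
  apply differentiableAt_pi.2
  intro j
  fin_cases i <;> fin_cases j <;> simp <;>
    first
    | exact hinv.mul (hent 1 1)
    | exact (hinv.mul (hent 0 1))
    | exact (hinv.mul (hent 1 0))
    | exact hinv.mul (hent 0 0)

end Pool.Agent.R731.HS
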