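import Pool.Agent.R731.HS.Model

/-!
# Levi-Civita connection and curvature of the two-plane Grassmannians in affine coordinates
-/

set_option autoImplicit false

namespace Pool.Agent.R731.HS

open Matrix Complex
open scoped ContDiff Topology ComplexOrder Matrix.Norms.Elementwise

attribute [-instance] instTopologicalSpaceMatrix
attribute [-instance] Matrix.instUniformSpace

variable {m : ℕ}

lemma Mz_mul_Dz (ε : ℝ) (p : Matrix (Fin m) (Fin 2) ℂ) (hp : (Mz ε p).det ≠ 0) :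
    Mz ε p * Dz ε p = 1 := Matrix.mul_nonsing_inv _ (isUnit_iff_ne_zero.2 hp)

lemma Dz_mul_Mz (ε : ℝ) (p : Matrix (Fin m) (Fin 2) ℂ) (hp : (Mz ε p).det ≠ 0) :
    Dz ε p * Mz ε p = 1 := Matrix.nonsing_inv_mul _ (isUnit_iff_ne_zero.2 hp)

/-- `D Z*` -/
noncomputable def Kz (ε : ℝ) (Z : Matrix (Fin m) (Fin 2) ℂ) : Matrix (Fin 2) (Fin m) ℂ :=
  Dz ε Z * Zᴴ

lemma Kz_conj (ε : ℝ) (Z : Matrix (Fin m) (Fin 2) ℂ) : (Kz ε Z)ᴴ = Z * Dz ε Z := by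
  rw [Kz, conjTranspose_mul, conjTranspose_conjTranspose, Dz_herm]

lemma Ez_eq (ε : ℝ) (p : Matrix (Fin m) (Fin 2) ℂ) (hp : (Mz ε p).det ≠ 0) :
    Ez ε p = 1 - (ε : ℂ) • (p * Kz ε p) := by
  apply Matrix.inv_eq_right_inv
  have h1 : p * pᴴ * (p * Kz ε p) = p * (pᴴ * p) * Dz ε p * pᴴ := by
    simp only [Kz, Matrix.mul_assoc]
  have h2 : p * pᴴ = p * (Mz ε p * Dz ε p) * pᴴ := by rw [Mz_mul_Dz ε p hp, Matrix.mul_one]
  have h3 : p * (Mz ε p * Dz ε p) * pᴴ = p * Kz ε p + (ε : ℂ) • (p * pᴴ * (p * Kz ε p)) := by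
    rw [h1]
    simp only [Mz, Kz, Matrix.mul_add, Matrix.add_mul, Matrix.mul_one, Matrix.one_mul,
      Matrix.smul_mul, Matrix.mul_smul, Matrix.mul_assoc]
  have h4 : (ε : ℂ) • (p * pᴴ) = (ε : ℂ) • (p * Kz ε p) +
      (ε : ℂ) • ((ε : ℂ) • (p * pᴴ * (p * Kz ε p))) := by
    rw [← smul_add, ← h3, ← h2]
  have h5 : (1 + (ε : ℂ) • (p * pᴴ)) * (1 - (ε : ℂ) • (p * Kz ε p)) =
      1 - (ε : ℂ) • (p * Kz ε p) + ((ε : ℂ) • (p * pᴴ) -
        (ε : ℂ) • ((ε : ℂ) • (p * pᴴ * (p * Kz ε p)))) := by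
    simp only [Matrix.add_mul, Matrix.mul_sub, Matrix.one_mul, Matrix.mul_one, Matrix.smul_mul,
      Matrix.mul_smul, smul_add]
    abel
  rw [h5, h4]
  abel

lemma Ez_mul (ε : ℝ) (p : Matrix (Fin m) (Fin 2) ℂ) (hp : (Mz ε p).det ≠ 0) :
    Ez ε p * p = p * Dz ε p := by
  rw [Ez_eq ε p hp]
  have h2 : p = p * (Dz ε p * Mz ε p) := by rw [Dz_mul_Mz ε p hp, Matrix.mul_one]
  have h3 : p * (Dz ε p * Mz ε p) = p * Dz ε p + (ε : ℂ) • (p * Kz ε p * p) := by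
    simp only [Mz, Kz, Matrix.mul_add, Matrix.mul_one, Matrix.mul_smul, Matrix.mul_assoc]
  rw [Matrix.sub_mul, Matrix.one_mul, Matrix.smul_mul]
  rw [sub_eq_iff_eq_add, ← h3, ← h2]

lemma mul_Ez (ε : ℝ) (p : Matrix (Fin m) (Fin 2) ℂ) (hp : (Mz ε p).det ≠ 0) :
    pᴴ * Ez ε p = Kz ε p := by
  have := congrArg conjTranspose (Ez_mul ε p hp)
  rw [conjTranspose_mul, conjTranspose_mul, Ez_herm, Dz_herm] at this
  exact this

lemma Mz_det_eventually (ε : ℝ) (p : Matrix (Fin m) (Fin 2) ℂ) (hp : (Mz ε p).det ≠ 0) :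
    ∀ᶠ Z in 𝓝 p, (Mz ε Z).det ≠ 0 := by
  have h1 : ContinuousAt (fun Z : Matrix (Fin m) (Fin 2) ℂ => (Mz ε Z).det) p := by
    have h1 : ContinuousAt (Mz ε) p := (HD_Mz ε p).differentiableAt.continuousAt
    have hent : ∀ i j, ContinuousAt (fun Z : Matrix (Fin m) (Fin 2) ℂ => Mz ε Z i j) p := by
      intro i j
      have h2 := (continuousAt_pi.1 h1) i
      exact (continuousAt_pi.1 h2) j
    simp only [Matrix.det_fin_two]
    exact ((hent 0 0).mul (hent 1 1)).sub ((hent 0 1).mul (hent 1 0))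
  exact h1.eventually_ne hp

lemma HD_Dz (ε : ℝ) (p : Matrix (Fin m) (Fin 2) ℂ) (hp : (Mz ε p).det ≠ 0) :
    HD (Dz ε) p (fun X => -((ε : ℂ) • (Dz ε p * Xᴴ * (Kz ε p)ᴴ + Kz ε p * X * Dz ε p))) := by
  obtain hd := HD.of_differentiableAt (Dz_differentiableAt ε p hp)
  refine hd.congr ?_
  intro X
  have h1 := (hd.mmul (HD_Mz ε p)).fderiv X
  have h2 : (fun Z => Dz ε Z * Mz ε Z) =ᶠ[𝓝 p] fun _ => (1 : Matrix (Fin 2) (Fin 2) ℂ) := by
    filter_upwards [Mz_det_eventually ε p hp] with Z hZ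
    exact Dz_mul_Mz ε Z hZ
  have h2' : fderiv ℝ (fun Z => Dz ε Z * Mz ε Z) p = 0 := by
    rw [h2.fderiv_eq]
    exact fderiv_const_apply _
  rw [h2', _root_.zero_apply] at h1
  have h3 : fderiv ℝ (Dz ε) p X * Mz ε p = -(Dz ε p * ((ε : ℂ) • (Xᴴ * p + pᴴ * X))) := by
    exact eq_neg_of_add_eq_zero_left h1.symm
  have h4 : fderiv ℝ (Dz ε) p X = -(Dz ε p * ((ε : ℂ) • (Xᴴ * p + pᴴ * X))) * Dz ε p := by
    rw [← h3, Matrix.mul_assoc, Mz_mul_Dz ε p hp, Matrix.mul_one]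
  rw [h4, Kz_conj, Kz]
  simp only [Matrix.mul_smul, Matrix.smul_mul, Matrix.neg_mul, Matrix.mul_add, Matrix.add_mul,
    Matrix.mul_assoc]

lemma HD_Kz (ε : ℝ) (p : Matrix (Fin m) (Fin 2) ℂ) (hp : (Mz ε p).det ≠ 0) :
    HD (Kz ε) p (fun X => Dz ε p * Xᴴ * Ez ε p - (ε : ℂ) • (Kz ε p * X * Kz ε p)) := by
  have h1 := (HD_Dz ε p hp).mmul (HD.conjT (HD.id p))
  refine h1.congr ?_
  intro X
  rw [Ez_eq ε p hp, Kz_conj, Kz]
  simp only [Matrix.mul_smul, Matrix.smul_mul, Matrix.neg_mul, Matrix.mul_add, Matrix.add_mul,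
    Matrix.mul_assoc, Matrix.mul_sub, Matrix.mul_one]
  module

lemma HD_Ez (ε : ℝ) (p : Matrix (Fin m) (Fin 2) ℂ) (hp : (Mz ε p).det ≠ 0) :
    HD (Ez ε) p (fun X => -((ε : ℂ) • (Ez ε p * X * Kz ε p + (Kz ε p)ᴴ * Xᴴ * Ez ε p))) := by
  have h0 : Ez ε =ᶠ[𝓝 p] fun Z => 1 - (ε : ℂ) • (Z * Kz ε Z) := by
    filter_upwards [Mz_det_eventually ε p hp] with Z hZ
    exact Ez_eq ε Z hZ
  have h1 := (HD.const (1 : Matrix (Fin m) (Fin m) ℂ) p).sub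
    (((HD.id p).mmul (HD_Kz ε p hp)).csmul (ε : ℂ))
  refine (h1.congr_of_eventuallyEq h0).congr ?_
  intro X
  have e1 : Ez ε p * X * Kz ε p = X * Kz ε p - (ε : ℂ) • (p * Kz ε p * X * Kz ε p) := by
    rw [Ez_eq ε p hp]
    simp only [Matrix.sub_mul, Matrix.one_mul, Matrix.smul_mul]
  rw [e1, Kz_conj]
  simp only [Matrix.mul_smul, Matrix.smul_mul, Matrix.neg_mul, Matrix.mul_add, Matrix.add_mul,
    Matrix.mul_assoc, Matrix.mul_sub, Matrix.mul_one]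
  module

/-- trilinear map behind the Christoffel symbols -/
noncomputable def TG (ε : ℝ) : Matrix (Fin 2) (Fin m) ℂ →ₗ[ℝ]
    (Matrix (Fin m) (Fin 2) ℂ →L[ℝ] Matrix (Fin m) (Fin 2) ℂ →L[ℝ] Matrix (Fin m) (Fin 2) ℂ) where
  toFun K := (LinearMap.mk₂ ℝ (fun X Y : Matrix (Fin m) (Fin 2) ℂ =>
      -((ε : ℂ) • (X * K * Y + Y * K * X)))
    (fun X X' Y => by
      simp only [Matrix.add_mul, Matrix.mul_add]; module)
    (fun c X Y => by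
      simp only [Matrix.smul_mul, Matrix.mul_smul]; rw [← smul_add, smul_comm, smul_neg])
    (fun X Y Y' => by
      simp only [Matrix.add_mul, Matrix.mul_add]; module)
    (fun c X Y => by
      simp only [Matrix.smul_mul, Matrix.mul_smul]; rw [← smul_add, smul_comm, smul_neg])).toContinuousBilinearMap
  map_add' K K' := by
    ext1 X; ext1 Y
    simp only [_root_.add_apply, LinearMap.toContinuousBilinearMap_apply, LinearMap.mk₂_apply,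
      Matrix.add_mul, Matrix.mul_add]
    module
  map_smul' c K := by
    ext1 X; ext1 Y
    simp only [_root_.smul_apply, LinearMap.toContinuousBilinearMap_apply, LinearMap.mk₂_apply,
      Matrix.smul_mul, Matrix.mul_smul, RingHom.id_apply]
    rw [← smul_add, smul_comm, smul_neg]

lemma TG_apply (ε : ℝ) (K : Matrix (Fin 2) (Fin m) ℂ) (X Y : Matrix (Fin m) (Fin 2) ℂ) :
    TG ε K X Y = -((ε : ℂ) • (X * K * Y + Y * K * X)) := rfl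

/-- Christoffel map as continuous bilinear map -/
noncomputable def Gc (ε : ℝ) (Z : Matrix (Fin m) (Fin 2) ℂ) :
    Matrix (Fin m) (Fin 2) ℂ →L[ℝ] Matrix (Fin m) (Fin 2) ℂ →L[ℝ] Matrix (Fin m) (Fin 2) ℂ :=
  TG ε (Kz ε Z)

/-- quadrilinear map behind the metric -/
noncomputable def TH : Matrix (Fin 2) (Fin 2) ℂ →ₗ[ℝ] Matrix (Fin m) (Fin m) ℂ →ₗ[ℝ]
    (Matrix (Fin m) (Fin 2) ℂ →L[ℝ] Matrix (Fin m) (Fin 2) ℂ →L[ℝ] ℝ) :=
  LinearMap.mk₂ ℝ (fun D E => (LinearMap.mk₂ ℝ (fun X Y : Matrix (Fin m) (Fin 2) ℂ =>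
      (trace (D * Xᴴ * E * Y)).re)
    (fun X X' Y => by
      simp only [conjTranspose_add, Matrix.add_mul, Matrix.mul_add, trace_add, add_re])
    (fun c X Y => by
      simp [conjTranspose_smul, Matrix.smul_mul, Matrix.mul_smul, trace_smul])
    (fun X Y Y' => by
      simp only [Matrix.mul_add, trace_add, add_re])
    (fun c X Y => by
      simp [Matrix.mul_smul, trace_smul])).toContinuousBilinearMap)
    (fun D D' E => by
      ext1 X; ext1 Y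
      simp only [_root_.add_apply, LinearMap.toContinuousBilinearMap_apply, LinearMap.mk₂_apply,
        Matrix.add_mul, trace_add, add_re])
    (fun c D E => by
      ext1 X; ext1 Y
      simp [LinearMap.toContinuousBilinearMap_apply, LinearMap.mk₂_apply,
        Matrix.smul_mul, trace_smul])
    (fun D E E' => by
      ext1 X; ext1 Y
      simp only [_root_.add_apply, LinearMap.toContinuousBilinearMap_apply, LinearMap.mk₂_apply,
        Matrix.add_mul, Matrix.mul_add, trace_add, add_re])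
    (fun c D E => by
      ext1 X; ext1 Y
      simp [LinearMap.toContinuousBilinearMap_apply, LinearMap.mk₂_apply,
        Matrix.smul_mul, Matrix.mul_smul, trace_smul])

lemma TH_apply (D : Matrix (Fin 2) (Fin 2) ℂ) (E : Matrix (Fin m) (Fin m) ℂ)
    (X Y : Matrix (Fin m) (Fin 2) ℂ) : TH D E X Y = (trace (D * Xᴴ * E * Y)).re := rfl

/-- metric as continuous bilinear map -/
noncomputable def Hc (ε : ℝ) (Z : Matrix (Fin m) (Fin 2) ℂ) :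
    Matrix (Fin m) (Fin 2) ℂ →L[ℝ] Matrix (Fin m) (Fin 2) ℂ →L[ℝ] ℝ :=
  TH (Dz ε Z) (Ez ε Z)

lemma Gam_eq (ε : ℝ) (Z X Y : Matrix (Fin m) (Fin 2) ℂ) : Gam ε Z X Y = Gc ε Z X Y := rfl

lemma met_eq (ε : ℝ) (Z X Y : Matrix (Fin m) (Fin 2) ℂ) : met ε Z X Y = Hc ε Z X Y := rfl

lemma HD_Gc (ε : ℝ) (p : Matrix (Fin m) (Fin 2) ℂ) (hp : (Mz ε p).det ≠ 0) :
    HD (Gc ε) p (fun X => TG ε (Dz ε p * Xᴴ * Ez ε p - (ε : ℂ) • (Kz ε p * X * Kz ε p))) :=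
  by
    have := @HD.linear (Matrix (Fin m) (Fin 2) ℂ) (Matrix (Fin 2) (Fin m) ℂ) _ _ _ _ _
      (Matrix (Fin m) (Fin 2) ℂ →L[ℝ] Matrix (Fin m) (Fin 2) ℂ →L[ℝ] Matrix (Fin m) (Fin 2) ℂ)
      _ _ (TG ε) _ _ _ (HD_Kz ε p hp)
    exact this

lemma HD_Hc (ε : ℝ) (p : Matrix (Fin m) (Fin 2) ℂ) (hp : (Mz ε p).det ≠ 0) :
    HD (Hc ε) p (fun X => TH (-((ε : ℂ) • (Dz ε p * Xᴴ * (Kz ε p)ᴴ + Kz ε p * X * Dz ε p))) (Ez ε p)
      + TH (Dz ε p) (-((ε : ℂ) • (Ez ε p * X * Kz ε p + (Kz ε p)ᴴ * Xᴴ * Ez ε p)))) :=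
  by
    have := @HD.bilinear (Matrix (Fin m) (Fin 2) ℂ) _ _ (Matrix (Fin 2) (Fin 2) ℂ)
      (Matrix (Fin m) (Fin m) ℂ)
      (Matrix (Fin m) (Fin 2) ℂ →L[ℝ] Matrix (Fin m) (Fin 2) ℂ →L[ℝ] ℝ) _ _ _ _ _ _
      _ _ TH _ _ _ _ _ (HD_Dz ε p hp) (HD_Ez ε p hp)
    exact this

lemma Gc_symm (ε : ℝ) (p X Y : Matrix (Fin m) (Fin 2) ℂ) : Gc ε p X Y = Gc ε p Y X := by
  simp only [Gc, TG_apply]
  rw [add_comm]

lemma Hc_symm (ε : ℝ) (p X Y : Matrix (Fin m) (Fin 2) ℂ) : Hc ε p X Y = Hc ε p Y X := by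
  simp only [Hc, TH_apply]
  have h1 : (trace (Dz ε p * Xᴴ * Ez ε p * Y)).re = (trace ((Dz ε p * Xᴴ * Ez ε p * Y)ᴴ)).re := by
    rw [trace_conjTranspose]
    simp
  rw [h1]
  simp only [conjTranspose_mul, conjTranspose_conjTranspose, Ez_herm, Dz_herm]
  rw [← Matrix.mul_assoc, ← Matrix.mul_assoc, Matrix.trace_mul_comm]
  simp only [Matrix.mul_assoc]

lemma Hc_LC (ε : ℝ) (p : Matrix (Fin m) (Fin 2) ℂ) (hp : (Mz ε p).det ≠ 0)
    (X Y Z : Matrix (Fin m) (Fin 2) ℂ) :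
    fderiv ℝ (Hc ε) p X Y Z = Hc ε p (Gc ε p X Y) Z + Hc ε p Y (Gc ε p X Z) := by
  rw [(HD_Hc ε p hp).fderiv]
  simp only [_root_.add_apply, TH_apply, Gc, Hc, TG_apply]
  have e2 : trace (Kz ε p * X * Dz ε p * Yᴴ * Ez ε p * Z) =
      trace (Dz ε p * Yᴴ * Ez ε p * Z * Kz ε p * X) := by
    have := Matrix.trace_mul_comm (Kz ε p * X) (Dz ε p * Yᴴ * Ez ε p * Z)
    simp only [Matrix.mul_assoc] at this ⊢
    exact this
  have e3 : Dz ε p * (-((ε : ℂ) • (X * Kz ε p * Y + Y * Kz ε p * X)))ᴴ * Ez ε p * Z =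
      -((ε : ℂ) • (Dz ε p * Yᴴ * (Kz ε p)ᴴ * Xᴴ * Ez ε p * Z +
        Dz ε p * Xᴴ * (Kz ε p)ᴴ * Yᴴ * Ez ε p * Z)) := by
    simp only [conjTranspose_neg, conjTranspose_smul, conjTranspose_add, conjTranspose_mul,
      Matrix.mul_smul, Matrix.smul_mul, Matrix.neg_mul, Matrix.mul_neg, Matrix.mul_add,
      Matrix.add_mul, Matrix.mul_assoc, Complex.star_def, Complex.conj_ofReal]
  have e4 : Dz ε p * Yᴴ * Ez ε p * (-((ε : ℂ) • (X * Kz ε p * Z + Z * Kz ε p * X))) =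
      -((ε : ℂ) • (Dz ε p * Yᴴ * Ez ε p * X * Kz ε p * Z +
        Dz ε p * Yᴴ * Ez ε p * Z * Kz ε p * X)) := by
    simp only [Matrix.mul_smul, Matrix.smul_mul, Matrix.neg_mul, Matrix.mul_neg, Matrix.mul_add,
      Matrix.add_mul, Matrix.mul_assoc]
  have e5 : -((ε : ℂ) • (Dz ε p * Xᴴ * (Kz ε p)ᴴ + Kz ε p * X * Dz ε p)) * Yᴴ * Ez ε p * Z =
      -((ε : ℂ) • (Dz ε p * Xᴴ * (Kz ε p)ᴴ * Yᴴ * Ez ε p * Z +
        Kz ε p * X * Dz ε p * Yᴴ * Ez ε p * Z)) := by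
    simp only [Matrix.mul_smul, Matrix.smul_mul, Matrix.neg_mul, Matrix.mul_neg, Matrix.mul_add,
      Matrix.add_mul, Matrix.mul_assoc]
  have e6 : Dz ε p * Yᴴ * -((ε : ℂ) • (Ez ε p * X * Kz ε p + (Kz ε p)ᴴ * Xᴴ * Ez ε p)) * Z =
      -((ε : ℂ) • (Dz ε p * Yᴴ * Ez ε p * X * Kz ε p * Z +
        Dz ε p * Yᴴ * (Kz ε p)ᴴ * Xᴴ * Ez ε p * Z)) := by
    simp only [Matrix.mul_smul, Matrix.smul_mul, Matrix.neg_mul, Matrix.mul_neg, Matrix.mul_add,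
      Matrix.add_mul, Matrix.mul_assoc]
  rw [e3, e4, e5, e6]
  simp only [trace_neg, trace_smul, trace_add, e2, smul_add, neg_re, add_re]
  ring

/-- the curvature tensor of the model -/
lemma rbar_eq (ε : ℝ) (p : Matrix (Fin m) (Fin 2) ℂ) (hp : (Mz ε p).det ≠ 0)
    (X Y W : Matrix (Fin m) (Fin 2) ℂ) :
    rbar (Gc ε) p X Y W =
      (ε : ℂ) • (X * Dz ε p * Yᴴ * Ez ε p * W + W * Dz ε p * Yᴴ * Ez ε p * X) -
      (ε : ℂ) • (Y * Dz ε p * Xᴴ * Ez ε p * W + W * Dz ε p * Xᴴ * Ez ε p * Y) := by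
  rw [rbar, (HD_Gc ε p hp).fderiv, (HD_Gc ε p hp).fderiv]
  simp only [Gc, TG_apply]
  simp only [Matrix.mul_smul, Matrix.smul_mul, Matrix.neg_mul, Matrix.mul_neg, Matrix.mul_add,
      Matrix.add_mul, Matrix.mul_assoc, Matrix.sub_mul, Matrix.mul_sub]
  module

end Pool.Agent.R731.HS
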