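import Pool.Agent.R731.HS.Model2

/-!
# Pointwise analysis
-/

set_option autoImplicit false

namespace Pool.Agent.R731.HS

open Matrix Complex

section factor

open scoped ComplexOrder MatrixOrder

lemma exists_factor {D : Matrix (Fin 2) (Fin 2) ℂ} (hD : D.PosSemidef) :
    ∃ C : Matrix (Fin 2) (Fin 2) ℂ, D = Cᴴ * C := by
  obtain ⟨B, hB⟩ := CStarAlgebra.nonneg_iff_eq_star_mul_self.mp hD.nonneg
  exact ⟨B, by rw [hB, star_eq_conjTranspose]⟩

end factor

open scoped ContDiff Topology ComplexOrder Matrix.Norms.Elementwise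

attribute [-instance] instTopologicalSpaceMatrix
attribute [-instance] Matrix.instUniformSpace

variable {m : ℕ}

/-- The domain of the model: everything for `ε = 1` (the big cell of the Grassmannian of
two-planes in `ℂ^{m+2}`), the bounded symmetric domain `1 - Z* Z > 0` for `ε = -1`. -/
def Om (ε : ℝ) (m : ℕ) : Set (Matrix (Fin m) (Fin 2) ℂ) := {Z | (Mz ε Z).PosDef}

lemma Om_det {ε : ℝ} {Z : Matrix (Fin m) (Fin 2) ℂ} (hZ : Z ∈ Om ε m) : (Mz ε Z).det ≠ 0 :=
  (Matrix.PosDef.det_pos hZ).ne'

lemma Dz_posDef {ε : ℝ} {Z : Matrix (Fin m) (Fin 2) ℂ} (hZ : Z ∈ Om ε m) : (Dz ε Z).PosDef :=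
  Matrix.PosDef.inv hZ

lemma Ez_posDef {ε : ℝ} (hε : ε = 1 ∨ ε = -1) {Z : Matrix (Fin m) (Fin 2) ℂ}
    (hZ : Z ∈ Om ε m) : (Ez ε Z).PosDef := by
  rcases hε with rfl | rfl
  · apply Matrix.PosDef.inv
    have : (1 + ((1 : ℝ) : ℂ) • (Z * Zᴴ)) = 1 + Z * Zᴴ := by simp
    rw [this]
    exact Matrix.PosDef.one.add_posSemidef (Matrix.posSemidef_self_mul_conjTranspose Z)
  · rw [Ez_eq _ _ (Om_det hZ)]
    have : (1 - ((-1 : ℝ) : ℂ) • (Z * Kz (-1) Z)) = 1 + Z * Dz (-1) Z * Zᴴ := by
      rw [Kz, ← Matrix.mul_assoc]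
      simp
    rw [this]
    exact Matrix.PosDef.one.add_posSemidef
      ((Dz_posDef hZ).posSemidef.mul_mul_conjTranspose_same Z)

lemma mem_Om_one (Z : Matrix (Fin m) (Fin 2) ℂ) : Z ∈ Om 1 m := by
  have : Mz 1 Z = 1 + Zᴴ * Z := by simp [Mz]
  show (Mz 1 Z).PosDef
  rw [this]
  exact Matrix.PosDef.one.add_posSemidef (Matrix.posSemidef_conjTranspose_mul_self Z)

/-- the metric is positive definite -/
lemma met_pos {ε : ℝ} (hε : ε = 1 ∨ ε = -1) {Z : Matrix (Fin m) (Fin 2) ℂ}
    (hZ : Z ∈ Om ε m) (X : Matrix (Fin m) (Fin 2) ℂ) (hX : X ≠ 0) : 0 < met ε Z X X := by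
  have hD := Dz_posDef hZ
  have hE := Ez_posDef hε hZ
  obtain ⟨C, hC⟩ := exists_factor hD.posSemidef
  have hdet : C.det ≠ 0 := by
    intro h0
    have := hD.det_pos.ne'
    rw [hC, Matrix.det_mul, h0, mul_zero] at this
    exact this rfl
  have h1 : trace (Dz ε Z * Xᴴ * Ez ε Z * X) = trace ((X * Cᴴ)ᴴ * Ez ε Z * (X * Cᴴ)) := by
    rw [hC, conjTranspose_mul, conjTranspose_conjTranspose]
    have := Matrix.trace_mul_comm Cᴴ (C * Xᴴ * Ez ε Z * X)
    simp only [Matrix.mul_assoc] at this ⊢
    exact this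
  have hY : X * Cᴴ ≠ 0 := by
    intro h0
    apply hX
    have hu : IsUnit (Cᴴ).det := by
      rw [Matrix.det_conjTranspose]
      exact isUnit_iff_ne_zero.2 (star_ne_zero.2 hdet)
    have : X * Cᴴ * (Cᴴ)⁻¹ = X := by rw [Matrix.mul_assoc, Matrix.mul_nonsing_inv _ hu, Matrix.mul_one]
    rw [← this, h0, Matrix.zero_mul]
  set Y := X * Cᴴ with hYdef
  have h2 : ∀ j, (Yᴴ * Ez ε Z * Y) j j = star (Y.col j) ⬝ᵥ (Ez ε Z *ᵥ (Y.col j)) := by
    intro j
    rw [Matrix.mul_assoc]
    simp only [Matrix.mul_apply, dotProduct, mulVec, conjTranspose_apply, Pi.star_apply,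
      Matrix.col_apply]
  show 0 < (trace (Dz ε Z * Xᴴ * Ez ε Z * X)).re
  rw [h1, trace]
  simp only [Matrix.diag_apply, h2, Complex.re_sum]
  have hex : ∃ j, Y.col j ≠ 0 := by
    by_contra hcon
    push Not at hcon
    apply hY
    ext i j
    exact congrFun (hcon j) i
  obtain ⟨j, hj⟩ := hex
  apply Finset.sum_pos'
  · intro i _
    have := hE.posSemidef.dotProduct_mulVec_nonneg (Y.col i)
    exact (Complex.le_def.1 this).1
  · refine ⟨j, Finset.mem_univ _, ?_⟩
    have := hE.dotProduct_mulVec_pos hj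
    exact (Complex.lt_def.1 this).1

lemma exists_kernel (hm : 3 ≤ m) (B : Matrix (Fin 2) (Fin m) ℂ) : ∃ a : Fin m → ℂ, a ≠ 0 ∧
    B *ᵥ a = 0 := by
  by_contra hcon
  push Not at hcon
  have hinj : Function.Injective (Matrix.mulVecLin B) := by
    rw [← LinearMap.ker_eq_bot, LinearMap.ker_eq_bot']
    intro a ha
    by_contra h0
    exact hcon a h0 ha
  have := LinearMap.finrank_le_finrank_of_injective hinj
  simp at this
  omega

/-- the algebraic core -/
lemma core (M n : Matrix (Fin m) (Fin 2) ℂ) (hM : M ≠ 0) (hn : n ≠ 0)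
    (L : (Fin 2 → ℂ) →ₗ[ℝ] ℝ)
    (h : ∀ r s : Fin 2 → ℂ, L r = 0 → L s = 0 →
      ∃ t : ℝ, ∀ i k, (M *ᵥ star r) i * s k - (M *ᵥ star s) i * r k = (t : ℂ) * n i k) : False := by
  -- two vectors
  obtain ⟨r0, r1, h00, h01, h1, hdet⟩ : ∃ r0 r1 : Fin 2 → ℂ, L r0 = 0 ∧ L (I • r0) = 0 ∧
      L r1 = 0 ∧ r0 0 * r1 1 - r0 1 * r1 0 ≠ 0 := by
    let c : Fin 2 → ℂ := fun j => (L (Pi.single j 1) : ℂ) - (L (Pi.single j I) : ℂ) * I
    have hL : ∀ r : Fin 2 → ℂ, L r = (r 0 * c 0 + r 1 * c 1).re := by
      intro r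
      have hr : r = (r 0).re • (Pi.single 0 1 : Fin 2 → ℂ) + (r 0).im • (Pi.single 0 I : Fin 2 → ℂ) +
          ((r 1).re • (Pi.single 1 1 : Fin 2 → ℂ) + (r 1).im • (Pi.single 1 I : Fin 2 → ℂ)) := by
        funext j
        fin_cases j <;> simp [Complex.re_add_im]
      conv_lhs => rw [hr]
      simp only [map_add, map_smul, smul_eq_mul, c]
      simp only [Complex.add_re, Complex.mul_re, Complex.sub_re, Complex.sub_im, Complex.ofReal_re,
        Complex.ofReal_im, Complex.mul_im, Complex.I_re, Complex.I_im]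
      ring
    by_cases hc : c 0 = 0 ∧ c 1 = 0
    · refine ⟨![1, 0], ![0, 1], ?_, ?_, ?_, ?_⟩
      · rw [hL]; simp [hc.1, hc.2]
      · rw [hL]; simp [hc.1, hc.2]
      · rw [hL]; simp [hc.1, hc.2]
      · simp
    · refine ⟨![c 1, -c 0], ![I * star (c 0), I * star (c 1)], ?_, ?_, ?_, ?_⟩
      · rw [hL]; simp; ring
      · rw [hL]; simp; ring
      · rw [hL]; simp; ring
      · simp only [Matrix.cons_val_zero, Matrix.cons_val_one]
        have e1 : c 1 * (I * star (c 1)) - -c 0 * (I * star (c 0)) =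
            I * ((Complex.normSq (c 0) + Complex.normSq (c 1) : ℝ) : ℂ) := by
          have h0 := Complex.mul_conj (c 0)
          have h1 := Complex.mul_conj (c 1)
          push_cast
          rw [← h0, ← h1]
          simp only [Complex.star_def]
          ring
        rw [e1]
        apply mul_ne_zero I_ne_zero
        rw [Complex.ofReal_ne_zero]
        intro h0
        apply hc
        have a0 := Complex.normSq_nonneg (c 0)
        have a1 := Complex.normSq_nonneg (c 1)
        constructor
        · exact Complex.normSq_eq_zero.1 (by linarith)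
        · exact Complex.normSq_eq_zero.1 (by linarith)
  obtain ⟨t1, ht1⟩ := h r0 r1 h00 h1
  obtain ⟨t2, ht2⟩ := h (I • r0) r1 h01 h1
  have hs : M *ᵥ star (I • r0) = -(I • (M *ᵥ star r0)) := by
    have : star (I • r0) = -(I • star r0) := by
      funext j
      simp
    rw [this, Matrix.mulVec_neg, Matrix.mulVec_smul]
  -- combine
  have A1 : ∀ i k, 2 * ((M *ᵥ star r0) i * r1 k) = ((t1 : ℂ) + t2 * I) * n i k := by
    intro i k
    have e1 := ht1 i k
    have e2 := ht2 i k
    rw [hs] at e2
    simp only [Pi.neg_apply, Pi.smul_apply, smul_eq_mul] at e2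
    linear_combination e1 + I * e2 + ((M *ᵥ star r0) i * r1 k + (M *ᵥ star r1) i * r0 k) * I_mul_I
  have A2 : ∀ i k, 2 * ((M *ᵥ star r1) i * r0 k) = (-(t1 : ℂ) + t2 * I) * n i k := by
    intro i k
    have e1 := ht1 i k
    have e2 := ht2 i k
    rw [hs] at e2
    simp only [Pi.neg_apply, Pi.smul_apply, smul_eq_mul] at e2
    linear_combination -e1 + I * e2 + ((M *ᵥ star r0) i * r1 k + (M *ᵥ star r1) i * r0 k) * I_mul_I
  by_cases ht : t1 = 0 ∧ t2 = 0
  · obtain ⟨rfl, rfl⟩ := ht
    apply hM
    have B0 : ∀ i, (M *ᵥ star r0) i = 0 := by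
      intro i
      by_contra h0
      have h0' : r1 0 = 0 := by
        have := A1 i 0
        simp at this
        rcases this with h | h
        · exact absurd h h0
        · exact h
      have h1' : r1 1 = 0 := by
        have := A1 i 1
        simp at this
        rcases this with h | h
        · exact absurd h h0
        · exact h
      apply hdet
      rw [h0', h1']; ring
    have B1 : ∀ i, (M *ᵥ star r1) i = 0 := by
      intro i
      by_contra h0
      have h0' : r0 0 = 0 := by
        have := A2 i 0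
        simp at this
        rcases this with h | h
        · exact absurd h h0
        · exact h
      have h1' : r0 1 = 0 := by
        have := A2 i 1
        simp at this
        rcases this with h | h
        · exact absurd h h0
        · exact h
      apply hdet
      rw [h0', h1']; ring
    have hdet' : star (r0 0) * star (r1 1) - star (r0 1) * star (r1 0) ≠ 0 := by
      intro h0
      apply hdet
      have := congrArg star h0
      simpa [mul_comm] using this
    have C0 : ∀ i, M i 0 * star (r0 0) + M i 1 * star (r0 1) = 0 := by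
      intro i
      have := B0 i
      simpa [Matrix.mulVec, dotProduct, Fin.sum_univ_two] using this
    have C1 : ∀ i, M i 0 * star (r1 0) + M i 1 * star (r1 1) = 0 := by
      intro i
      have := B1 i
      simpa [Matrix.mulVec, dotProduct, Fin.sum_univ_two] using this
    ext i k
    fin_cases k
    · have : M i 0 * (star (r0 0) * star (r1 1) - star (r0 1) * star (r1 0)) = 0 := by
        linear_combination star (r1 1) * C0 i - star (r0 1) * C1 i
      rcases mul_eq_zero.1 this with h | h
      · exact h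
      · exact absurd h hdet'
    · have : M i 1 * (star (r0 0) * star (r1 1) - star (r0 1) * star (r1 0)) = 0 := by
        linear_combination star (r0 0) * C1 i - star (r1 0) * C0 i
      rcases mul_eq_zero.1 this with h | h
      · exact h
      · exact absurd h hdet'
  · -- `n` is degenerate
    have z1 : (t1 : ℂ) + t2 * I ≠ 0 := by
      intro h0
      apply ht
      have h1 := congrArg Complex.re h0
      have h2 := congrArg Complex.im h0
      simp at h1 h2
      exact ⟨h1, h2⟩
    have z2 : -(t1 : ℂ) + t2 * I ≠ 0 := by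
      intro h0
      apply ht
      have h1 := congrArg Complex.re h0
      have h2 := congrArg Complex.im h0
      simp at h1 h2
      exact ⟨h1, h2⟩
    apply hn
    -- each row is a multiple of r1 and of r0
    have R1 : ∀ i, n i 0 * r1 1 - n i 1 * r1 0 = 0 := by
      intro i
      have : ((t1 : ℂ) + t2 * I) * (n i 0 * r1 1 - n i 1 * r1 0) = 0 := by
        linear_combination -(r1 1) * A1 i 0 + r1 0 * A1 i 1
      rcases mul_eq_zero.1 this with h | h
      · exact absurd h z1
      · exact h
    have R0 : ∀ i, n i 0 * r0 1 - n i 1 * r0 0 = 0 := by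
      intro i
      have : (-(t1 : ℂ) + t2 * I) * (n i 0 * r0 1 - n i 1 * r0 0) = 0 := by
        linear_combination -(r0 1) * A2 i 0 + r0 0 * A2 i 1
      rcases mul_eq_zero.1 this with h | h
      · exact absurd h z2
      · exact h
    ext i k
    fin_cases k
    · have : n i 0 * (r0 0 * r1 1 - r0 1 * r1 0) = 0 := by
        linear_combination r0 0 * R1 i - r1 0 * R0 i
      rcases mul_eq_zero.1 this with h | h
      · exact h
      · exact absurd h hdet
    · have : n i 1 * (r0 0 * r1 1 - r0 1 * r1 0) = 0 := by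
        linear_combination r0 1 * R1 i - r1 1 * R0 i
      rcases mul_eq_zero.1 this with h | h
      · exact h
      · exact absurd h hdet

/-- dimension count -/
lemma tangent_exists {V W : Type*} [AddCommGroup V] [Module ℝ V] [AddCommGroup W] [Module ℝ W]
    [FiniteDimensional ℝ V] [FiniteDimensional ℝ W]
    (hdim : Module.finrank ℝ W + 1 = Module.finrank ℝ V) (T : W →ₗ[ℝ] V)
    (hT : Function.Injective T) (f : V →ₗ[ℝ] ℝ) (hf : ∀ u, f (T u) = 0) (n : V) (hn : f n = 1)
    (v : V) (hv : f v = 0) : ∃ u, T u = v := by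
  have hle : LinearMap.range T ≤ LinearMap.ker f := by
    rintro _ ⟨u, rfl⟩
    exact hf u
  have h1 : Module.finrank ℝ (LinearMap.range T) = Module.finrank ℝ W :=
    LinearMap.finrank_range_of_inj hT
  have hsurj : LinearMap.range f = ⊤ := by
    rw [LinearMap.range_eq_top]
    intro c
    exact ⟨c • n, by simp [hn]⟩
  have h2 := LinearMap.finrank_range_add_finrank_ker f
  rw [hsurj, finrank_top, Module.finrank_self] at h2
  have h3 : LinearMap.range T = LinearMap.ker f :=
    Submodule.eq_of_le_of_finrank_eq hle (by omega)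
  have : v ∈ LinearMap.range T := by rw [h3]; exact hv
  exact this

end Pool.Agent.R731.HS
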