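import Pool.Agent.R731.HS.SemiPar

/-!
# Semi-parallel hypersurfaces of complex space forms: the Codazzi equation
-/

set_option autoImplicit false

namespace Pool.Agent.R731.HSP

open Pool.Agent.R731.HS Module
open scoped ContDiff Topology

variable {V W : Type*} [NormedAddCommGroup V] [NormedSpace ℝ V]
  [NormedAddCommGroup W] [NormedSpace ℝ W] [FiniteDimensional ℝ V] [FiniteDimensional ℝ W]

variable {c : ℝ} {J : V →L[ℝ] V} {G : V → V →L[ℝ] V →L[ℝ] V}
    {H : V → V →L[ℝ] V →L[ℝ] ℝ} {Ω : Set V} {Γ : V → V → V → V} {h : V → V → V → ℝ}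
    {U : Set W} {φ N : W → V}

section codazzi

variable (D : Data Γ h G H Ω U φ N) (F : SpaceForm c J G H Ω)
include D

omit [FiniteDimensional ℝ V] [FiniteDimensional ℝ W] in
lemma torsion {x : W} (hx : x ∈ U) (v w : W) :
    nbG G φ v (fun y => fderiv ℝ φ y w) x = nbG G φ w (fun y => fderiv ℝ φ y v) x := by
  have hφ2 : DifferentiableAt ℝ (fderiv ℝ φ) x :=
    ((D.φ_at hx).fderiv_right (m := 1) (by norm_num; exact two_le_infty)).differentiableAt
      (by norm_num)
  have a1 : ∀ w : W, fderiv ℝ (fun y => fderiv ℝ φ y w) x = (fderiv ℝ (fderiv ℝ φ) x).flip w := by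
    intro w
    have := (hφ2.hasFDerivAt.clm_apply (hasFDerivAt_const w x)).fderiv
    rw [this]
    ext u
    simp
  have s2 : fderiv ℝ (fderiv ℝ φ) x v w = fderiv ℝ (fderiv ℝ φ) x w v :=
    ((D.φ_at hx).isSymmSndFDerivAt (by simpa using two_le_infty)).eq v w
  simp only [nbG, a1, ContinuousLinearMap.flip_apply, s2]
  rw [D.G_symm]

include F

omit [FiniteDimensional ℝ V] [FiniteDimensional ℝ W] in
lemma nb_xi {x : W} (hx : x ∈ U) (u : W) :
    nbG G φ u (fun y => -J (N y)) x = J (shape Γ φ N x u) := by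
  have hN : DifferentiableAt ℝ N x := (D.N_at hx).differentiableAt (by simp)
  have h1 : fderiv ℝ (fun y => -J (N y)) x u = -J (fderiv ℝ N x u) := by
    have h2 : HasFDerivAt (fun y => -J (N y)) (-(J.comp (fderiv ℝ N x))) x :=
      (J.hasFDerivAt.comp x hN.hasFDerivAt).neg
    rw [h2.fderiv]
    rfl
  rw [shape, D.nb_eq]
  simp only [nbG]
  rw [h1, map_neg, F.J_par, map_neg, map_add]
  abel

/-- there is no semi-parallel hypersurface -/
theorem no_semiparallel (hdim : finrank ℝ W + 1 = finrank ℝ V) (h5 : 5 ≤ finrank ℝ W)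
    (hc : c ≠ 0) (himm : ∀ x ∈ U, Function.Injective (fderiv ℝ φ x)) (hne : U.Nonempty)
    (hsp : ∀ x ∈ U, SemiParallelAt Γ h φ N x) : False := by
  obtain ⟨x, hx⟩ := hne
  have hp := D.maps x hx
  have hPW : ∀ y ∈ U, ∃ m : ℝ, ∀ u, H (φ y) (shape Γ φ N y u) (-J (N y)) =
        m * H (φ y) (fderiv ℝ φ y u) (-J (N y)) := by
    intro y hy
    obtain ⟨l, m, h1, _⟩ := pointwise D F hdim h5 hc himm hy (hsp y hy)
    exact ⟨m, h1⟩
  obtain ⟨l, m, hm, hl, hlm⟩ := pointwise D F hdim h5 hc himm hx (hsp x hx)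
  have hnn : H (φ x) (N x) (N x) = 1 := by
    have := D.unit x hx
    rw [D.h_eq] at this
    exact this
  have hTn : ∀ u, H (φ x) (fderiv ℝ φ x u) (N x) = 0 := by
    intro u
    have := D.normal x hx u
    rw [D.h_eq] at this
    exact this
  have hTinj : Function.Injective ((fderiv ℝ φ x : W →L[ℝ] V) : W →ₗ[ℝ] V) := himm x hx
  have htan : ∀ v : V, H (φ x) v (N x) = 0 → ∃ u, fderiv ℝ φ x u = v := by
    intro v hv
    exact tangent_exists' hdim ((fderiv ℝ φ x : W →L[ℝ] V) : W →ₗ[ℝ] V) hTinj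
      (((H (φ x)).flip (N x) : V →L[ℝ] ℝ) : V →ₗ[ℝ] ℝ) hTn (N x) hnn v hv
  have hJs : ∀ X Y, H (φ x) (J X) Y = -H (φ x) X (J Y) := J_skew D F hp
  have hJn : H (φ x) (J (N x)) (N x) = 0 := by
    have h1 := hJs (N x) (N x)
    have h2 := D.H_symm _ hp (J (N x)) (N x)
    linarith
  obtain ⟨w0, hw0⟩ := htan (-J (N x)) (by rw [map_neg, neg_apply, hJn, neg_zero])
  have hξξ : H (φ x) (-J (N x)) (-J (N x)) = 1 := by
    rw [map_neg, map_neg, neg_apply, neg_neg, F.herm _ hp, hnn]
  -- vector u0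
  obtain ⟨u0, hu0, hu0'⟩ := exists_orth (W := W) (k := 1)
    ![(((H (φ x)).flip (-J (N x))).comp (fderiv ℝ φ x) : W →ₗ[ℝ] ℝ)] (by omega)
  have hXξ : H (φ x) (fderiv ℝ φ x u0) (-J (N x)) = 0 := hu0' 0
  set X := fderiv ℝ φ x u0 with hX
  have hX0 : X ≠ 0 := fun h0 => hu0 (hTinj (by simpa using h0))
  have hq : 0 < H (φ x) X X := F.pos _ hp X hX0
  have hXn : H (φ x) X (N x) = 0 := hTn u0
  have hXJn : H (φ x) X (J (N x)) = 0 := by
    have := hXξ
    rw [map_neg] at this
    linarith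
  have hJXn : H (φ x) (J X) (N x) = 0 := by rw [hJs, hXJn, neg_zero]
  obtain ⟨v0, hv0⟩ := htan (J X) hJXn
  have hJXξ : H (φ x) (J X) (-J (N x)) = 0 := by rw [map_neg, F.herm _ hp, hXn, neg_zero]
  have hAu : shape Γ φ N x u0 = l • X := hl u0 hXξ
  have hAv : shape Γ φ N x v0 = l • J X := by
    have := hl v0 (by rw [hv0]; exact hJXξ)
    rw [hv0] at this
    exact this
  -- differentiability of the fields
  have hφ : DifferentiableAt ℝ φ x := (D.φ_at hx).differentiableAt (by simp)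
  have hN : DifferentiableAt ℝ N x := (D.N_at hx).differentiableAt (by simp)
  have hξd : DifferentiableAt ℝ (fun y => -J (N y)) x :=
    ((J.differentiableAt).comp x hN).neg
  have hdd : ∀ v : W, DifferentiableAt ℝ (fun y => fderiv ℝ φ y v) x := fun v =>
    (D.dφ_at hx v).differentiableAt (by simp)
  have hSd : ∀ v : W, DifferentiableAt ℝ (fun y => shape Γ φ N y v) x := by
    intro v
    have h1 : (fun y => shape Γ φ N y v) = fun y => -(nbG G φ v N y) := by
      funext y
      rw [shape, D.nb_eq]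
    rw [h1]
    exact (nbG_differentiableAt G φ v N x ((D.N_at hx).of_le two_le_infty)
      ((D.φ_at hx).of_le two_le_infty) (D.G_diff _ hp)).differentiableAt.neg
  have hSnb : ∀ u v : W, nbG G φ u (fun y => shape Γ φ N y v) x =
      -(nbG G φ u (nbG G φ v N) x) := by
    intro u v
    have h1 : (fun y => shape Γ φ N y v) = fun y => -(nbG G φ v N y) := by
      funext y
      rw [shape, D.nb_eq]
    rw [h1]
    have h2 : DifferentiableAt ℝ (nbG G φ v N) x :=
      (nbG_differentiableAt G φ v N x ((D.N_at hx).of_le two_le_infty)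
        ((D.φ_at hx).of_le two_le_infty) (D.G_diff _ hp)).differentiableAt
    have h3 : fderiv ℝ (fun y => -(nbG G φ v N y)) x u = -(fderiv ℝ (nbG G φ v N) x u) := by
      have := h2.hasFDerivAt.neg.fderiv
      have h4 : fderiv ℝ (fun y => -(nbG G φ v N y)) x = _ := this
      rw [h4]
      rfl
    show fderiv ℝ (fun y => -(nbG G φ v N y)) x u +
      G (φ x) (fderiv ℝ φ x u) (-(nbG G φ v N x)) = -(fderiv ℝ (nbG G φ v N) x u +
        G (φ x) (fderiv ℝ φ x u) (nbG G φ v N x))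
    rw [h3, map_neg, neg_add]
  -- derivative of alpha and beta
  have hα : ∀ u v : W, DifferentiableAt ℝ (fun y => H (φ y) (fderiv ℝ φ y v) (-J (N y))) x ∧
      fderiv ℝ (fun y => H (φ y) (fderiv ℝ φ y v) (-J (N y))) x u =
        H (φ x) (nbG G φ u (fun y => fderiv ℝ φ y v) x) (-J (N x)) +
        H (φ x) (fderiv ℝ φ x v) (J (shape Γ φ N x u)) := by
    intro u v
    have := metric_deriv G φ H u (fun y => fderiv ℝ φ y v) (fun y => -J (N y)) x (hdd v) hξd hφ
      (D.H_diff _ hp) (D.LC _ hp)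
    rw [nb_xi D F hx] at this
    exact this
  have hβ : ∀ u v : W, DifferentiableAt ℝ (fun y => H (φ y) (shape Γ φ N y v) (-J (N y))) x ∧
      fderiv ℝ (fun y => H (φ y) (shape Γ φ N y v) (-J (N y))) x u =
        H (φ x) (nbG G φ u (fun y => shape Γ φ N y v) x) (-J (N x)) +
        H (φ x) (shape Γ φ N x v) (J (shape Γ φ N x u)) := by
    intro u v
    have := metric_deriv G φ H u (fun y => shape Γ φ N y v) (fun y => -J (N y)) x (hSd v) hξd hφ
      (D.H_diff _ hp) (D.LC _ hp)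
    rw [nb_xi D F hx] at this
    exact this
  -- the identity beta_v alpha_w = beta_w alpha_v
  have key : ∀ u v : W, H (φ x) (fderiv ℝ φ x v) (-J (N x)) = 0 →
      fderiv ℝ (fun y => H (φ y) (shape Γ φ N y v) (-J (N y))) x u =
        m * fderiv ℝ (fun y => H (φ y) (fderiv ℝ φ y v) (-J (N y))) x u := by
    intro u v hv
    have h1 : (fun y => H (φ y) (shape Γ φ N y v) (-J (N y)) *
        H (φ y) (fderiv ℝ φ y w0) (-J (N y))) =ᶠ[𝓝 x]
        fun y => H (φ y) (shape Γ φ N y w0) (-J (N y)) *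
          H (φ y) (fderiv ℝ φ y v) (-J (N y)) := by
      filter_upwards [D.U_open.mem_nhds hx] with y hy
      obtain ⟨m', hm'⟩ := hPW y hy
      rw [hm', hm']
      ring
    have h2 := h1.fderiv_eq (𝕜 := ℝ)
    have h3 : fderiv ℝ (fun y => H (φ y) (shape Γ φ N y v) (-J (N y)) *
        H (φ y) (fderiv ℝ φ y w0) (-J (N y))) x = _ :=
      ((hβ u v).1.hasFDerivAt.mul (hα u w0).1.hasFDerivAt).fderiv
    have h4 : fderiv ℝ (fun y => H (φ y) (shape Γ φ N y w0) (-J (N y)) *
        H (φ y) (fderiv ℝ φ y v) (-J (N y))) x = _ :=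
      ((hβ u w0).1.hasFDerivAt.mul (hα u v).1.hasFDerivAt).fderiv
    rw [h3, h4] at h2
    have h5 := congrArg (fun L => L u) h2
    simp only [add_apply, smul_apply, smul_eq_mul, hm v, hm w0, hv, hw0, hξξ, mul_zero, zero_mul,
      zero_add, add_zero, mul_one, one_mul] at h5
    exact h5
  have k1 := key u0 v0 (by rw [hv0]; exact hJXξ)
  have k2 := key v0 u0 hXξ
  rw [(hβ u0 v0).2, (hα u0 v0).2, hSnb, hAu, hAv, hv0] at k1
  rw [(hβ v0 u0).2, (hα v0 u0).2, hSnb, hAu, hAv, ← hX, torsion D hx v0 u0] at k2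
  have hcomm := nbG_comm G φ u0 v0 N x ((D.N_at hx).of_le two_le_infty)
    ((D.φ_at hx).of_le two_le_infty) (D.G_diff _ hp)
  rw [hv0, ← hX, F.curv _ hp] at hcomm
  have hq2 : H (φ x) (J X) (J X) = H (φ x) X X := F.herm _ hp X X
  have hJJ : J (J X) = -X := F.J_sq X
  rw [hJXn, hXn, hJJ, hq2] at hcomm
  have hXn' : H (φ x) (-X) (N x) = 0 := by rw [map_neg, neg_apply, hXn, neg_zero]
  rw [hXn'] at hcomm
  have k3 := congrArg (fun v => H (φ x) v (-J (N x))) hcomm
  simp only [map_sub, sub_apply, zero_smul, sub_zero, add_zero, zero_sub, map_smul, map_neg,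
    neg_apply, smul_apply, smul_eq_mul, F.herm _ hp, hnn] at k3
  simp only [map_smul, map_neg, neg_apply, smul_apply, smul_eq_mul, hJJ, hq2] at k1 k2
  -- final computation
  have e1 : (l ^ 2 - m * l - c) * H (φ x) X X = 0 := by
    linarith
  have e2 : l ^ 2 - m * l - c = 0 := by
    rcases mul_eq_zero.1 e1 with h | h
    · exact h
    · exact absurd h hq.ne'
  rcases hlm with h | h
  · rw [h] at e2
    apply hc
    linarith
  · have : l ^ 2 = 0 := by linarith
    have hl0 : l = 0 := by simpa using this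
    rw [hl0] at h
    apply hc
    linarith

end codazzi

end Pool.Agent.R731.HSP
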