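import Pool.Agent.R731.HS.ModelP
import Pool.Agent.R731.HS.SemiPar2

/-!
# Complex space forms in affine coordinates
-/

set_option autoImplicit false

namespace Pool.Agent.R731.HSP

open Matrix Complex Pool.Agent.R731.HS Module
open scoped ContDiff Topology ComplexOrder Matrix.Norms.Elementwise

attribute [-instance] instTopologicalSpaceMatrix
attribute [-instance] Matrix.instUniformSpace

section gen

variable {V : Type*} [NormedAddCommGroup V] [NormedSpace ℝ V]

/-- the curvature tensor `R(X,Y)W` at `p` of the connection with Christoffel map `Γ` (constant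
vector fields `X`, `Y`, `W`) -/
noncomputable def curvC (Γ : V → V → V → V) (p X Y W : V) : V :=
  fderiv ℝ (fun p' => Γ p' Y W) p X - fderiv ℝ (fun p' => Γ p' X W) p Y +
    Γ p X (Γ p Y W) - Γ p Y (Γ p X W)

lemma curvC_eq (G : V → V →L[ℝ] V →L[ℝ] V) (p : V) (hG : DifferentiableAt ℝ G p) (X Y W : V) :
    curvC (fun p X Y => G p X Y) p X Y W = rbar G p X Y W := by
  have h : ∀ Y W X : V, fderiv ℝ (fun p' => G p' Y W) p X = fderiv ℝ G p X Y W := by
    intro Y W X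
    have h1 := (hG.hasFDerivAt.clm_apply (hasFDerivAt_const Y p)).clm_apply
      (hasFDerivAt_const W p)
    have h2 : fderiv ℝ (fun p' => G p' Y W) p = _ := h1.fderiv
    rw [h2]
    simp
  rw [curvC, rbar, h, h]

end gen

variable {n : ℕ}

/-- The domain `1 + c |Z|² > 0` in `ℂⁿ`: all of `ℂⁿ` for `c > 0`, a ball for `c < 0`. -/
def Om1 (c : ℝ) (n : ℕ) : Set (Matrix (Fin n) (Fin 1) ℂ) :=
  {Z | 0 < 1 + c * ∑ i, Complex.normSq (Z i 0)}

lemma Mz_one (c : ℝ) (Z : Matrix (Fin n) (Fin 1) ℂ) :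
    Mz c Z = ((1 + c * ∑ i, Complex.normSq (Z i 0) : ℝ) : ℂ) • (1 : Matrix (Fin 1) (Fin 1) ℂ) := by
  ext i j
  fin_cases i
  fin_cases j
  simp only [Mz, Matrix.add_apply, Matrix.smul_apply, Matrix.mul_apply, conjTranspose_apply,
    smul_eq_mul, Fin.zero_eta, Fin.isValue, Matrix.one_apply_eq, mul_one]
  push_cast
  congr 2
  refine Finset.sum_congr rfl fun k _ => ?_
  rw [Complex.normSq_eq_conj_mul_self]
  rfl

lemma Om1_det {c : ℝ} {Z : Matrix (Fin n) (Fin 1) ℂ} (hZ : Z ∈ Om1 c n) : (Mz c Z).det ≠ 0 := by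
  have h : (0 : ℝ) < 1 + c * ∑ i, Complex.normSq (Z i 0) := hZ
  rw [Mz_one, Matrix.det_fin_one, Matrix.smul_apply, Matrix.one_apply_eq, smul_eq_mul, mul_one]
  exact_mod_cast h.ne'

lemma Dz_one {c : ℝ} {Z : Matrix (Fin n) (Fin 1) ℂ} (hZ : Z ∈ Om1 c n) :
    Dz c Z = (((1 + c * ∑ i, Complex.normSq (Z i 0))⁻¹ : ℝ) : ℂ) •
      (1 : Matrix (Fin 1) (Fin 1) ℂ) := by
  have h : (0 : ℝ) < 1 + c * ∑ i, Complex.normSq (Z i 0) := hZ
  have h1 : Dz c Z = (Mz c Z)⁻¹ := rfl
  rw [h1]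
  apply Matrix.inv_eq_right_inv
  rw [Mz_one, Matrix.smul_mul, Matrix.one_mul, smul_smul, ← Complex.ofReal_mul,
    mul_inv_cancel₀ h.ne', Complex.ofReal_one, one_smul]

lemma mul_one_one (X : Matrix (Fin n) (Fin 1) ℂ) (M : Matrix (Fin 1) (Fin 1) ℂ) :
    X * M = M 0 0 • X := by
  ext i j
  fin_cases j
  simp only [Matrix.mul_apply, Finset.univ_unique, Fin.default_eq_zero, Finset.sum_singleton,
    Fin.isValue, Fin.zero_eta, Matrix.smul_apply, smul_eq_mul]
  ring

/-- the Hermitian form -/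
noncomputable def hh (c : ℝ) (Z X Y : Matrix (Fin n) (Fin 1) ℂ) : ℂ :=
  (Dz c Z * Xᴴ * Ez c Z * Y) 0 0

lemma Hc_hh (c : ℝ) (Z X Y : Matrix (Fin n) (Fin 1) ℂ) : Hc c Z X Y = (hh c Z X Y).re := by
  simp only [Hc, TH_apply, hh, Matrix.trace_fin_one]

lemma hh_I (c : ℝ) (Z X Y : Matrix (Fin n) (Fin 1) ℂ) : hh c Z (I • X) Y = -I * hh c Z X Y := by
  simp only [hh, conjTranspose_smul, Matrix.mul_smul, Matrix.smul_mul, Matrix.smul_apply,
    Complex.star_def, conj_I, smul_eq_mul]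

/-- multiplication by `i` -/
noncomputable def JI (n : ℕ) : Matrix (Fin n) (Fin 1) ℂ →L[ℝ] Matrix (Fin n) (Fin 1) ℂ :=
  LinearMap.toContinuousLinearMap
    { toFun := fun X => I • X
      map_add' := fun _ _ => smul_add _ _ _
      map_smul' := fun r A => by
        simp only [RingHom.id_apply]
        rw [smul_comm] }

lemma JI_apply (X : Matrix (Fin n) (Fin 1) ℂ) : JI n X = I • X := rfl

lemma hh_im (c : ℝ) (Z X Y : Matrix (Fin n) (Fin 1) ℂ) :
    (hh c Z X Y).im = Hc c Z (JI n X) Y := by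
  rw [Hc_hh, JI_apply, hh_I]
  simp

lemma hh_split (c : ℝ) (Z X Y : Matrix (Fin n) (Fin 1) ℂ) (W : Matrix (Fin n) (Fin 1) ℂ) :
    hh c Z X Y • W = Hc c Z X Y • W + Hc c Z (JI n X) Y • JI n W := by
  rw [← hh_im, Hc_hh, JI_apply]
  ext i j
  simp only [Matrix.smul_apply, Matrix.add_apply, smul_eq_mul, Complex.real_smul]
  conv_lhs => rw [← Complex.re_add_im (hh c Z X Y)]
  ring

lemma Ez_posDef1 {c : ℝ} {Z : Matrix (Fin n) (Fin 1) ℂ} (hZ : Z ∈ Om1 c n) :
    (Ez c Z).PosDef := by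
  rcases le_or_gt 0 c with h | h
  · apply Matrix.PosDef.inv
    apply Matrix.PosDef.one.add_posSemidef
    have h0 : (0 : ℂ) ≤ (c : ℂ) := by exact_mod_cast h
    exact (Matrix.posSemidef_self_mul_conjTranspose Z).smul h0
  · rw [Ez_eq _ _ (Om1_det hZ)]
    have hd : (0 : ℝ) < (1 + c * ∑ i, Complex.normSq (Z i 0))⁻¹ := inv_pos.2 hZ
    have : 1 - (c : ℂ) • (Z * Kz c Z) =
        1 + ((-c * (1 + c * ∑ i, Complex.normSq (Z i 0))⁻¹ : ℝ) : ℂ) • (Z * Zᴴ) := by
      rw [Kz, Dz_one hZ, Matrix.smul_mul, Matrix.one_mul, Matrix.mul_smul, smul_smul]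
      push_cast
      module
    rw [this]
    apply Matrix.PosDef.one.add_posSemidef
    have h0 : (0 : ℂ) ≤ ((-c * (1 + c * ∑ i, Complex.normSq (Z i 0))⁻¹ : ℝ) : ℂ) := by
      have : (0 : ℝ) ≤ -c * (1 + c * ∑ i, Complex.normSq (Z i 0))⁻¹ :=
        mul_nonneg (by linarith) hd.le
      exact_mod_cast this
    exact (Matrix.posSemidef_self_mul_conjTranspose Z).smul h0

lemma Hc_pos {c : ℝ} {Z : Matrix (Fin n) (Fin 1) ℂ} (hZ : Z ∈ Om1 c n)
    (X : Matrix (Fin n) (Fin 1) ℂ) (hX : X ≠ 0) : 0 < Hc c Z X X := by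
  have hd : (0 : ℝ) < (1 + c * ∑ i, Complex.normSq (Z i 0))⁻¹ := inv_pos.2 hZ
  rw [Hc_hh, hh, Dz_one hZ, Matrix.smul_mul, Matrix.one_mul, Matrix.smul_mul, Matrix.smul_mul,
    Matrix.smul_apply, smul_eq_mul, Complex.re_ofReal_mul]
  apply mul_pos hd
  have hcol : X.col 0 ≠ 0 := by
    intro h0
    apply hX
    ext i j
    fin_cases j
    exact congrFun h0 i
  have h2 : (Xᴴ * Ez c Z * X) 0 0 = star (X.col 0) ⬝ᵥ (Ez c Z *ᵥ (X.col 0)) := by
    rw [Matrix.mul_assoc]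
    simp only [Matrix.mul_apply, dotProduct, mulVec, conjTranspose_apply, Pi.star_apply,
      Matrix.col_apply]
  rw [h2]
  have := (Ez_posDef1 hZ).dotProduct_mulVec_pos hcol
  exact (Complex.lt_def.1 this).1

lemma Gc_I (c : ℝ) (Z X Y : Matrix (Fin n) (Fin 1) ℂ) :
    Gc c Z X (I • Y) = I • Gc c Z X Y := by
  simp only [Gc, TG_apply, Matrix.mul_smul, Matrix.smul_mul]
  rw [← smul_add, smul_comm, smul_neg]

lemma Hc_I (c : ℝ) (Z X Y : Matrix (Fin n) (Fin 1) ℂ) :
    Hc c Z (I • X) (I • Y) = Hc c Z X Y := by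
  simp only [Hc, TH_apply, conjTranspose_smul, Matrix.mul_smul, Matrix.smul_mul, trace_smul,
    smul_eq_mul, Complex.star_def, conj_I, ← mul_assoc]
  rw [mul_neg, I_mul_I, neg_neg, one_mul]

lemma spaceForm (c : ℝ) (n : ℕ) : SpaceForm c (JI n) (Gc c) (Hc c) (Om1 c n) where
  J_sq := fun X => by rw [JI_apply, JI_apply, smul_smul, I_mul_I, neg_smul, one_smul]
  J_par := fun p X Y => Gc_I c p X Y
  pos := fun p hp X hX => Hc_pos hp X hX
  herm := fun p _ X Y => Hc_I c p X Y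
  curv := fun p hp X Y W => by
    rw [rbar_eq c p (Om1_det hp)]
    have e : ∀ A B C : Matrix (Fin n) (Fin 1) ℂ, A * Dz c p * Bᴴ * Ez c p * C = hh c p B C • A := by
      intro A B C
      rw [hh, ← mul_one_one]
      simp only [Matrix.mul_assoc]
    rw [e, e, e, e, hh_split, hh_split, hh_split, hh_split]
    have hJ : ∀ A B : Matrix (Fin n) (Fin 1) ℂ, Hc c p (JI n A) B = -Hc c p (JI n B) A := by
      intro A B
      have h1 := Hc_I c p (I • A) B
      rw [smul_smul, I_mul_I, neg_smul, one_smul, map_neg, _root_.neg_apply] at h1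
      rw [JI_apply, JI_apply, ← h1, Hc_symm c p (I • B)]
    rw [hJ Y X, Hc_symm c p Y X]
    have hc2 : ∀ A : Matrix (Fin n) (Fin 1) ℂ, (c : ℂ) • A = c • A := by
      intro A
      ext i j
      simp [Complex.real_smul]
    rw [hc2, hc2]
    module

/-- facts on the model: it is a complex space form of holomorphic sectional curvature `4c` -/
structure IsComplexSpaceForm (n : ℕ) (c : ℝ) : Prop where
  leviCivita : LeviCivita (Gam c) (met c) (Om1 c n)
  hermitian : ∀ Z ∈ Om1 c n, ∀ X Y, met c Z (I • X) (I • Y) = met c Z X Y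
  parallel : ∀ Z X Y : Matrix (Fin n) (Fin 1) ℂ, Gam c Z X (I • Y) = I • Gam c Z X Y
  curvature : ∀ Z ∈ Om1 c n, ∀ X Y W, curvC (Gam c) Z X Y W =
    c • (met c Z Y W • X - met c Z X W • Y + met c Z (I • Y) W • (I • X) -
      met c Z (I • X) W • (I • Y) - (2 * met c Z (I • X) Y) • (I • W))

lemma isComplexSpaceForm (n : ℕ) (c : ℝ) : IsComplexSpaceForm n c where
  leviCivita :=
    { symm := fun Z _ X Y => Hc_symm c Z X Y
      pos := fun Z hZ X hX => Hc_pos hZ X hX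
      torsionFree := Gc_symm c
      metric := fun Z hZ X Y W => by
        have hH := (HD_Hc c Z (Om1_det hZ)).differentiableAt
        have h1 := (hH.hasFDerivAt.clm_apply (hasFDerivAt_const Y Z)).clm_apply
          (hasFDerivAt_const W Z)
        have h2 := h1.fderiv
        have h3 : fderiv ℝ (fun Z' => met c Z' Y W) Z = _ := h2
        rw [h3]
        have h4 := Hc_LC c Z (Om1_det hZ) X Y W
        rw [met_eq, met_eq, Gam_eq, Gam_eq, ← h4]
        simp }
  hermitian := fun Z _ X Y => Hc_I c Z X Y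
  parallel := fun Z X Y => Gc_I c Z X Y
  curvature := fun Z hZ X Y W => by
    have h1 := curvC_eq (Gc c) Z (HD_Gc c Z (Om1_det hZ)).differentiableAt X Y W
    have h2 : curvC (Gam c) Z X Y W = curvC (fun p X Y => Gc c p X Y) Z X Y W := rfl
    rw [h2, h1, (spaceForm c n).curv Z hZ]
    rfl

lemma finrank_mat1 (n : ℕ) : Module.finrank ℝ (Matrix (Fin n) (Fin 1) ℂ) = 2 * n := by
  rw [Module.finrank_matrix, Complex.finrank_real_complex]
  simp
  ring

lemma hyp_data {c : ℝ} {U : Set (EuclideanSpace ℝ (Fin (2 * n - 1)))}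
    {φ N : EuclideanSpace ℝ (Fin (2 * n - 1)) → Matrix (Fin n) (Fin 1) ℂ}
    (h : HypSurf (met c) (Om1 c n) U φ N) :
    Data (Gam c) (met c) (Gc c) (Hc c) (Om1 c n) U φ N where
  Γ_eq := Gam_eq c
  h_eq := met_eq c
  G_diff := fun p hp => (HD_Gc c p (Om1_det hp)).differentiableAt
  H_diff := fun p hp => (HD_Hc c p (Om1_det hp)).differentiableAt
  G_symm := Gc_symm c
  H_symm := fun p _ => Hc_symm c p
  LC := fun p hp => Hc_LC c p (Om1_det hp)
  U_open := h.isOpen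
  φ_smooth := h.smooth
  N_smooth := h.smooth_normal
  maps := h.maps
  unit := h.unit
  normal := h.normal

theorem main_CH (hn : 3 ≤ n) {c : ℝ} (hc : c ≠ 0)
    {U : Set (EuclideanSpace ℝ (Fin (2 * n - 1)))}
    {φ N : EuclideanSpace ℝ (Fin (2 * n - 1)) → Matrix (Fin n) (Fin 1) ℂ}
    (h : HypSurf (met c) (Om1 c n) U φ N) (hne : U.Nonempty) :
    ¬ ∀ x ∈ U, SemiParallelAt (Gam c) (met c) φ N x := by
  intro hsp
  have hW : finrank ℝ (EuclideanSpace ℝ (Fin (2 * n - 1))) = 2 * n - 1 := by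
    rw [finrank_euclideanSpace, Fintype.card_fin]
  refine no_semiparallel (hyp_data h) (spaceForm c n) ?_ ?_ hc h.immersion hne hsp
  · rw [finrank_mat1, hW]
    omega
  · rw [hW]
    omega

end Pool.Agent.R731.HSP
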