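import Pool.Agent.R731.HS.Model

/-!
# The Grassmannians of p-planes in affine coordinates (`p` arbitrary)
-/

set_option autoImplicit false

namespace Pool.Agent.R731.HSP

open Matrix Complex Pool.Agent.R731.HS
open scoped ContDiff Topology ComplexOrder Matrix.Norms.Elementwise

attribute [-instance] instTopologicalSpaceMatrix
attribute [-instance] Matrix.instUniformSpace

variable {m p : ℕ}

/-- `1 + ε Z* Z` -/
noncomputable def Mz (ε : ℝ) (Z : Matrix (Fin m) (Fin p) ℂ) : Matrix (Fin p) (Fin p) ℂ :=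
  1 + (ε : ℂ) • (Zᴴ * Z)

/-- `(1 + ε Z* Z)⁻¹` -/
noncomputable def Dz (ε : ℝ) (Z : Matrix (Fin m) (Fin p) ℂ) : Matrix (Fin p) (Fin p) ℂ :=
  (1 + (ε : ℂ) • (Zᴴ * Z))⁻¹

/-- `(1 + ε Z Z*)⁻¹` -/
noncomputable def Ez (ε : ℝ) (Z : Matrix (Fin m) (Fin p) ℂ) : Matrix (Fin m) (Fin m) ℂ :=
  (1 + (ε : ℂ) • (Z * Zᴴ))⁻¹

/-- the metric `Re tr (D X* E Y)` -/
noncomputable def met (ε : ℝ) (Z X Y : Matrix (Fin m) (Fin p) ℂ) : ℝ :=
  (trace (Dz ε Z * Xᴴ * Ez ε Z * Y)).re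

/-- the Christoffel map -/
noncomputable def Gam (ε : ℝ) (Z X Y : Matrix (Fin m) (Fin p) ℂ) : Matrix (Fin m) (Fin p) ℂ :=
  -((ε : ℂ) • (X * (Dz ε Z * Zᴴ) * Y + Y * (Dz ε Z * Zᴴ) * X))

lemma Mz_herm (ε : ℝ) (Z : Matrix (Fin m) (Fin p) ℂ) : (Mz ε Z)ᴴ = Mz ε Z := by
  simp [Mz, conjTranspose_add, conjTranspose_smul, conjTranspose_mul]

lemma Dz_herm (ε : ℝ) (Z : Matrix (Fin m) (Fin p) ℂ) : (Dz ε Z)ᴴ = Dz ε Z := by
  have : (Mz ε Z).IsHermitian := Mz_herm ε Z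
  exact this.inv

lemma Ez_herm (ε : ℝ) (Z : Matrix (Fin m) (Fin p) ℂ) : (Ez ε Z)ᴴ = Ez ε Z := by
  have : (1 + (ε : ℂ) • (Z * Zᴴ)).IsHermitian := by
    simp [Matrix.IsHermitian, conjTranspose_add, conjTranspose_smul, conjTranspose_mul]
  exact this.inv

lemma HD_Mz (ε : ℝ) (z0 : Matrix (Fin m) (Fin p) ℂ) :
    HD (Mz ε) z0 (fun X => (ε : ℂ) • (Xᴴ * z0 + z0ᴴ * X)) := by
  have h1 : HD (fun Z : Matrix (Fin m) (Fin p) ℂ => Zᴴ * Z) z0 (fun X => Xᴴ * z0 + z0ᴴ * X) :=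
    HD.mmul (HD.conjT (HD.id z0)) (HD.id z0)
  have h2 := (HD.const (1 : Matrix (Fin p) (Fin p) ℂ) z0).add (h1.csmul (ε : ℂ))
  exact h2.congr (fun u => by simp)

lemma prod_differentiableAt {W ι : Type*} [NormedAddCommGroup W] [NormedSpace ℝ W]
    (s : Finset ι) {f : ι → W → ℂ} {w : W} (hf : ∀ i, DifferentiableAt ℝ (f i) w) :
    DifferentiableAt ℝ (fun x => ∏ i ∈ s, f i x) w := by
  classical
  induction s using Finset.induction_on with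
  | empty => simp
  | insert a s ha ih =>
    simp only [Finset.prod_insert ha]
    exact (hf a).mul ih

lemma det_differentiableAt {W : Type*} [NormedAddCommGroup W] [NormedSpace ℝ W] {k : ℕ}
    {F : W → Matrix (Fin k) (Fin k) ℂ} {w : W}
    (hF : ∀ i j, DifferentiableAt ℝ (fun Z => F Z i j) w) :
    DifferentiableAt ℝ (fun Z => (F Z).det) w := by
  have : (fun Z => (F Z).det) = fun Z => ∑ σ : Equiv.Perm (Fin k),
      ((Equiv.Perm.sign σ : ℤ) : ℂ) * ∏ i, F Z (σ i) i := by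
    funext Z
    rw [Matrix.det_apply']
  rw [this]
  apply DifferentiableAt.fun_sum
  intro σ _
  apply DifferentiableAt.const_mul
  exact prod_differentiableAt Finset.univ (fun i => hF _ _)

lemma Mz_entry (ε : ℝ) (z : Matrix (Fin m) (Fin p) ℂ) (i j : Fin p) :
    DifferentiableAt ℝ (fun Z : Matrix (Fin m) (Fin p) ℂ => Mz ε Z i j) z := by
  have h1 : DifferentiableAt ℝ (Mz ε) z := (HD_Mz ε z).differentiableAt
  have h2 := (differentiableAt_pi.1 h1) i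
  exact (differentiableAt_pi.1 h2) j

lemma Dz_differentiableAt (ε : ℝ) (z : Matrix (Fin m) (Fin p) ℂ) (hp : (Mz ε z).det ≠ 0) :
    DifferentiableAt ℝ (Dz ε) z := by
  have hdet : DifferentiableAt ℝ (fun Z : Matrix (Fin m) (Fin p) ℂ => (Mz ε Z).det) z :=
    det_differentiableAt (Mz_entry ε z)
  have hinv := hdet.inv hp
  have hform : Dz ε = fun Z : Matrix (Fin m) (Fin p) ℂ =>
      ((Mz ε Z).det)⁻¹ • (Mz ε Z).adjugate := by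
    funext Z
    show (Mz ε Z)⁻¹ = _
    rw [Matrix.inv_def, Ring.inverse_eq_inv']
  rw [hform]
  apply differentiableAt_pi.2
  intro i
  apply differentiableAt_pi.2
  intro j
  have : DifferentiableAt ℝ (fun Z : Matrix (Fin m) (Fin p) ℂ => (Mz ε Z).adjugate i j) z := by
    simp only [Matrix.adjugate_apply]
    apply det_differentiableAt
    intro k l
    by_cases hk : k = j
    · subst hk
      simp only [Matrix.updateRow_self]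
      exact differentiableAt_const _
    · simp only [Matrix.updateRow_ne hk]
      exact Mz_entry ε z k l
  exact hinv.mul this

lemma Mz_mul_Dz (ε : ℝ) (z0 : Matrix (Fin m) (Fin p) ℂ) (hp : (Mz ε z0).det ≠ 0) :
    Mz ε z0 * Dz ε z0 = 1 := Matrix.mul_nonsing_inv _ (isUnit_iff_ne_zero.2 hp)

lemma Dz_mul_Mz (ε : ℝ) (z0 : Matrix (Fin m) (Fin p) ℂ) (hp : (Mz ε z0).det ≠ 0) :
    Dz ε z0 * Mz ε z0 = 1 := Matrix.nonsing_inv_mul _ (isUnit_iff_ne_zero.2 hp)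

/-- `D Z*` -/
noncomputable def Kz (ε : ℝ) (Z : Matrix (Fin m) (Fin p) ℂ) : Matrix (Fin p) (Fin m) ℂ :=
  Dz ε Z * Zᴴ

lemma Kz_conj (ε : ℝ) (Z : Matrix (Fin m) (Fin p) ℂ) : (Kz ε Z)ᴴ = Z * Dz ε Z := by
  rw [Kz, conjTranspose_mul, conjTranspose_conjTranspose, Dz_herm]

lemma Ez_eq (ε : ℝ) (z0 : Matrix (Fin m) (Fin p) ℂ) (hp : (Mz ε z0).det ≠ 0) :
    Ez ε z0 = 1 - (ε : ℂ) • (z0 * Kz ε z0) := by
  apply Matrix.inv_eq_right_inv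
  have h1 : z0 * z0ᴴ * (z0 * Kz ε z0) = z0 * (z0ᴴ * z0) * Dz ε z0 * z0ᴴ := by
    simp only [Kz, Matrix.mul_assoc]
  have h2 : z0 * z0ᴴ = z0 * (Mz ε z0 * Dz ε z0) * z0ᴴ := by rw [Mz_mul_Dz ε z0 hp, Matrix.mul_one]
  have h3 : z0 * (Mz ε z0 * Dz ε z0) * z0ᴴ = z0 * Kz ε z0 + (ε : ℂ) • (z0 * z0ᴴ * (z0 * Kz ε z0)) := by
    rw [h1]
    simp only [Mz, Kz, Matrix.mul_add, Matrix.add_mul, Matrix.mul_one, Matrix.one_mul,
      Matrix.smul_mul, Matrix.mul_smul, Matrix.mul_assoc]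
  have h4 : (ε : ℂ) • (z0 * z0ᴴ) = (ε : ℂ) • (z0 * Kz ε z0) +
      (ε : ℂ) • ((ε : ℂ) • (z0 * z0ᴴ * (z0 * Kz ε z0))) := by
    rw [← smul_add, ← h3, ← h2]
  have h5 : (1 + (ε : ℂ) • (z0 * z0ᴴ)) * (1 - (ε : ℂ) • (z0 * Kz ε z0)) =
      1 - (ε : ℂ) • (z0 * Kz ε z0) + ((ε : ℂ) • (z0 * z0ᴴ) -
        (ε : ℂ) • ((ε : ℂ) • (z0 * z0ᴴ * (z0 * Kz ε z0)))) := by
    simp only [Matrix.add_mul, Matrix.mul_sub, Matrix.one_mul, Matrix.mul_one, Matrix.smul_mul,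
      Matrix.mul_smul, smul_add]
    abel
  rw [h5, h4]
  abel

lemma Ez_mul (ε : ℝ) (z0 : Matrix (Fin m) (Fin p) ℂ) (hp : (Mz ε z0).det ≠ 0) :
    Ez ε z0 * z0 = z0 * Dz ε z0 := by
  rw [Ez_eq ε z0 hp]
  have h2 : z0 = z0 * (Dz ε z0 * Mz ε z0) := by rw [Dz_mul_Mz ε z0 hp, Matrix.mul_one]
  have h3 : z0 * (Dz ε z0 * Mz ε z0) = z0 * Dz ε z0 + (ε : ℂ) • (z0 * Kz ε z0 * z0) := by
    simp only [Mz, Kz, Matrix.mul_add, Matrix.mul_one, Matrix.mul_smul, Matrix.mul_assoc]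
  rw [Matrix.sub_mul, Matrix.one_mul, Matrix.smul_mul]
  rw [sub_eq_iff_eq_add, ← h3, ← h2]

lemma mul_Ez (ε : ℝ) (z0 : Matrix (Fin m) (Fin p) ℂ) (hp : (Mz ε z0).det ≠ 0) :
    z0ᴴ * Ez ε z0 = Kz ε z0 := by
  have := congrArg conjTranspose (Ez_mul ε z0 hp)
  rw [conjTranspose_mul, conjTranspose_mul, Ez_herm, Dz_herm] at this
  exact this

lemma Mz_det_eventually (ε : ℝ) (z0 : Matrix (Fin m) (Fin p) ℂ) (hp : (Mz ε z0).det ≠ 0) :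
    ∀ᶠ Z in 𝓝 z0, (Mz ε Z).det ≠ 0 :=
  (det_differentiableAt (Mz_entry ε z0)).continuousAt.eventually_ne hp

lemma HD_Dz (ε : ℝ) (z0 : Matrix (Fin m) (Fin p) ℂ) (hp : (Mz ε z0).det ≠ 0) :
    HD (Dz ε) z0 (fun X => -((ε : ℂ) • (Dz ε z0 * Xᴴ * (Kz ε z0)ᴴ + Kz ε z0 * X * Dz ε z0))) := by
  obtain hd := HD.of_differentiableAt (Dz_differentiableAt ε z0 hp)
  refine hd.congr ?_
  intro X
  have h1 := (hd.mmul (HD_Mz ε z0)).fderiv X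
  have h2 : (fun Z => Dz ε Z * Mz ε Z) =ᶠ[𝓝 z0] fun _ => (1 : Matrix (Fin p) (Fin p) ℂ) := by
    filter_upwards [Mz_det_eventually ε z0 hp] with Z hZ
    exact Dz_mul_Mz ε Z hZ
  have h2' : fderiv ℝ (fun Z => Dz ε Z * Mz ε Z) z0 = 0 := by
    rw [h2.fderiv_eq]
    exact fderiv_const_apply _
  rw [h2', _root_.zero_apply] at h1
  have h3 : fderiv ℝ (Dz ε) z0 X * Mz ε z0 = -(Dz ε z0 * ((ε : ℂ) • (Xᴴ * z0 + z0ᴴ * X))) := by
    exact eq_neg_of_add_eq_zero_left h1.symm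
  have h4 : fderiv ℝ (Dz ε) z0 X = -(Dz ε z0 * ((ε : ℂ) • (Xᴴ * z0 + z0ᴴ * X))) * Dz ε z0 := by
    rw [← h3, Matrix.mul_assoc, Mz_mul_Dz ε z0 hp, Matrix.mul_one]
  rw [h4, Kz_conj, Kz]
  simp only [Matrix.mul_smul, Matrix.smul_mul, Matrix.neg_mul, Matrix.mul_add, Matrix.add_mul,
    Matrix.mul_assoc]

lemma HD_Kz (ε : ℝ) (z0 : Matrix (Fin m) (Fin p) ℂ) (hp : (Mz ε z0).det ≠ 0) :
    HD (Kz ε) z0 (fun X => Dz ε z0 * Xᴴ * Ez ε z0 - (ε : ℂ) • (Kz ε z0 * X * Kz ε z0)) := by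
  have h1 := (HD_Dz ε z0 hp).mmul (HD.conjT (HD.id z0))
  refine h1.congr ?_
  intro X
  rw [Ez_eq ε z0 hp, Kz_conj, Kz]
  simp only [Matrix.mul_smul, Matrix.smul_mul, Matrix.neg_mul, Matrix.mul_add, Matrix.add_mul,
    Matrix.mul_assoc, Matrix.mul_sub, Matrix.mul_one]
  module

lemma HD_Ez (ε : ℝ) (z0 : Matrix (Fin m) (Fin p) ℂ) (hp : (Mz ε z0).det ≠ 0) :
    HD (Ez ε) z0 (fun X => -((ε : ℂ) • (Ez ε z0 * X * Kz ε z0 + (Kz ε z0)ᴴ * Xᴴ * Ez ε z0))) := by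
  have h0 : Ez ε =ᶠ[𝓝 z0] fun Z => 1 - (ε : ℂ) • (Z * Kz ε Z) := by
    filter_upwards [Mz_det_eventually ε z0 hp] with Z hZ
    exact Ez_eq ε Z hZ
  have h1 := (HD.const (1 : Matrix (Fin m) (Fin m) ℂ) z0).sub
    (((HD.id z0).mmul (HD_Kz ε z0 hp)).csmul (ε : ℂ))
  refine (h1.congr_of_eventuallyEq h0).congr ?_
  intro X
  have e1 : Ez ε z0 * X * Kz ε z0 = X * Kz ε z0 - (ε : ℂ) • (z0 * Kz ε z0 * X * Kz ε z0) := by
    rw [Ez_eq ε z0 hp]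
    simp only [Matrix.sub_mul, Matrix.one_mul, Matrix.smul_mul]
  rw [e1, Kz_conj]
  simp only [Matrix.mul_smul, Matrix.smul_mul, Matrix.neg_mul, Matrix.mul_add, Matrix.add_mul,
    Matrix.mul_assoc, Matrix.mul_sub, Matrix.mul_one]
  module

/-- trilinear map behind the Christoffel symbols -/
noncomputable def TG (ε : ℝ) : Matrix (Fin p) (Fin m) ℂ →ₗ[ℝ]
    (Matrix (Fin m) (Fin p) ℂ →L[ℝ] Matrix (Fin m) (Fin p) ℂ →L[ℝ] Matrix (Fin m) (Fin p) ℂ) where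
  toFun K := (LinearMap.mk₂ ℝ (fun X Y : Matrix (Fin m) (Fin p) ℂ =>
      -((ε : ℂ) • (X * K * Y + Y * K * X)))
    (fun X X' Y => by
      simp only [Matrix.add_mul, Matrix.mul_add]; module)
    (fun c X Y => by
      simp only [Matrix.smul_mul, Matrix.mul_smul]; rw [← smul_add, smul_comm, smul_neg])
    (fun X Y Y' => by
      simp only [Matrix.add_mul, Matrix.mul_add]; module)
    (fun c X Y => by
      simp only [Matrix.smul_mul, Matrix.mul_smul]; rw [← smul_add, smul_comm, smul_neg])).toContinuousBilinearMap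
  map_add' K K' := by
    ext1 X; ext1 Y
    simp only [_root_.add_apply, LinearMap.toContinuousBilinearMap_apply, LinearMap.mk₂_apply,
      Matrix.add_mul, Matrix.mul_add]
    module
  map_smul' c K := by
    ext1 X; ext1 Y
    simp only [_root_.smul_apply, LinearMap.toContinuousBilinearMap_apply, LinearMap.mk₂_apply,
      Matrix.smul_mul, Matrix.mul_smul, RingHom.id_apply]
    rw [← smul_add, smul_comm, smul_neg]

lemma TG_apply (ε : ℝ) (K : Matrix (Fin p) (Fin m) ℂ) (X Y : Matrix (Fin m) (Fin p) ℂ) :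
    TG ε K X Y = -((ε : ℂ) • (X * K * Y + Y * K * X)) := rfl

/-- Christoffel map as continuous bilinear map -/
noncomputable def Gc (ε : ℝ) (Z : Matrix (Fin m) (Fin p) ℂ) :
    Matrix (Fin m) (Fin p) ℂ →L[ℝ] Matrix (Fin m) (Fin p) ℂ →L[ℝ] Matrix (Fin m) (Fin p) ℂ :=
  TG ε (Kz ε Z)

/-- quadrilinear map behind the metric -/
noncomputable def TH : Matrix (Fin p) (Fin p) ℂ →ₗ[ℝ] Matrix (Fin m) (Fin m) ℂ →ₗ[ℝ]
    (Matrix (Fin m) (Fin p) ℂ →L[ℝ] Matrix (Fin m) (Fin p) ℂ →L[ℝ] ℝ) :=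
  LinearMap.mk₂ ℝ (fun D E => (LinearMap.mk₂ ℝ (fun X Y : Matrix (Fin m) (Fin p) ℂ =>
      (trace (D * Xᴴ * E * Y)).re)
    (fun X X' Y => by
      simp only [conjTranspose_add, Matrix.add_mul, Matrix.mul_add, trace_add, add_re])
    (fun c X Y => by
      simp [conjTranspose_smul, Matrix.smul_mul, Matrix.mul_smul, trace_smul])
    (fun X Y Y' => by
      simp only [Matrix.mul_add, trace_add, add_re])
    (fun c X Y => by
      simp [Matrix.mul_smul, trace_smul])).toContinuousBilinearMap)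
    (fun D D' E => by
      ext1 X; ext1 Y
      simp only [_root_.add_apply, LinearMap.toContinuousBilinearMap_apply, LinearMap.mk₂_apply,
        Matrix.add_mul, trace_add, add_re])
    (fun c D E => by
      ext1 X; ext1 Y
      simp [LinearMap.toContinuousBilinearMap_apply, LinearMap.mk₂_apply,
        Matrix.smul_mul, trace_smul])
    (fun D E E' => by
      ext1 X; ext1 Y
      simp only [_root_.add_apply, LinearMap.toContinuousBilinearMap_apply, LinearMap.mk₂_apply,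
        Matrix.add_mul, Matrix.mul_add, trace_add, add_re])
    (fun c D E => by
      ext1 X; ext1 Y
      simp [LinearMap.toContinuousBilinearMap_apply, LinearMap.mk₂_apply,
        Matrix.smul_mul, Matrix.mul_smul, trace_smul])

lemma TH_apply (D : Matrix (Fin p) (Fin p) ℂ) (E : Matrix (Fin m) (Fin m) ℂ)
    (X Y : Matrix (Fin m) (Fin p) ℂ) : TH D E X Y = (trace (D * Xᴴ * E * Y)).re := rfl

/-- metric as continuous bilinear map -/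
noncomputable def Hc (ε : ℝ) (Z : Matrix (Fin m) (Fin p) ℂ) :
    Matrix (Fin m) (Fin p) ℂ →L[ℝ] Matrix (Fin m) (Fin p) ℂ →L[ℝ] ℝ :=
  TH (Dz ε Z) (Ez ε Z)

lemma Gam_eq (ε : ℝ) (Z X Y : Matrix (Fin m) (Fin p) ℂ) : Gam ε Z X Y = Gc ε Z X Y := rfl

lemma met_eq (ε : ℝ) (Z X Y : Matrix (Fin m) (Fin p) ℂ) : met ε Z X Y = Hc ε Z X Y := rfl

lemma HD_Gc (ε : ℝ) (z0 : Matrix (Fin m) (Fin p) ℂ) (hp : (Mz ε z0).det ≠ 0) :
    HD (Gc ε) z0 (fun X => TG ε (Dz ε z0 * Xᴴ * Ez ε z0 - (ε : ℂ) • (Kz ε z0 * X * Kz ε z0))) :=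
  by
    have := @HD.linear (Matrix (Fin m) (Fin p) ℂ) (Matrix (Fin p) (Fin m) ℂ) _ _ _ _ _
      (Matrix (Fin m) (Fin p) ℂ →L[ℝ] Matrix (Fin m) (Fin p) ℂ →L[ℝ] Matrix (Fin m) (Fin p) ℂ)
      _ _ (TG ε) _ _ _ (HD_Kz ε z0 hp)
    exact this

lemma HD_Hc (ε : ℝ) (z0 : Matrix (Fin m) (Fin p) ℂ) (hp : (Mz ε z0).det ≠ 0) :
    HD (Hc ε) z0 (fun X => TH (-((ε : ℂ) • (Dz ε z0 * Xᴴ * (Kz ε z0)ᴴ + Kz ε z0 * X * Dz ε z0))) (Ez ε z0)
      + TH (Dz ε z0) (-((ε : ℂ) • (Ez ε z0 * X * Kz ε z0 + (Kz ε z0)ᴴ * Xᴴ * Ez ε z0)))) :=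
  by
    have := @HD.bilinear (Matrix (Fin m) (Fin p) ℂ) _ _ (Matrix (Fin p) (Fin p) ℂ)
      (Matrix (Fin m) (Fin m) ℂ)
      (Matrix (Fin m) (Fin p) ℂ →L[ℝ] Matrix (Fin m) (Fin p) ℂ →L[ℝ] ℝ) _ _ _ _ _ _
      _ _ TH _ _ _ _ _ (HD_Dz ε z0 hp) (HD_Ez ε z0 hp)
    exact this

lemma Gc_symm (ε : ℝ) (z0 X Y : Matrix (Fin m) (Fin p) ℂ) : Gc ε z0 X Y = Gc ε z0 Y X := by
  simp only [Gc, TG_apply]
  rw [add_comm]

lemma Hc_symm (ε : ℝ) (z0 X Y : Matrix (Fin m) (Fin p) ℂ) : Hc ε z0 X Y = Hc ε z0 Y X := by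
  simp only [Hc, TH_apply]
  have h1 : (trace (Dz ε z0 * Xᴴ * Ez ε z0 * Y)).re = (trace ((Dz ε z0 * Xᴴ * Ez ε z0 * Y)ᴴ)).re := by
    rw [trace_conjTranspose]
    simp
  rw [h1]
  simp only [conjTranspose_mul, conjTranspose_conjTranspose, Ez_herm, Dz_herm]
  rw [← Matrix.mul_assoc, ← Matrix.mul_assoc, Matrix.trace_mul_comm]
  simp only [Matrix.mul_assoc]

lemma Hc_LC (ε : ℝ) (z0 : Matrix (Fin m) (Fin p) ℂ) (hp : (Mz ε z0).det ≠ 0)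
    (X Y Z : Matrix (Fin m) (Fin p) ℂ) :
    fderiv ℝ (Hc ε) z0 X Y Z = Hc ε z0 (Gc ε z0 X Y) Z + Hc ε z0 Y (Gc ε z0 X Z) := by
  rw [(HD_Hc ε z0 hp).fderiv]
  simp only [_root_.add_apply, TH_apply, Gc, Hc, TG_apply]
  have e2 : trace (Kz ε z0 * X * Dz ε z0 * Yᴴ * Ez ε z0 * Z) =
      trace (Dz ε z0 * Yᴴ * Ez ε z0 * Z * Kz ε z0 * X) := by
    have := Matrix.trace_mul_comm (Kz ε z0 * X) (Dz ε z0 * Yᴴ * Ez ε z0 * Z)
    simp only [Matrix.mul_assoc] at this ⊢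
    exact this
  have e3 : Dz ε z0 * (-((ε : ℂ) • (X * Kz ε z0 * Y + Y * Kz ε z0 * X)))ᴴ * Ez ε z0 * Z =
      -((ε : ℂ) • (Dz ε z0 * Yᴴ * (Kz ε z0)ᴴ * Xᴴ * Ez ε z0 * Z +
        Dz ε z0 * Xᴴ * (Kz ε z0)ᴴ * Yᴴ * Ez ε z0 * Z)) := by
    simp only [conjTranspose_neg, conjTranspose_smul, conjTranspose_add, conjTranspose_mul,
      Matrix.mul_smul, Matrix.smul_mul, Matrix.neg_mul, Matrix.mul_neg, Matrix.mul_add,
      Matrix.add_mul, Matrix.mul_assoc, Complex.star_def, Complex.conj_ofReal]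
  have e4 : Dz ε z0 * Yᴴ * Ez ε z0 * (-((ε : ℂ) • (X * Kz ε z0 * Z + Z * Kz ε z0 * X))) =
      -((ε : ℂ) • (Dz ε z0 * Yᴴ * Ez ε z0 * X * Kz ε z0 * Z +
        Dz ε z0 * Yᴴ * Ez ε z0 * Z * Kz ε z0 * X)) := by
    simp only [Matrix.mul_smul, Matrix.smul_mul, Matrix.neg_mul, Matrix.mul_neg, Matrix.mul_add,
      Matrix.add_mul, Matrix.mul_assoc]
  have e5 : -((ε : ℂ) • (Dz ε z0 * Xᴴ * (Kz ε z0)ᴴ + Kz ε z0 * X * Dz ε z0)) * Yᴴ * Ez ε z0 * Z =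
      -((ε : ℂ) • (Dz ε z0 * Xᴴ * (Kz ε z0)ᴴ * Yᴴ * Ez ε z0 * Z +
        Kz ε z0 * X * Dz ε z0 * Yᴴ * Ez ε z0 * Z)) := by
    simp only [Matrix.mul_smul, Matrix.smul_mul, Matrix.neg_mul, Matrix.mul_neg, Matrix.mul_add,
      Matrix.add_mul, Matrix.mul_assoc]
  have e6 : Dz ε z0 * Yᴴ * -((ε : ℂ) • (Ez ε z0 * X * Kz ε z0 + (Kz ε z0)ᴴ * Xᴴ * Ez ε z0)) * Z =
      -((ε : ℂ) • (Dz ε z0 * Yᴴ * Ez ε z0 * X * Kz ε z0 * Z +
        Dz ε z0 * Yᴴ * (Kz ε z0)ᴴ * Xᴴ * Ez ε z0 * Z)) := by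
    simp only [Matrix.mul_smul, Matrix.smul_mul, Matrix.neg_mul, Matrix.mul_neg, Matrix.mul_add,
      Matrix.add_mul, Matrix.mul_assoc]
  rw [e3, e4, e5, e6]
  simp only [trace_neg, trace_smul, trace_add, e2, smul_add, neg_re, add_re]
  ring

/-- the curvature tensor of the model -/
lemma rbar_eq (ε : ℝ) (z0 : Matrix (Fin m) (Fin p) ℂ) (hp : (Mz ε z0).det ≠ 0)
    (X Y W : Matrix (Fin m) (Fin p) ℂ) :
    rbar (Gc ε) z0 X Y W =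
      (ε : ℂ) • (X * Dz ε z0 * Yᴴ * Ez ε z0 * W + W * Dz ε z0 * Yᴴ * Ez ε z0 * X) -
      (ε : ℂ) • (Y * Dz ε z0 * Xᴴ * Ez ε z0 * W + W * Dz ε z0 * Xᴴ * Ez ε z0 * Y) := by
  rw [rbar, (HD_Gc ε z0 hp).fderiv, (HD_Gc ε z0 hp).fderiv]
  simp only [Gc, TG_apply]
  simp only [Matrix.mul_smul, Matrix.smul_mul, Matrix.neg_mul, Matrix.mul_neg, Matrix.mul_add,
      Matrix.add_mul, Matrix.mul_assoc, Matrix.sub_mul, Matrix.mul_sub]
  module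

end Pool.Agent.R731.HSP
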