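import Pool.Agent.R731.HS.Gauss
import Pool.Agent.R731.HS.LinAlg

/-!
# Semi-parallel hypersurfaces of complex space forms
-/

set_option autoImplicit false

namespace Pool.Agent.R731.HSP

open Pool.Agent.R731.HS Module
open scoped ContDiff Topology

section defs

variable {V W : Type*} [NormedAddCommGroup V] [NormedSpace ℝ V]
  [NormedAddCommGroup W] [NormedSpace ℝ W]

/-- `R · A = 0` at the point `x`: `R(u,v)(A z) = A (R(u,v) z)` for all tangent `u`, `v`, `z`.
Here `dφ a = A z` and `dφ r = R(u,v) z`. -/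
def SemiParallelAt (Γ : V → V → V → V) (h : V → V → V → ℝ) (φ N : W → V) (x : W) : Prop :=
  ∀ u v z a r : W, fderiv ℝ φ x a = shape Γ φ N x z → fderiv ℝ φ x r = curvM Γ h φ N u v z x →
    curvM Γ h φ N u v a x = shape Γ φ N x r

/-- chart of a complex space form, `J` constant -/
structure SpaceForm (c : ℝ) (J : V →L[ℝ] V) (G : V → V →L[ℝ] V →L[ℝ] V)
    (H : V → V →L[ℝ] V →L[ℝ] ℝ) (Ω : Set V) : Prop where
  J_sq : ∀ X, J (J X) = -X
  J_par : ∀ p X Y, G p X (J Y) = J (G p X Y)
  pos : ∀ p ∈ Ω, ∀ X, X ≠ 0 → 0 < H p X X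
  herm : ∀ p ∈ Ω, ∀ X Y, H p (J X) (J Y) = H p X Y
  curv : ∀ p ∈ Ω, ∀ X Y Z, rbar G p X Y Z =
    c • (H p Y Z • X - H p X Z • Y + H p (J Y) Z • J X - H p (J X) Z • J Y -
      (2 * H p (J X) Y) • J Z)

end defs

variable {V W : Type*} [NormedAddCommGroup V] [NormedSpace ℝ V]
  [NormedAddCommGroup W] [NormedSpace ℝ W] [FiniteDimensional ℝ V] [FiniteDimensional ℝ W]

omit [FiniteDimensional ℝ V] [FiniteDimensional ℝ W] in
lemma exists_lift (T S : W →ₗ[ℝ] V) (hT : Function.Injective T) (h : ∀ u, ∃ a, T a = S u) :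
    ∃ A : W →ₗ[ℝ] W, ∀ u, T (A u) = S u := by
  let e := LinearEquiv.ofInjective T hT
  have hS : ∀ u, S u ∈ LinearMap.range T := fun u => h u
  refine ⟨(e.symm : _ →ₗ[ℝ] W) ∘ₗ (S.codRestrict (LinearMap.range T) hS), fun u => ?_⟩
  have h1 : e (e.symm ⟨S u, hS u⟩) = ⟨S u, hS u⟩ := e.apply_symm_apply _
  have h2 := congrArg Subtype.val h1
  exact h2

lemma tangent_exists' (hdim : finrank ℝ W + 1 = finrank ℝ V) (T : W →ₗ[ℝ] V)
    (hT : Function.Injective T) (f : V →ₗ[ℝ] ℝ) (hf : ∀ u, f (T u) = 0) (n : V) (hn : f n = 1)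
    (v : V) (hv : f v = 0) : ∃ u, T u = v := by
  have hle : LinearMap.range T ≤ LinearMap.ker f := by
    rintro _ ⟨u, rfl⟩
    exact hf u
  have h1 : Module.finrank ℝ (LinearMap.range T) = Module.finrank ℝ W :=
    LinearMap.finrank_range_of_inj hT
  have hsurj : LinearMap.range f = ⊤ := by
    rw [LinearMap.range_eq_top]
    intro c
    exact ⟨c • n, by simp [hn]⟩
  have h2 := LinearMap.finrank_range_add_finrank_ker f
  rw [hsurj, finrank_top, Module.finrank_self] at h2
  have h3 : LinearMap.range T = LinearMap.ker f :=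
    Submodule.eq_of_le_of_finrank_eq hle (by omega)
  have : v ∈ LinearMap.range T := by rw [h3]; exact hv
  exact this

variable {c : ℝ} {J : V →L[ℝ] V} {G : V → V →L[ℝ] V →L[ℝ] V}
    {H : V → V →L[ℝ] V →L[ℝ] ℝ} {Ω : Set V} {Γ : V → V → V → V} {h : V → V → V → ℝ}
    {U : Set W} {φ N : W → V}

section pointwise

variable (D : Data Γ h G H Ω U φ N) (F : SpaceForm c J G H Ω)
include D F

omit [FiniteDimensional ℝ V] [FiniteDimensional ℝ W] in
lemma J_skew {p : V} (hp : p ∈ Ω) (X Y : V) : H p (J X) Y = -H p X (J Y) := by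
  have h1 := F.herm p hp (J X) Y
  rw [F.J_sq, map_neg, neg_apply] at h1
  exact h1.symm

/-- the pointwise conclusion -/
theorem pointwise (hdim : finrank ℝ W + 1 = finrank ℝ V) (h5 : 5 ≤ finrank ℝ W) (hc : c ≠ 0)
    (himm : ∀ x ∈ U, Function.Injective (fderiv ℝ φ x)) {x : W} (hx : x ∈ U)
    (hsp : SemiParallelAt Γ h φ N x) :
    ∃ l m : ℝ, (∀ u, H (φ x) (shape Γ φ N x u) (-J (N x)) =
        m * H (φ x) (fderiv ℝ φ x u) (-J (N x))) ∧
      (∀ u, H (φ x) (fderiv ℝ φ x u) (-J (N x)) = 0 → shape Γ φ N x u = l • fderiv ℝ φ x u) ∧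
      (l = m ∨ l * m = -c) := by
  have hp := D.maps x hx
  set p := φ x with hpdef
  set n := N x with hn
  set T := fderiv ℝ φ x with hTdef
  have hTinj : Function.Injective (T : W →ₗ[ℝ] V) := himm x hx
  have hnn : H p n n = 1 := by
    have := D.unit x hx
    rw [D.h_eq] at this
    exact this
  have hTn : ∀ u, H p (T u) n = 0 := by
    intro u
    have := D.normal x hx u
    rw [D.h_eq] at this
    exact this
  have hnT : ∀ u, H p n (T u) = 0 := by
    intro u
    rw [D.H_symm p hp]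
    exact hTn u
  have hs : ∀ u, H p (shape Γ φ N x u) n = 0 := by
    intro u
    have := D.shape_tangent hx u
    rw [D.h_eq] at this
    exact this
  have htan : ∀ v : V, H p v n = 0 → ∃ u, T u = v := by
    intro v hv
    exact tangent_exists' hdim (T : W →ₗ[ℝ] V) hTinj (((H p).flip n : V →L[ℝ] ℝ) : V →ₗ[ℝ] ℝ)
      hTn n hnn v hv
  have hJn : H p (J n) n = 0 := by
    have h1 := J_skew D F hp n n
    have h2 := D.H_symm p hp (J n) n
    linarith
  have hξn : H p (-J n) n = 0 := by rw [map_neg, neg_apply, hJn, neg_zero]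
  obtain ⟨w, hw⟩ := htan _ hξn
  -- shape operator
  let SA : W →L[ℝ] V := -(fderiv ℝ N x + ((G p).flip n).comp T)
  have hSA : ∀ u, SA u = shape Γ φ N x u := by
    intro u
    simp only [shape, nb, D.Γ_eq]
    rfl
  obtain ⟨A, hA⟩ := exists_lift (T : W →ₗ[ℝ] V) (SA : W →ₗ[ℝ] V) hTinj (fun u => by
    obtain ⟨a, ha⟩ := htan (shape Γ φ N x u) (hs u)
    exact ⟨a, by rw [ContinuousLinearMap.coe_coe, ContinuousLinearMap.coe_coe, ha, hSA]⟩)
  have hA' : ∀ u, T (A u) = shape Γ φ N x u := fun u => (hA u).trans (hSA u)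
  -- structure tensor
  let SP : W →L[ℝ] V := J.comp T - (((H p).flip n).comp (J.comp T)).smulRight n
  have hSP : ∀ u, SP u = J (T u) - H p (J (T u)) n • n := by
    intro u
    rfl
  obtain ⟨P, hP⟩ := exists_lift (T : W →ₗ[ℝ] V) (SP : W →ₗ[ℝ] V) hTinj (fun u => by
    obtain ⟨a, ha⟩ := htan (J (T u) - H p (J (T u)) n • n) (by
      rw [map_sub, map_smul, sub_apply, smul_apply, hnn, smul_eq_mul, mul_one, sub_self])
    exact ⟨a, by rw [ContinuousLinearMap.coe_coe, ContinuousLinearMap.coe_coe, ha, hSP]⟩)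
  have hP' : ∀ u, T (P u) = J (T u) - H p (J (T u)) n • n := fun u => (hP u).trans (hSP u)
  let B : W →ₗ[ℝ] W →ₗ[ℝ] ℝ := LinearMap.mk₂ ℝ (fun u v => H p (T u) (T v))
    (fun _ _ _ => by simp) (fun _ _ _ => by simp) (fun _ _ _ => by simp) (fun _ _ _ => by simp)
  have hB : ∀ u v, B u v = H p (T u) (T v) := fun u v => rfl
  have hBw : ∀ u, H p (J (T u)) n = B u w := by
    intro u
    rw [hB, hw, map_neg, J_skew D F hp]
  have hBP : ∀ u z, H p (J (T u)) (T z) = B (P u) z := by
    intro u z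
    rw [hB, hP', map_sub, map_smul, sub_apply, smul_apply, hnT, smul_zero, sub_zero]
  have hBA : ∀ u z, B (A u) z = H p (T z) (shape Γ φ N x u) := by
    intro u z
    rw [hB, hA', D.H_symm p hp]
  have AD : AlgData c B A P w :=
    { symm := fun u v => D.H_symm p hp _ _
      pos := fun u hu => F.pos p hp _ (fun h0 => hu (hTinj (by simpa using h0)))
      A_symm := fun u v => by
        rw [hB, hB, hA', hA']
        have := D.shape_symm hx u v
        rw [D.h_eq, D.h_eq] at this
        rw [D.H_symm p hp]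
        exact this
      P_skew := fun u v => by
        have e1 : B (P u) v = H p (J (T u)) (T v) := (hBP u v).symm
        have e2 : B u (P v) = H p (J (T v)) (T u) := by rw [hB, D.H_symm p hp, ← hB, hBP]
        have e3 := J_skew D F hp (T v) (T u)
        have e4 := D.H_symm p hp (T v) (J (T u))
        linarith
      P_sq := fun u => by
        apply hTinj
        rw [ContinuousLinearMap.coe_coe, hP', map_add, map_neg, map_smul, hw, hP', map_sub,
          map_smul, F.J_sq, hBw]
        simp only [map_sub, map_neg, map_smul, sub_apply, neg_apply, smul_apply, hTn, hJn,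
          smul_eq_mul, mul_zero, neg_zero, sub_zero, zero_smul]
        module
      P_w := by
        apply hTinj
        rw [ContinuousLinearMap.coe_coe, hP', hw, map_neg, F.J_sq, neg_neg, hnn, one_smul,
          sub_self, map_zero]
      w_unit := by
        rw [hB, hw, map_neg, map_neg, neg_apply, neg_neg, F.herm p hp, hnn] }
  -- Gauss
  have hgauss : ∀ u v z, T (algR c B A P u v z) = curvM Γ h φ N u v z x := by
    intro u v z
    rw [D.gauss hx u v z, F.curv _ hp]
    simp only [algR, map_add, map_sub, map_smul, tang, D.h_eq, hA', hP', ← hpdef, ← hTdef, ← hn,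
      sub_apply, add_apply, smul_apply, hTn, hBP]
    rw [hB v z, hB u z, hBA, hBA]
    simp only [smul_eq_mul]
    module
  have hR : ∀ u v z, algR c B A P u v (A z) = A (algR c B A P u v z) := by
    intro u v z
    apply hTinj
    rw [ContinuousLinearMap.coe_coe, hgauss, hA']
    exact hsp u v z (A z) (algR c B A P u v z) (hA' z) (hgauss u v z)
  obtain ⟨l, m, h1, h2, h3⟩ := AD.main h5 hc hR
  refine ⟨l, m, ?_, ?_, h3⟩
  · intro u
    rw [← hw, ← hA', ← hB, ← hB, AD.A_symm, h1, map_smul, smul_eq_mul]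
  · intro u hu
    rw [← hw, ← hB] at hu
    rw [← hA', h2 u hu, map_smul]

end pointwise

end Pool.Agent.R731.HSP
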