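import Pool.Agent.R731.HS.Main2

/-!
# The geodesic sphere of radius `π/4` in `G₂(ℂ³) = ℂP²`
-/

set_option autoImplicit false

namespace Pool.Agent.R731.HS

open Matrix Complex
open scoped ContDiff Topology ComplexOrder Matrix.Norms.Elementwise

attribute [-instance] instTopologicalSpaceMatrix
attribute [-instance] Matrix.instUniformSpace

section cd

variable {W : Type*} [NormedAddCommGroup W] [NormedSpace ℝ W]
variable {a b c : Type*} [Fintype a] [Fintype b] [Fintype c]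

lemma cd_mul {f : W → Matrix a b ℂ} {g : W → Matrix b c ℂ} {U : Set W}
    (hf : ContDiffOn ℝ ∞ f U) (hg : ContDiffOn ℝ ∞ g U) :
    ContDiffOn ℝ ∞ (fun x => f x * g x) U := by
  let B : Matrix a b ℂ →ₗ[ℝ] Matrix b c ℂ →ₗ[ℝ] Matrix a c ℂ :=
    LinearMap.mk₂ ℝ (fun A B => A * B) (fun _ _ _ => Matrix.add_mul _ _ _)
      (fun _ _ _ => Matrix.smul_mul _ _ _) (fun _ _ _ => Matrix.mul_add _ _ _)
      (fun _ _ _ => Matrix.mul_smul _ _ _)
  exact (B.toContinuousBilinearMap.contDiff.comp_contDiffOn hf).clm_apply hg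

lemma cd_conjT {f : W → Matrix a b ℂ} {U : Set W} (hf : ContDiffOn ℝ ∞ f U) :
    ContDiffOn ℝ ∞ (fun x => (f x)ᴴ) U := by
  let T : Matrix a b ℂ →ₗ[ℝ] Matrix b a ℂ :=
    { toFun := fun A => Aᴴ
      map_add' := fun _ _ => conjTranspose_add _ _
      map_smul' := fun r A => by
        ext i j
        simp [conjTranspose_apply] }
  exact (LinearMap.toContinuousLinearMap T).contDiff.comp_contDiffOn hf

lemma cd_smul {f : W → Matrix a b ℂ} {U : Set W} (z : ℂ) (hf : ContDiffOn ℝ ∞ f U) :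
    ContDiffOn ℝ ∞ (fun x => z • f x) U := by
  let T : Matrix a b ℂ →ₗ[ℝ] Matrix a b ℂ :=
    { toFun := fun A => z • A
      map_add' := fun _ _ => smul_add _ _ _
      map_smul' := fun r A => by
        simp only [RingHom.id_apply]
        rw [smul_comm] }
  exact (LinearMap.toContinuousLinearMap T).contDiff.comp_contDiffOn hf

end cd

/-- `1 - |x|²` -/
noncomputable def rho (x : EuclideanSpace ℝ (Fin 3)) : ℝ := 1 - (x 0 ^ 2 + x 1 ^ 2 + x 2 ^ 2)

/-- the open unit ball -/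
def UB : Set (EuclideanSpace ℝ (Fin 3)) := {x | 0 < rho x}

/-- half of the unit sphere of `ℂ²`, as a graph -/
noncomputable def sph (x : EuclideanSpace ℝ (Fin 3)) : Matrix (Fin 1) (Fin 2) ℂ :=
  (x 0) • !![1, 0] + (x 1) • !![I, 0] + (x 2) • !![0, 1] + (√(rho x)) • !![0, I]

/-- the unit normal -/
noncomputable def sphN (x : EuclideanSpace ℝ (Fin 3)) : Matrix (Fin 1) (Fin 2) ℂ :=
  (2 : ℂ) • sph x

lemma coord_contDiff (i : Fin 3) : ContDiff ℝ ∞ (fun x : EuclideanSpace ℝ (Fin 3) => x i) :=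
  (EuclideanSpace.proj (𝕜 := ℝ) i).contDiff

lemma rho_contDiff : ContDiff ℝ ∞ rho := by
  unfold rho
  exact contDiff_const.sub ((((coord_contDiff 0).pow 2).add ((coord_contDiff 1).pow 2)).add
    ((coord_contDiff 2).pow 2))

lemma UB_open : IsOpen UB := isOpen_lt continuous_const rho_contDiff.continuous

lemma sph_contDiffOn : ContDiffOn ℝ ∞ sph UB := by
  unfold sph
  have h1 : ContDiffOn ℝ ∞ (fun x : EuclideanSpace ℝ (Fin 3) => √(rho x)) UB :=
    rho_contDiff.contDiffOn.sqrt (fun x hx => (ne_of_gt hx))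
  exact ((((coord_contDiff 0).contDiffOn.smul contDiffOn_const).add
    ((coord_contDiff 1).contDiffOn.smul contDiffOn_const)).add
    ((coord_contDiff 2).contDiffOn.smul contDiffOn_const)).add (h1.smul contDiffOn_const)

lemma sph_zero_zero (x : EuclideanSpace ℝ (Fin 3)) : sph x 0 0 = x 0 + x 1 * I := by
  simp [sph]

lemma sph_zero_one (x : EuclideanSpace ℝ (Fin 3)) : sph x 0 1 = x 2 + √(rho x) * I := by
  simp [sph]

lemma sph_unit {x : EuclideanSpace ℝ (Fin 3)} (hx : x ∈ UB) : sph x * (sph x)ᴴ = 1 := by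
  have hs : √(rho x) ^ 2 = rho x := Real.sq_sqrt (le_of_lt hx)
  ext i j
  fin_cases i
  fin_cases j
  simp only [Fin.zero_eta, Matrix.mul_apply, Fin.sum_univ_two, conjTranspose_apply, sph_zero_zero,
    sph_zero_one, Matrix.one_apply_eq, Fin.isValue]
  apply Complex.ext
  · simp
    unfold rho at hs ⊢
    nlinarith [hs]
  · simp
    ring

lemma sph_differentiableAt {x : EuclideanSpace ℝ (Fin 3)} (hx : x ∈ UB) :
    DifferentiableAt ℝ sph x :=
  (sph_contDiffOn.contDiffAt (UB_open.mem_nhds hx)).differentiableAt (by simp)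

lemma sph_deriv {x : EuclideanSpace ℝ (Fin 3)} (hx : x ∈ UB) (u : EuclideanSpace ℝ (Fin 3)) :
    (fderiv ℝ sph x u) 0 0 = u 0 + u 1 * I ∧ ((fderiv ℝ sph x u) 0 1).re = u 2 := by
  have hd := HD.of_differentiableAt (sph_differentiableAt hx)
  have hc : ∀ i : Fin 3, HD (fun x : EuclideanSpace ℝ (Fin 3) => x i) x (fun u => u i) := by
    intro i
    exact ⟨EuclideanSpace.proj (𝕜 := ℝ) i, (EuclideanSpace.proj (𝕜 := ℝ) i).hasFDerivAt,
      fun u => rfl⟩
  constructor
  · let T : Matrix (Fin 1) (Fin 2) ℂ →ₗ[ℝ] ℂ :=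
      { toFun := fun M => M 0 0
        map_add' := fun _ _ => rfl
        map_smul' := fun _ _ => rfl }
    have h1 := (HD.linear T hd).fderiv u
    let S : ℝ →ₗ[ℝ] ℂ :=
      { toFun := fun r => (r : ℂ)
        map_add' := fun _ _ => by push_cast; rfl
        map_smul' := fun _ _ => by simp }
    let S' : ℝ →ₗ[ℝ] ℂ :=
      { toFun := fun r => (r : ℂ) * I
        map_add' := fun _ _ => by push_cast; ring
        map_smul' := fun _ _ => by simp; ring }
    have h2 := ((HD.linear S (hc 0)).add (HD.linear S' (hc 1))).fderiv u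
    have h3 : (fun x => T (sph x)) = fun x => S (x 0) + S' (x 1) := by
      funext y
      exact sph_zero_zero y
    rw [h3, h2] at h1
    exact h1.symm
  · let T : Matrix (Fin 1) (Fin 2) ℂ →ₗ[ℝ] ℝ :=
      { toFun := fun M => (M 0 1).re
        map_add' := fun _ _ => by simp
        map_smul' := fun _ _ => by simp }
    have h1 := (HD.linear T hd).fderiv u
    have h3 : (fun x => T (sph x)) = fun x => x 2 := by
      funext y
      show (sph y 0 1).re = y 2
      rw [sph_zero_one]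
      simp
    rw [h3, (hc 2).fderiv u] at h1
    exact h1.symm

lemma sph_injective {x : EuclideanSpace ℝ (Fin 3)} (hx : x ∈ UB) :
    Function.Injective (fderiv ℝ sph x) := by
  rw [injective_iff_map_eq_zero]
  intro u hu
  obtain ⟨h1, h2⟩ := sph_deriv hx u
  rw [hu] at h1 h2
  simp only [Matrix.zero_apply, Complex.zero_re] at h1 h2
  have h3 := congrArg Complex.re h1
  have h4 := congrArg Complex.im h1
  simp at h3 h4
  ext i
  fin_cases i
  · exact h3.symm
  · exact h4.symm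
  · exact h2.symm

/-- the pairing `(A B*)₀₀` -/
noncomputable def pr (A B : Matrix (Fin 1) (Fin 2) ℂ) : ℂ := (A * Bᴴ) 0 0

lemma pr_eq (A B : Matrix (Fin 1) (Fin 2) ℂ) :
    pr A B = A 0 0 * star (B 0 0) + A 0 1 * star (B 0 1) := by
  simp [pr, Matrix.mul_apply, Fin.sum_univ_two, conjTranspose_apply]

lemma pr_star (A B : Matrix (Fin 1) (Fin 2) ℂ) : star (pr A B) = pr B A := by
  simp only [pr_eq, star_add, star_mul', star_star]
  ring

lemma sph_tangent {x : EuclideanSpace ℝ (Fin 3)} (hx : x ∈ UB) (u : EuclideanSpace ℝ (Fin 3)) :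
    pr (fderiv ℝ sph x u) (sph x) + pr (sph x) (fderiv ℝ sph x u) = 0 := by
  have hd := HD.of_differentiableAt (sph_differentiableAt hx)
  have h1 := (hd.mmul hd.conjT).fderiv u
  have h2 : (fun y => sph y * (sph y)ᴴ) =ᶠ[𝓝 x] fun _ => (1 : Matrix (Fin 1) (Fin 1) ℂ) := by
    filter_upwards [UB_open.mem_nhds hx] with y hy
    exact sph_unit hy
  have h2' : fderiv ℝ (fun y => sph y * (sph y)ᴴ) x = 0 := by
    rw [h2.fderiv_eq]
    exact fderiv_const_apply _
  rw [h2', _root_.zero_apply] at h1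
  have h3 := congrFun (congrFun h1 0) 0
  simp only [Matrix.zero_apply, Matrix.add_apply] at h3
  exact h3.symm

section alg

variable {z : Matrix (Fin 1) (Fin 2) ℂ} (hz : z * zᴴ = 1)
include hz

lemma pr_self : pr z z = 1 := by
  rw [pr, hz]; rfl

lemma Dz_sph : Dz 1 z = 1 - (1 / 2 : ℂ) • (zᴴ * z) := by
  apply Matrix.inv_eq_right_inv
  have h1 : zᴴ * z * (zᴴ * z) = zᴴ * z := by
    rw [Matrix.mul_assoc, ← Matrix.mul_assoc z, hz, Matrix.one_mul]
  simp only [Complex.ofReal_one, one_smul, Matrix.mul_sub, Matrix.add_mul, Matrix.mul_one,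
    Matrix.one_mul, Matrix.mul_smul, h1]
  module

lemma Ez_sph : Ez 1 z = (1 / 2 : ℂ) • (1 : Matrix (Fin 1) (Fin 1) ℂ) := by
  apply Matrix.inv_eq_right_inv
  rw [hz]
  simp only [Complex.ofReal_one, one_smul, Matrix.mul_smul, Matrix.mul_one]
  rw [← two_smul ℂ (1 : Matrix (Fin 1) (Fin 1) ℂ), smul_smul]
  norm_num

lemma met_sph (X Y : Matrix (Fin 1) (Fin 2) ℂ) :
    met 1 z X Y = (1 / 2 * pr Y X - 1 / 4 * (pr z X * pr Y z)).re := by
  rw [met, Dz_sph hz, Ez_sph hz]
  congr 1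
  simp only [pr_eq, Matrix.trace_fin_two, Matrix.mul_apply, Fin.sum_univ_two, Matrix.sub_apply,
    Matrix.smul_apply, conjTranspose_apply, Matrix.one_apply, smul_eq_mul, Fin.sum_univ_one,
    Finset.univ_unique, Fin.default_eq_zero, Finset.sum_singleton, Fin.isValue]
  simp
  ring

lemma Gam_sph (X Y : Matrix (Fin 1) (Fin 2) ℂ) :
    Gam 1 z X Y = -((1 / 2 : ℂ) • (pr X z • Y + pr Y z • X)) := by
  have h0 : Dz 1 z * zᴴ = (1 / 2 : ℂ) • zᴴ := by
    rw [Dz_sph hz, Matrix.sub_mul, Matrix.one_mul, Matrix.smul_mul, Matrix.mul_assoc, hz,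
      Matrix.mul_one]
    module
  rw [Gam, h0]
  ext i j
  fin_cases i
  simp only [pr, Matrix.mul_apply, Fin.sum_univ_two, Matrix.neg_apply, Matrix.add_apply,
    Matrix.smul_apply, smul_eq_mul, Finset.univ_unique, Fin.default_eq_zero,
    Finset.sum_singleton, Fin.isValue, Fin.zero_eta, Complex.ofReal_one]
  ring

lemma ADB_sph (A B : Matrix (Fin 1) (Fin 2) ℂ) (C : Matrix (Fin 1) (Fin 2) ℂ) :
    A * Dz 1 z * Bᴴ * Ez 1 z * C = (1 / 2 * (pr A B - 1 / 2 * (pr A z * pr z B))) • C := by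
  rw [Dz_sph hz, Ez_sph hz]
  have h1 : A * (1 - (1 / 2 : ℂ) • (zᴴ * z)) * Bᴴ = A * Bᴴ - (1 / 2 : ℂ) • ((A * zᴴ) * (z * Bᴴ)) := by
    simp only [Matrix.mul_sub, Matrix.sub_mul, Matrix.mul_one, Matrix.mul_smul, Matrix.smul_mul,
      Matrix.mul_assoc]
  rw [h1]
  ext i j
  fin_cases i
  simp only [pr, Matrix.mul_apply (M := _ * ((1 / 2 : ℂ) • (1 : Matrix (Fin 1) (Fin 1) ℂ))),
    Finset.univ_unique, Fin.default_eq_zero, Finset.sum_singleton, Fin.isValue, Fin.zero_eta,
    Matrix.smul_apply, smul_eq_mul]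
  rw [Matrix.mul_smul, Matrix.mul_one, Matrix.smul_apply, Matrix.sub_apply, Matrix.smul_apply,
    Matrix.mul_apply (M := A * zᴴ)]
  simp only [Finset.univ_unique, Fin.default_eq_zero, Finset.sum_singleton, smul_eq_mul]

lemma rbar_sph (X Y W : Matrix (Fin 1) (Fin 2) ℂ) :
    rbar (Gc 1) z X Y W =
      (1 / 2 * (pr X Y - 1 / 2 * (pr X z * pr z Y))) • W +
      (1 / 2 * (pr W Y - 1 / 2 * (pr W z * pr z Y))) • X -
      (1 / 2 * (pr Y X - 1 / 2 * (pr Y z * pr z X))) • W -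
      (1 / 2 * (pr W X - 1 / 2 * (pr W z * pr z X))) • Y := by
  have hdet : (Mz 1 z).det ≠ 0 := Om_det (mem_Om_one z)
  rw [rbar_eq 1 z hdet, ADB_sph hz, ADB_sph hz, ADB_sph hz, ADB_sph hz]
  simp only [Complex.ofReal_one, one_smul]
  abel

end alg

end Pool.Agent.R731.HS
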