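import Pool.Agent.R731.HS.Sphere

/-!
# The geodesic sphere of radius `π/4` in `G₂(ℂ³) = ℂP²`, continued
-/

set_option autoImplicit false

namespace Pool.Agent.R731.HS

open Matrix Complex
open scoped ContDiff Topology ComplexOrder Matrix.Norms.Elementwise

attribute [-instance] instTopologicalSpaceMatrix
attribute [-instance] Matrix.instUniformSpace

lemma pr_smul_left (c : ℂ) (A B : Matrix (Fin 1) (Fin 2) ℂ) : pr (c • A) B = c * pr A B := by
  simp [pr, Matrix.smul_mul]

lemma pr_smul_right (c : ℂ) (A B : Matrix (Fin 1) (Fin 2) ℂ) : pr A (c • B) = star c * pr A B := by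
  simp [pr, Matrix.mul_smul, conjTranspose_smul]

lemma pr_im {X z : Matrix (Fin 1) (Fin 2) ℂ} (h : pr X z + pr z X = 0) :
    ∃ s : ℝ, pr X z = s * I ∧ pr z X = -(s * I) := by
  refine ⟨(pr X z).im, ?_, ?_⟩
  · have h1 : (pr X z).re = 0 := by
      have h2 := congrArg Complex.re h
      rw [← pr_star X z] at h2
      simp at h2
      linarith
    apply Complex.ext <;> simp [h1]
  · have h1 : (pr X z).re = 0 := by
      have h2 := congrArg Complex.re h
      rw [← pr_star X z] at h2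
      simp at h2
      linarith
    rw [← pr_star X z]
    apply Complex.ext <;> simp [h1]

lemma sphere_hypSurf : HypSurf (met 1) (Om 1 1) UB sph sphN where
  isOpen := UB_open
  smooth := sph_contDiffOn
  smooth_normal := cd_smul 2 sph_contDiffOn
  maps := fun x _ => mem_Om_one _
  immersion := fun x hx => sph_injective hx
  unit := fun x hx => by
    have hz := sph_unit hx
    rw [met_sph hz, sphN, pr_smul_left, pr_smul_right, pr_smul_left, pr_self hz]
    norm_num
  normal := fun x hx u => by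
    have hz := sph_unit hx
    obtain ⟨s, h1, h2⟩ := pr_im (sph_tangent hx u)
    rw [met_sph hz, sphN, pr_smul_left, pr_smul_left, pr_self hz, h2]
    simp

lemma sphere_normal_H {x : EuclideanSpace ℝ (Fin 3)} (hx : x ∈ UB)
    (u : EuclideanSpace ℝ (Fin 3)) : Hc 1 (sph x) (fderiv ℝ sph x u) (sphN x) = 0 :=
  sphere_hypSurf.normal x hx u

lemma sphere_data : Data (Gam 1) (met 1) (Gc 1) (Hc 1) (Om 1 1) UB sph sphN where
  Γ_eq := Gam_eq 1
  h_eq := met_eq 1
  G_diff := fun p hp => (HD_Gc 1 p (Om_det hp)).differentiableAt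
  H_diff := fun p hp => (HD_Hc 1 p (Om_det hp)).differentiableAt
  G_symm := Gc_symm 1
  H_symm := fun p _ => Hc_symm 1 p
  LC := fun p hp => Hc_LC 1 p (Om_det hp)
  U_open := UB_open
  φ_smooth := sph_contDiffOn
  N_smooth := sphere_hypSurf.smooth_normal
  maps := sphere_hypSurf.maps
  unit := sphere_hypSurf.unit
  normal := sphere_hypSurf.normal

lemma sphere_shape {x : EuclideanSpace ℝ (Fin 3)} (hx : x ∈ UB)
    (u : EuclideanSpace ℝ (Fin 3)) :
    shape (Gam 1) sph sphN x u =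
      pr (fderiv ℝ sph x u) (sph x) • sph x - fderiv ℝ sph x u := by
  have hz := sph_unit hx
  have hd := HD.of_differentiableAt (sph_differentiableAt hx)
  have h1 : fderiv ℝ sphN x u = (2 : ℂ) • fderiv ℝ sph x u := (hd.csmul 2).fderiv u
  rw [shape, nb, h1, Gam_sph hz, sphN, pr_smul_left, pr_self hz]
  module

/-- `ξ = -J N` -/
noncomputable def sphXi (x : EuclideanSpace ℝ (Fin 3)) : Matrix (Fin 1) (Fin 2) ℂ :=
  -(I • sphN x)

lemma sphXi_eq (x : EuclideanSpace ℝ (Fin 3)) : sphXi x = (-2 * I) • sph x := by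
  rw [sphXi, sphN, smul_smul, ← neg_smul]
  congr 1
  ring

lemma sphere_tangent_xi {x : EuclideanSpace ℝ (Fin 3)} (hx : x ∈ UB) :
    ∃ z : EuclideanSpace ℝ (Fin 3), fderiv ℝ sph x z = sphXi x := by
  have hz := sph_unit hx
  have hdim : Module.finrank ℝ (EuclideanSpace ℝ (Fin 3)) + 1 =
      Module.finrank ℝ (Matrix (Fin 1) (Fin 2) ℂ) := by
    rw [finrank_mat, finrank_euclideanSpace, Fintype.card_fin]
  have hTinj : Function.Injective ((fderiv ℝ sph x : EuclideanSpace ℝ (Fin 3) →L[ℝ]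
      Matrix (Fin 1) (Fin 2) ℂ) : EuclideanSpace ℝ (Fin 3) →ₗ[ℝ]
      Matrix (Fin 1) (Fin 2) ℂ) := sph_injective hx
  have hv : Hc 1 (sph x) (sphXi x) (sphN x) = 0 := by
    rw [← met_eq, met_sph hz, sphN, sphXi_eq, pr_smul_left, pr_smul_left, pr_smul_right,
      pr_self hz]
    simp
  exact tangent_exists hdim _ hTinj (((Hc 1 (sph x)).flip (sphN x) : _ →L[ℝ] ℝ) : _ →ₗ[ℝ] ℝ)
      (fun u => sphere_hypSurf.normal x hx u) (sphN x) (sphere_hypSurf.unit x hx) _ hv

lemma sphere_curv {x : EuclideanSpace ℝ (Fin 3)} (hx : x ∈ UB)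
    (u v z : EuclideanSpace ℝ (Fin 3)) (hxi : fderiv ℝ sph x z = sphXi x) :
    curvM (Gam 1) (met 1) sph sphN u v z x =
      nullTerm (etaForm (met 1) sph (sphXi x) x) (fun u => fderiv ℝ sph x u) u v := by
  have hz := sph_unit hx
  rw [sphere_data.gauss hx u v z, hxi]
  have hAxi : ∀ v : EuclideanSpace ℝ (Fin 3),
      met 1 (sph x) (sphXi x) (shape (Gam 1) sph sphN x v) = 0 := by
    intro v
    rw [sphere_shape hx, met_sph hz, sphXi_eq, pr_smul_right, pr_smul_right, pr_self hz]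
    have h1 : pr (pr (fderiv ℝ sph x v) (sph x) • sph x - fderiv ℝ sph x v) (sph x) = 0 := by
      have : pr (pr (fderiv ℝ sph x v) (sph x) • sph x - fderiv ℝ sph x v) (sph x) =
          pr (fderiv ℝ sph x v) (sph x) * pr (sph x) (sph x) - pr (fderiv ℝ sph x v) (sph x) := by
        simp only [pr, Matrix.sub_mul, Matrix.smul_mul, Matrix.sub_apply, Matrix.smul_apply,
          smul_eq_mul]
      rw [this, pr_self hz]
      ring
    rw [h1]
    simp
  rw [hAxi, hAxi, zero_smul, zero_smul, add_zero, sub_zero]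
  set X := fderiv ℝ sph x u with hX
  set Y := fderiv ℝ sph x v with hY
  obtain ⟨s, hs1, hs2⟩ := pr_im (sph_tangent hx u)
  obtain ⟨t, ht1, ht2⟩ := pr_im (sph_tangent hx v)
  rw [← hX] at hs1 hs2
  rw [← hY] at ht1 ht2
  have hηX : met 1 (sph x) X (sphXi x) = -(s / 2) := by
    rw [met_sph hz, sphXi_eq, pr_smul_left, pr_smul_left, pr_self hz, hs2]
    simp
    ring
  have hηY : met 1 (sph x) Y (sphXi x) = -(t / 2) := by
    rw [met_sph hz, sphXi_eq, pr_smul_left, pr_smul_left, pr_self hz, ht2]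
    simp
    ring
  have hR : rbar (Gc 1) (sph x) X Y (sphXi x) =
      (pr X Y).im • sphN x + (-(t / 2)) • X - (-(s / 2)) • Y := by
    rw [rbar_sph hz, sphXi_eq, sphN, pr_smul_left, pr_smul_left, pr_smul_left, pr_self hz,
      hs1, hs2, ht1, ht2]
    have h1 : pr Y X = star (pr X Y) := (pr_star X Y).symm
    have h2 : pr X Y - star (pr X Y) = 2 * (pr X Y).im * I := by
      apply Complex.ext <;> simp
      ring
    ext i j
    simp only [Matrix.add_apply, Matrix.sub_apply, Matrix.smul_apply, smul_eq_mul, h1,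
      Complex.real_smul]
    push_cast
    linear_combination (1 / 2 * (-2 * I * sph x i j)) * h2 + (((pr X Y).im : ℂ) * (-2) * sph x i j
      + ((t : ℂ) * X i j - s * Y i j) / 2) * I_mul_I
  rw [hR]
  have hN1 : Hc 1 (sph x) (sphN x) (sphN x) = 1 := sphere_hypSurf.unit x hx
  have hXN : Hc 1 (sph x) X (sphN x) = 0 := sphere_hypSurf.normal x hx u
  have hYN : Hc 1 (sph x) Y (sphN x) = 0 := sphere_hypSurf.normal x hx v
  simp only [tang, met_eq, map_sub, map_add, map_smul, _root_.sub_apply, _root_.add_apply,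
    _root_.smul_apply, hN1, hXN, hYN, smul_eq_mul, mul_zero, add_zero, sub_zero, mul_one]
  rw [nullTerm, etaForm, etaForm, ← hX, ← hY, hηX, hηY]
  module

/-- A smooth local frame `(J₁, J₂, J₃)` of the quaternionic structure along `φ`, over `U`:
`J_k X = X q_k` with `J₁ J₂ = J₃`. -/
structure IsFrame {m : ℕ} {W : Type*} [NormedAddCommGroup W] [NormedSpace ℝ W] (ε : ℝ) (U : Set W)
    (φ : W → Matrix (Fin m) (Fin 2) ℂ) (q : Fin 3 → W → Matrix (Fin 2) (Fin 2) ℂ) : Prop where
  smooth : ∀ k, ContDiffOn ℝ ∞ (q k) U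
  quat : ∀ k, ∀ x ∈ U, IsQuat ε (φ x) (q k x)
  mul : ∀ x ∈ U, q 1 x * q 0 x = q 2 x

/-- the vector `(-z̄₂, z̄₁)` -/
noncomputable def orth (z : Matrix (Fin 1) (Fin 2) ℂ) : Matrix (Fin 1) (Fin 2) ℂ :=
  !![-star (z 0 1), star (z 0 0)]

/-- first frame element -/
noncomputable def q0 (z : Matrix (Fin 1) (Fin 2) ℂ) : Matrix (Fin 2) (Fin 2) ℂ :=
  I • ((2 : ℂ) • (zᴴ * z) - 1)

/-- second frame element -/
noncomputable def q1 (z : Matrix (Fin 1) (Fin 2) ℂ) : Matrix (Fin 2) (Fin 2) ℂ :=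
  ((√2 : ℝ) / 2 : ℂ) • (zᴴ * orth z) - ((√2 : ℝ) : ℂ) • ((orth z)ᴴ * z)

section frame

variable {z : Matrix (Fin 1) (Fin 2) ℂ} (hz : z * zᴴ = 1)
include hz

lemma orth_unit : orth z * (orth z)ᴴ = 1 := by
  have h := congrFun (congrFun hz 0) 0
  ext i j
  fin_cases i
  fin_cases j
  simp only [Matrix.mul_apply, Fin.sum_univ_two, conjTranspose_apply, Matrix.one_apply_eq] at h
  simp [Matrix.mul_apply, Fin.sum_univ_two, conjTranspose_apply, orth]
  rw [← h]
  simp only [Complex.star_def]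
  ring

omit hz in
lemma orth_orth : z * (orth z)ᴴ = 0 := by
  ext i j
  fin_cases i
  fin_cases j
  simp [Matrix.mul_apply, Fin.sum_univ_two, conjTranspose_apply, orth]
  ring

omit hz in
lemma orth_orth' : orth z * zᴴ = 0 := by
  have := congrArg conjTranspose (orth_orth (z := z))
  rw [conjTranspose_mul, conjTranspose_conjTranspose, conjTranspose_zero] at this
  exact this

lemma proj_sum : zᴴ * z + (orth z)ᴴ * orth z = 1 := by
  have h := congrFun (congrFun hz 0) 0
  simp only [Matrix.mul_apply, Fin.sum_univ_two, conjTranspose_apply, Matrix.one_apply_eq] at h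
  have h' : z 0 0 * star (z 0 0) + z 0 1 * star (z 0 1) = 1 := h
  ext i j
  fin_cases i <;> fin_cases j <;>
    simp [Matrix.mul_apply, conjTranspose_apply, orth]
  · rw [← h']; simp only [Complex.star_def]; ring
  · ring
  · ring
  · rw [← h']; simp only [Complex.star_def]; ring

lemma trace_P : trace (zᴴ * z) = 1 := by
  rw [Matrix.trace_mul_comm, hz]
  simp

lemma P_P : zᴴ * z * (zᴴ * z) = zᴴ * z := by
  rw [Matrix.mul_assoc, ← Matrix.mul_assoc z, hz, Matrix.one_mul]

lemma q0_quat : IsQuat 1 z (q0 z) where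
  trace_eq := by
    rw [q0, trace_smul, trace_sub, trace_smul, trace_P hz]
    simp
  sq := by
    rw [q0]
    simp only [Matrix.smul_mul, Matrix.mul_smul, Matrix.mul_sub, Matrix.sub_mul, Matrix.mul_one,
      Matrix.one_mul, P_P hz, smul_smul, smul_sub, I_mul_I]
    module
  skew := by
    rw [q0, Dz_sph hz]
    simp only [conjTranspose_smul, conjTranspose_sub, conjTranspose_mul,
      conjTranspose_conjTranspose, conjTranspose_one, Complex.star_def, conj_I,
      Matrix.smul_mul, Matrix.mul_smul, Matrix.mul_sub, Matrix.sub_mul, Matrix.mul_one,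
      Matrix.one_mul, P_P hz]
    simp only [map_ofNat]
    module

lemma q1_quat : IsQuat 1 z (q1 z) where
  trace_eq := by
    have h1 : trace (zᴴ * orth z) = 0 := by
      rw [Matrix.trace_mul_comm, orth_orth', trace_zero]
    have h2 : trace ((orth z)ᴴ * z) = 0 := by
      rw [Matrix.trace_mul_comm, orth_orth, trace_zero]
    rw [q1, trace_sub, trace_smul, trace_smul, h1, h2]
    simp
  sq := by
    have hs : ((√2 : ℝ) : ℂ) * ((√2 : ℝ) : ℂ) = 2 := by
      rw [← Complex.ofReal_mul, Real.mul_self_sqrt (by norm_num)]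
      norm_num
    have e1 : zᴴ * orth z * (zᴴ * orth z) = 0 := by
      rw [Matrix.mul_assoc, ← Matrix.mul_assoc (orth z), orth_orth', Matrix.zero_mul,
        Matrix.mul_zero]
    have e2 : zᴴ * orth z * ((orth z)ᴴ * z) = zᴴ * z := by
      rw [Matrix.mul_assoc, ← Matrix.mul_assoc (orth z), orth_unit hz, Matrix.one_mul]
    have e3 : (orth z)ᴴ * z * (zᴴ * orth z) = (orth z)ᴴ * orth z := by
      rw [Matrix.mul_assoc, ← Matrix.mul_assoc z, hz, Matrix.one_mul]
    have e4 : (orth z)ᴴ * z * ((orth z)ᴴ * z) = 0 := by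
      rw [Matrix.mul_assoc, ← Matrix.mul_assoc z, orth_orth, Matrix.zero_mul,
        Matrix.mul_zero]
    have e5 : (orth z)ᴴ * orth z = 1 - zᴴ * z := by
      rw [← proj_sum hz]
      abel
    rw [q1]
    simp only [Matrix.smul_mul, Matrix.mul_smul, Matrix.mul_sub, Matrix.sub_mul, e1, e2, e3, e4,
      e5, smul_smul, smul_zero, sub_zero, zero_sub]
    have e6 : ((√2 : ℝ) : ℂ) * ((√2 : ℝ) / 2 : ℂ) = 1 := by
      linear_combination hs / 2
    have e7 : ((√2 : ℝ) / 2 : ℂ) * ((√2 : ℝ) : ℂ) = 1 := by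
      linear_combination hs / 2
    rw [e6, smul_neg, smul_smul, e7]
    module
  skew := by
    have c1 : (starRingEnd ℂ) ((√2 : ℝ) / 2 : ℂ) = ((√2 : ℝ) / 2 : ℂ) := by
      rw [map_div₀, Complex.conj_ofReal, map_ofNat]
    have c2 : (starRingEnd ℂ) ((√2 : ℝ) : ℂ) = ((√2 : ℝ) : ℂ) := Complex.conj_ofReal _
    have e1 : zᴴ * orth z * (zᴴ * z) = 0 := by
      rw [Matrix.mul_assoc, ← Matrix.mul_assoc (orth z), orth_orth', Matrix.zero_mul,
        Matrix.mul_zero]
    have e2 : (orth z)ᴴ * z * (zᴴ * z) = (orth z)ᴴ * z := by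
      rw [Matrix.mul_assoc, ← Matrix.mul_assoc z, hz, Matrix.one_mul]
    have e3 : zᴴ * z * ((orth z)ᴴ * z) = 0 := by
      rw [Matrix.mul_assoc, ← Matrix.mul_assoc z, orth_orth, Matrix.zero_mul,
        Matrix.mul_zero]
    have e4 : zᴴ * z * (zᴴ * orth z) = zᴴ * orth z := by
      rw [Matrix.mul_assoc, ← Matrix.mul_assoc z, hz, Matrix.one_mul]
    rw [q1, Dz_sph hz]
    simp only [conjTranspose_smul, conjTranspose_sub, conjTranspose_mul,
      conjTranspose_conjTranspose, Complex.star_def, c1, c2,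
      Matrix.smul_mul, Matrix.mul_smul, Matrix.mul_sub, Matrix.sub_mul, Matrix.mul_one,
      Matrix.one_mul, e1, e2, e3, e4, smul_zero, sub_zero]
    module

lemma q1_q0 : q1 z * q0 z = -(I • (((√2 : ℝ) / 2 : ℂ) • (zᴴ * orth z) +
    ((√2 : ℝ) : ℂ) • ((orth z)ᴴ * z))) := by
  have e1 : zᴴ * orth z * (zᴴ * z) = 0 := by
    rw [Matrix.mul_assoc, ← Matrix.mul_assoc (orth z), orth_orth', Matrix.zero_mul,
      Matrix.mul_zero]
  have e2 : (orth z)ᴴ * z * (zᴴ * z) = (orth z)ᴴ * z := by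
    rw [Matrix.mul_assoc, ← Matrix.mul_assoc z, hz, Matrix.one_mul]
  rw [q1, q0]
  simp only [Matrix.smul_mul, Matrix.mul_smul, Matrix.mul_sub, Matrix.sub_mul, Matrix.mul_one,
    e1, e2, smul_zero]
  module

lemma q0_q1 : q0 z * q1 z = I • (((√2 : ℝ) / 2 : ℂ) • (zᴴ * orth z) +
    ((√2 : ℝ) : ℂ) • ((orth z)ᴴ * z)) := by
  have e1 : zᴴ * z * (zᴴ * orth z) = zᴴ * orth z := by
    rw [Matrix.mul_assoc, ← Matrix.mul_assoc z, hz, Matrix.one_mul]
  have e2 : zᴴ * z * ((orth z)ᴴ * z) = 0 := by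
    rw [Matrix.mul_assoc, ← Matrix.mul_assoc z, orth_orth, Matrix.zero_mul, Matrix.mul_zero]
  rw [q1, q0]
  simp only [Matrix.smul_mul, Matrix.mul_smul, Matrix.mul_sub, Matrix.sub_mul, Matrix.one_mul,
    e1, e2, smul_zero]
  module

lemma q2_quat : IsQuat 1 z (q1 z * q0 z) where
  trace_eq := by
    have h1 : trace (zᴴ * orth z) = 0 := by
      rw [Matrix.trace_mul_comm, orth_orth', trace_zero]
    have h2 : trace ((orth z)ᴴ * z) = 0 := by
      rw [Matrix.trace_mul_comm, orth_orth, trace_zero]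
    rw [q1_q0 hz, trace_neg, trace_smul, trace_add, trace_smul, trace_smul, h1, h2]
    simp
  sq := by
    have h1 : q0 z * q1 z = -(q1 z * q0 z) := by rw [q1_q0 hz, q0_q1 hz, neg_neg]
    have h2 : q1 z * q0 z * (q1 z * q0 z) = q1 z * (q0 z * q1 z) * q0 z := by
      simp only [Matrix.mul_assoc]
    rw [h2, h1, Matrix.mul_neg, Matrix.neg_mul, ← Matrix.mul_assoc, Matrix.mul_assoc _ (q0 z),
      (q1_quat hz).sq, (q0_quat hz).sq]
    simp
  skew := by
    have h1 : q0 z * q1 z = -(q1 z * q0 z) := by rw [q1_q0 hz, q0_q1 hz, neg_neg]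
    have a0 : Dz 1 z * (q0 z)ᴴ = -(q0 z * Dz 1 z) := by
      rw [eq_neg_iff_add_eq_zero, add_comm]; exact (q0_quat hz).skew
    have a1 : Dz 1 z * (q1 z)ᴴ = -(q1 z * Dz 1 z) := by
      rw [eq_neg_iff_add_eq_zero, add_comm]; exact (q1_quat hz).skew
    rw [conjTranspose_mul, ← Matrix.mul_assoc, a0, Matrix.neg_mul, Matrix.mul_assoc (q0 z), a1,
      Matrix.mul_neg, neg_neg, ← Matrix.mul_assoc, h1, Matrix.neg_mul, add_neg_cancel]

end frame

lemma orth_cd {U : Set (EuclideanSpace ℝ (Fin 3))}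
    {f : EuclideanSpace ℝ (Fin 3) → Matrix (Fin 1) (Fin 2) ℂ} (hf : ContDiffOn ℝ ∞ f U) :
    ContDiffOn ℝ ∞ (fun x => orth (f x)) U := by
  let T : Matrix (Fin 1) (Fin 2) ℂ →ₗ[ℝ] Matrix (Fin 1) (Fin 2) ℂ :=
    { toFun := orth
      map_add' := fun A B => by
        ext i j
        fin_cases i
        fin_cases j <;> simp [orth]
        ring
      map_smul' := fun r A => by
        ext i j
        fin_cases i
        fin_cases j <;> simp [orth] }
  exact (LinearMap.toContinuousLinearMap T).contDiff.comp_contDiffOn hf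

lemma q0_cd : ContDiffOn ℝ ∞ (fun x => q0 (sph x)) UB := by
  unfold q0
  exact cd_smul I ((cd_smul 2 (cd_mul (cd_conjT sph_contDiffOn) sph_contDiffOn)).sub
    contDiffOn_const)

lemma q1_cd : ContDiffOn ℝ ∞ (fun x => q1 (sph x)) UB := by
  unfold q1
  exact (cd_smul _ (cd_mul (cd_conjT sph_contDiffOn) (orth_cd sph_contDiffOn))).sub
    (cd_smul _ (cd_mul (cd_conjT (orth_cd sph_contDiffOn)) sph_contDiffOn))

/-- the frame -/
noncomputable def frame3 : Fin 3 → EuclideanSpace ℝ (Fin 3) → Matrix (Fin 2) (Fin 2) ℂ :=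
  ![fun x => q0 (sph x), fun x => q1 (sph x), fun x => q1 (sph x) * q0 (sph x)]

lemma frame3_isFrame : IsFrame 1 UB sph frame3 where
  smooth := fun k => by
    fin_cases k
    · exact q0_cd
    · exact q1_cd
    · exact cd_mul q1_cd q0_cd
  quat := fun k x hx => by
    fin_cases k
    · exact q0_quat (sph_unit hx)
    · exact q1_quat (sph_unit hx)
    · exact q2_quat (sph_unit hx)
  mul := fun x _ => rfl

lemma sph_q0 {x : EuclideanSpace ℝ (Fin 3)} (hx : x ∈ UB) : sphN x * q0 (sph x) = I • sphN x := by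
  have hz := sph_unit hx
  rw [sphN, q0]
  have h1 : sph x * ((sph x)ᴴ * sph x) = sph x := by
    rw [← Matrix.mul_assoc, hz, Matrix.one_mul]
  simp only [Matrix.smul_mul, Matrix.mul_smul, Matrix.mul_sub, Matrix.mul_one, h1]
  module

theorem sphere_null {x : EuclideanSpace ℝ (Fin 3)} (hx : x ∈ UB) :
    NullVec (Gam 1) (met 1) sph sphN (fun X => X * frame3 0 x) (-(I • sphN x)) 1 0 0 x := by
  intro u v z hz
  have h1 := sphere_curv hx u v z hz
  have h2 : -((fun X => X * frame3 0 x) (sphN x)) = sphXi x := by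
    show -(sphN x * q0 (sph x)) = sphXi x
    rw [sph_q0 hx]
    rfl
  rw [h1, h2, one_smul, zero_smul, zero_smul, add_zero, add_zero]

lemma UB_nonempty : UB.Nonempty := by
  refine ⟨0, ?_⟩
  show 0 < rho 0
  simp [rho]

end Pool.Agent.R731.HS
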